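import Pool.Agent.K6.H85.EV.TRC

/-!
# Graded Lie algebras of endomorphisms
-/

set_option autoImplicit false
set_option linter.unusedSectionVars false

namespace Pool.Agent.K6.H85.EV

open Module Pool.Agent.K6.H85.GW

attribute [local instance 100] LieRing.ofAssociativeRing

variable {H : Type} [CommRing H] [Algebra ℂ H] [FiniteDimensional ℂ H] {n : ℕ}
  {dg : ℕ → Submodule ℂ H} {δ : End ℂ H} {𝔟 : LieSubalgebra ℂ (End ℂ H)}

/-- induction on homogeneous elements -/
theorem EvMod.ind (h : EvMod n dg δ 𝔟) {p : H → Prop} (h0 : ∀ k : ℕ, ∀ x ∈ dg k, p x)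
    (hadd : ∀ x y, p x → p y → p (x + y)) (x : H) : p x := by
  have hx : x ∈ ⨆ k, dg k := by rw [h.internal.submodule_iSup_eq_top]; trivial
  induction hx using Submodule.iSup_induction' with
  | mem k x hx => exact h0 k x hx
  | zero => exact h0 0 0 (zero_mem _)
  | add x y _ _ hx hy => exact hadd x y hx hy

theorem EvMod.ext (h : EvMod n dg δ 𝔟) {X Y : End ℂ H} (hXY : ∀ k : ℕ, ∀ x ∈ dg k, X x = Y x) :
    X = Y := by
  ext x
  exact h.ind (p := fun x => X x = Y x) hXY (fun x y hx hy => by rw [map_add, map_add, hx, hy]) x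

theorem EvMod.eigenspace (h : EvMod n dg δ 𝔟) (k : ℕ) : End.eigenspace δ (k : ℂ) = dg k := by
  have hle : ∀ l : ℕ, dg l ≤ End.eigenspace δ (l : ℂ) := fun l x hx =>
    End.mem_eigenspace_iff.2 (h.δdg l x hx)
  have hind : iSupIndep (fun l : ℕ => End.eigenspace δ (l : ℂ)) :=
    (End.eigenspaces_iSupIndep δ).comp Nat.cast_injective
  apply le_antisymm _ (hle k)
  have htop : dg k ⊔ ⨆ (l) (_ : l ≠ k), dg l = ⊤ := by
    rw [← h.internal.submodule_iSup_eq_top]
    apply le_antisymm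
    · exact sup_le (le_iSup dg k) (iSup₂_le fun l _ => le_iSup dg l)
    · refine iSup_le fun l => ?_
      by_cases hl : l = k
      · subst hl; exact le_sup_left
      · exact le_sup_of_le_right (le_iSup₂_of_le l hl le_rfl)
  intro x hx
  have hx' : x ∈ dg k ⊔ ⨆ (l) (_ : l ≠ k), dg l := by rw [htop]; trivial
  obtain ⟨a, ha, b, hb, hab⟩ := Submodule.mem_sup.1 hx'
  have hb1 : b ∈ End.eigenspace δ (k : ℂ) := by
    have : b = x - a := by rw [← hab]; abel
    rw [this]; exact Submodule.sub_mem _ hx (hle k ha)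
  have hb2 : b ∈ ⨆ (l) (_ : l ≠ k), End.eigenspace δ (l : ℂ) :=
    (iSup₂_mono fun l _ => hle l) hb
  have hb0 : b = 0 := Submodule.disjoint_def.1 (hind k) b hb1 hb2
  rw [← hab, hb0, add_zero]
  exact ha

theorem EvMod.mem_of_eigen (h : EvMod n dg δ 𝔟) {k : ℕ} {x : H} (hx : δ x = (k : ℂ) • x) :
    x ∈ dg k := by
  rw [← h.eigenspace k]; exact End.mem_eigenspace_iff.2 hx

theorem EvMod.δmul (h : EvMod n dg δ 𝔟) (x y : H) : δ (x * y) = δ x * y + x * δ y := by
  refine h.ind (p := fun x => δ (x * y) = δ x * y + x * δ y) ?_ ?_ x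
  · intro k x hx
    refine h.ind (p := fun y => δ (x * y) = δ x * y + x * δ y) ?_ ?_ y
    · intro l y hy
      rw [h.δdg _ _ (h.mul k l x hx y hy), h.δdg _ _ hx, h.δdg _ _ hy, smul_mul_assoc,
        mul_smul_comm, ← add_smul]
      push_cast; rfl
    · intro a b ha hb
      rw [mul_add, map_add, ha, hb, map_add, mul_add, mul_add]; abel
  · intro a b ha hb
    rw [add_mul, map_add, ha, hb, map_add, add_mul, add_mul]; abel

theorem EvMod.one_part (h : EvMod n dg δ 𝔟) {X : End ℂ H} (hX : X ∈ 𝔟)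
    (hd : δ * X - X * δ = X) (y : H) : X y = X 1 * y := by
  obtain ⟨x, hx, hxX⟩ := h.tangent X hX
  have hd' : ∀ z, δ (X z) = X (δ z) + X z := by
    intro z
    have h1 := congrArg (fun Z : End ℂ H => Z z) hd
    have h2 : δ (X z) - X (δ z) = X z := h1
    rw [← sub_eq_iff_eq_add', h2]
  have key : ∀ k : ℕ, ∀ z ∈ dg k, X z = x * z := by
    intro k z hz
    have h1 : X z ∈ dg (k + 1) := by
      apply h.mem_of_eigen
      rw [hd', h.δdg k z hz, map_smul]
      push_cast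
      rw [add_smul, one_smul]
    have h2 : x * z ∈ dg (k + 1) := by
      rw [add_comm]; exact h.mul 1 k x hx z hz
    have h3 : X z - x * z ∈ dg (k + 1) := Submodule.sub_mem _ h1 h2
    have h4 : X z - x * z ∈ ⨆ (l) (_ : l ≠ k + 1), dg l := by
      have h6 : (⨆ (l : ℕ) (_ : l ≤ k), dg l) ≤ ⨆ (l) (_ : l ≠ k + 1), dg l :=
        iSup₂_le fun l hl => le_iSup₂_of_le l (by omega) le_rfl
      exact h6 (hxX k z hz)
    have h5 := Submodule.disjoint_def.1 (h.internal.submodule_iSupIndep (k + 1)) _ h3 h4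
    exact sub_eq_zero.1 h5
  have h1 : X 1 = x := by rw [key 0 1 h.one, mul_one]
  rw [h1]
  exact h.ind (p := fun y => X y = x * y) key
    (fun a b ha hb => by rw [map_add, ha, hb, mul_add]) y

/-- the subring generated by `H²` -/
abbrev Rg (dg : ℕ → Submodule ℂ H) : Submodule ℂ H :=
  Subalgebra.toSubmodule (Algebra.adjoin ℂ (dg 1 : Set H))

theorem EvMod.δR (h : EvMod n dg δ 𝔟) : ∀ r ∈ Rg dg, δ r ∈ Rg dg := by
  intro r hr
  have hr' : r ∈ Algebra.adjoin ℂ (dg 1 : Set H) := hr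
  change δ r ∈ Algebra.adjoin ℂ (dg 1 : Set H)
  induction hr' using Algebra.adjoin_induction with
  | mem x hx =>
    rw [h.δdg 1 x hx]
    exact Subalgebra.smul_mem _ (Algebra.subset_adjoin hx) _
  | algebraMap z =>
    rw [Algebra.algebraMap_eq_smul_one, map_smul, h.δdg 0 1 h.one]
    simp
  | add a b ha hb iha ihb => rw [map_add]; exact add_mem (iha ha) (ihb hb)
  | mul a b ha hb iha ihb =>
    rw [h.δmul]
    exact add_mem (MulMemClass.mul_mem (iha ha) hb) (MulMemClass.mul_mem ha (ihb hb))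

/-- the multiplication operator -/
noncomputable abbrev mw (w : H) : End ℂ H := LinearMap.mulLeft ℂ w

/-- the defect `ζ = [w, f] - 2 δ + n` -/
noncomputable def zt (n : ℕ) (δ : End ℂ H) (w : H) (f : End ℂ H) : End ℂ H :=
  mw w * f - f * mw w - (2 : ℂ) • δ + (n : ℂ) • (1 : End ℂ H)

/-- the algebra of the endomorphisms that commute with `H²` and `δ` -/
def CC (dg : ℕ → Submodule ℂ H) (δ : End ℂ H) : Subalgebra ℂ (End ℂ H) :=
  Subalgebra.centralizer ℂ ((fun v => mw v) '' (dg 1 : Set H) ∪ {δ})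

theorem mem_CC {Z : End ℂ H} : Z ∈ CC dg δ ↔
    (∀ v ∈ dg 1, mw v * Z = Z * mw v) ∧ δ * Z = Z * δ := by
  rw [CC, Subalgebra.mem_centralizer_iff]
  constructor
  · intro h
    exact ⟨fun v hv => h _ (Or.inl ⟨v, hv, rfl⟩), h _ (Or.inr rfl)⟩
  · rintro ⟨h1, h2⟩ g (⟨v, hv, rfl⟩ | hg)
    · exact h1 v hv
    · rw [hg]; exact h2

theorem EvMod.δmw (h : EvMod n dg δ 𝔟) {v : H} (hv : v ∈ dg 1) :
    δ * mw v = mw v * δ + mw v := by
  ext x
  change δ (v * x) = v * δ x + v * x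
  rw [h.δmul, h.δdg 1 v hv, Nat.cast_one, one_smul]
  abel

theorem EvMod.zt_mem (h : EvMod n dg δ 𝔟) {w : H} (hw : w ∈ dg 1) {f : End ℂ H} (hf : f ∈ 𝔟)
    (hd : δ * f - f * δ = -f)
    (hR : ∀ r ∈ Rg dg, w * f r - f (w * r) = (2 : ℂ) • δ r - (n : ℂ) • r) :
    zt n δ w f ∈ CC dg δ ∧ ∀ r ∈ Rg dg, zt n δ w f r = 0 := by
  have hzR : ∀ r ∈ Rg dg, zt n δ w f r = 0 := by
    intro r hr
    change w * f r - f (w * r) - (2 : ℂ) • δ r + (n : ℂ) • r = 0
    rw [hR r hr]; abel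
  have hδf : δ * f = f * δ - f := by rw [sub_eq_iff_eq_add] at hd; rw [hd]; abel
  have hδw := h.δmw hw
  have hzδ : δ * zt n δ w f = zt n δ w f * δ := by
    have e1 : δ * (mw w * f) = mw w * f * δ := by
      rw [← mul_assoc, hδw, add_mul, mul_assoc, hδf, mul_sub, mul_assoc]; abel
    have e2 : δ * (f * mw w) = f * mw w * δ := by
      rw [← mul_assoc, hδf, sub_mul, mul_assoc, hδw, mul_add, mul_assoc]; abel
    rw [zt, mul_add, mul_sub, mul_sub, e1, e2, add_mul, sub_mul, sub_mul, smul_mul_assoc,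
      mul_smul_comm, smul_mul_assoc, mul_smul_comm, mul_one, one_mul]
  refine ⟨mem_CC.2 ⟨fun v hv => ?_, hzδ⟩, hzR⟩
  -- the commutator with `v`
  have hδv := h.δmw hv
  let X : End ℂ H := mw v * zt n δ w f - zt n δ w f * mw v
  have hXd : δ * X - X * δ = X := by
    change δ * (mw v * zt n δ w f - zt n δ w f * mw v) -
      (mw v * zt n δ w f - zt n δ w f * mw v) * δ = mw v * zt n δ w f - zt n δ w f * mw v
    have e1 : δ * (mw v * zt n δ w f) = mw v * zt n δ w f * δ + mw v * zt n δ w f := by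
      rw [← mul_assoc, hδv, add_mul, mul_assoc, hzδ, mul_assoc]
    have e2 : δ * (zt n δ w f * mw v) = zt n δ w f * mw v * δ + zt n δ w f * mw v := by
      rw [← mul_assoc, hzδ, mul_assoc, hδv, mul_add, mul_assoc]
    rw [mul_sub, e1, e2, sub_mul]; abel
  have hXm : X ∈ 𝔟 := by
    have e0 : X = ⁅mw v, ⁅mw w, f⁆⁆ - (2 : ℂ) • ⁅mw v, δ⁆ := by
      rw [LieRing.of_associative_ring_bracket, LieRing.of_associative_ring_bracket,
        LieRing.of_associative_ring_bracket]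
      change mw v * zt n δ w f - zt n δ w f * mw v = _
      rw [zt, mul_add, mul_sub, add_mul, sub_mul, mul_smul_comm, smul_mul_assoc, mul_smul_comm,
        smul_mul_assoc, mul_one, one_mul, smul_sub]
      abel
    rw [e0]
    exact sub_mem (𝔟.lie_mem (h.mul_mem v hv) (𝔟.lie_mem (h.mul_mem w hw) hf))
      (𝔟.toSubmodule.smul_mem _ (𝔟.lie_mem (h.mul_mem v hv) h.δ_mem))
  have hX1 : X 1 = 0 := by
    change v * zt n δ w f 1 - zt n δ w f (v * 1) = 0
    have h1 : (1 : H) ∈ Rg dg := one_mem (Algebra.adjoin ℂ (dg 1 : Set H))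
    have h2 : v * 1 ∈ Rg dg := by
      rw [mul_one]; exact Algebra.subset_adjoin hv
    rw [hzR _ h1, hzR _ h2, mul_zero, sub_zero]
  have hX0 : X = 0 := by
    ext y
    rw [h.one_part hXm hXd y, hX1, zero_mul]; rfl
  exact sub_eq_zero.1 hX0

theorem EvMod.zt_trace {w : H} (hw : w ∈ dg 1) (f : End ℂ H)
    {Z : End ℂ H} (hZ : Z ∈ CC dg δ) :
    LinearMap.trace ℂ H (Z * zt n δ w f) =
      LinearMap.trace ℂ H (Z * ((n : ℂ) • (1 : End ℂ H) - (2 : ℂ) • δ)) := by
  have h1 : Z * zt n δ w f = (Z * mw w * f - Z * f * mw w) +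
      Z * ((n : ℂ) • (1 : End ℂ H) - (2 : ℂ) • δ) := by
    rw [zt]; noncomm_ring
  have h2 : LinearMap.trace ℂ H (Z * mw w * f) = LinearMap.trace ℂ H (Z * f * mw w) := by
    rw [← (mem_CC.1 hZ).1 w hw, mul_assoc, LinearMap.trace_mul_comm]
  rw [h1, map_add, map_sub, h2, sub_self, zero_add]

end Pool.Agent.K6.H85.EV
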