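import Pool.Agent.K6.H85.EV.Alg1

/-!
# Hard Lefschetz on the generalised eigenspaces of `ζ`
-/

set_option autoImplicit false
set_option linter.unusedSectionVars false

namespace Pool.Agent.K6.H85.EV

open Module Pool.Agent.K6.H85.GW

attribute [local instance 100] LieRing.ofAssociativeRing

variable {H : Type} [CommRing H] [Algebra ℂ H] [FiniteDimensional ℂ H] {n : ℕ}
  {dg : ℕ → Submodule ℂ H} {δ : End ℂ H} {𝔟 : LieSubalgebra ℂ (End ℂ H)}

/-- the projection onto a generalised eigenspace -/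
theorem exists_proj (ζ : End ℂ H) (c : ℂ) : ∃ P : End ℂ H,
    (∀ x, P x ∈ End.maxGenEigenspace ζ c) ∧ (∀ x ∈ End.maxGenEigenspace ζ c, P x = x) ∧
    (∀ Z : End ℂ H, Z * ζ = ζ * Z → P * Z = Z * P) ∧
    IsNilpotent (P * (ζ - c • (1 : End ℂ H)) * P) ∧
    ∀ c', c' ≠ c → ∀ x ∈ End.maxGenEigenspace ζ c', P x = 0 := by
  let L : ℂ → Submodule ℂ H := fun c => End.maxGenEigenspace ζ c
  let L' : Submodule ℂ H := ⨆ (c') (_ : c' ≠ c), L c'
  have hind := End.independent_maxGenEigenspace ζ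
  have htop := End.iSup_maxGenEigenspace_eq_top ζ
  have hcompl : IsCompl (L c) L' := by
    refine ⟨hind c, ?_⟩
    rw [codisjoint_iff, ← htop]
    apply le_antisymm
    · exact sup_le (le_iSup L c) (iSup₂_le fun l _ => le_iSup L l)
    · refine iSup_le fun l => ?_
      by_cases hl : l = c
      · subst hl; exact le_sup_left
      · exact le_sup_of_le_right (le_iSup₂_of_le l hl le_rfl)
  let P : End ℂ H := (L c).subtype ∘ₗ Submodule.projectionOnto (L c) L' hcompl
  have hP1 : ∀ x, P x ∈ L c := fun x => (Submodule.projectionOnto (L c) L' hcompl x).2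
  have hP2 : ∀ x ∈ L c, P x = x := by
    intro x hx
    have := Submodule.projectionOnto_apply_left hcompl ⟨x, hx⟩
    exact congrArg Subtype.val this
  have hP3 : ∀ x ∈ L', P x = 0 := by
    intro x hx
    have := Submodule.projectionOnto_apply_right hcompl ⟨x, hx⟩
    exact congrArg Subtype.val this
  have hPZ : ∀ Z : End ℂ H, Z * ζ = ζ * Z → P * Z = Z * P := by
    intro Z hZ
    have hm : ∀ c', ∀ x ∈ L c', Z x ∈ L c' := fun c' =>
      End.mapsTo_maxGenEigenspace_of_comm (f := ζ) (g := Z) hZ.symm c'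
    have hm' : ∀ x ∈ L', Z x ∈ L' := by
      have : L' ≤ L'.comap Z := by
        refine iSup₂_le fun l hl => ?_
        intro x hx
        exact (le_iSup₂_of_le (f := fun c' (_ : c' ≠ c) => L c') l hl le_rfl) (hm l x hx)
      exact this
    ext x
    have hx : x ∈ L c ⊔ L' := by rw [hcompl.sup_eq_top]; trivial
    obtain ⟨a, ha, b, hb, rfl⟩ := Submodule.mem_sup.1 hx
    change P (Z (a + b)) = Z (P (a + b))
    rw [map_add, map_add, map_add, hP2 a ha, hP3 b hb, hP2 _ (hm c a ha), hP3 _ (hm' b hb),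
      add_zero, add_zero]
  refine ⟨P, hP1, hP2, hPZ, ?_, fun c' hc' x hx => hP3 x
    ((le_iSup₂_of_le (f := fun c' (_ : c' ≠ c) => L c') c' hc' le_rfl) hx)⟩
  let A : End ℂ H := ζ - c • (1 : End ℂ H)
  have hAP : P * A = A * P := by
    apply hPZ
    change (ζ - c • (1 : End ℂ H)) * ζ = ζ * (ζ - c • (1 : End ℂ H))
    rw [sub_mul, mul_sub, smul_mul_assoc, mul_smul_comm, one_mul, mul_one]
  have hPP : P * P = P := by
    ext x; exact hP2 _ (hP1 x)
  have h1 : P * A * P = A * P := by rw [hAP, mul_assoc, hPP]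
  change IsNilpotent (P * A * P)
  rw [h1]
  refine ⟨finrank ℂ H + 1, ?_⟩
  have h2 : (A * P) ^ (finrank ℂ H + 1) = A ^ (finrank ℂ H + 1) * P ^ (finrank ℂ H + 1) :=
    Commute.mul_pow (show Commute A P from hAP.symm) _
  have h3 : P ^ (finrank ℂ H + 1) = P := (show IsIdempotentElem P from hPP).pow_succ_eq _
  rw [h2, h3, pow_succ', mul_assoc]
  have h4 : A ^ finrank ℂ H * P = 0 := by
    ext x
    have h5 := hP1 x
    change P x ∈ End.maxGenEigenspace ζ c at h5
    rw [End.maxGenEigenspace_eq_genEigenspace_finrank, End.mem_genEigenspace_nat,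
      LinearMap.mem_ker] at h5
    exact h5
  rw [h4, mul_zero]

/-- hard Lefschetz on the generalised eigenspaces of `ζ₀` -/
theorem EvMod.block (h1 : S_LEF.{0}) (h : EvMod n dg δ 𝔟) {ζ₀ : End ℂ H} (hζ₀ : ζ₀ ∈ CC dg δ)
    (hζ₀t : ∀ Z ∈ CC dg δ, LinearMap.trace ℂ H (Z * ζ₀) =
      LinearMap.trace ℂ H (Z * ((n : ℂ) • (1 : End ℂ H) - (2 : ℂ) • δ)))
    {w : H} (hw : w ∈ dg 1) {f : End ℂ H} (hf : f ∈ 𝔟) (hd : δ * f - f * δ = -f)
    (hR : ∀ r ∈ Rg dg, w * f r - f (w * r) = (2 : ℂ) • δ r - (n : ℂ) • r) (c : ℂ) :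
    (∀ k j : ℕ, 2 * (k : ℂ) + j = (n : ℂ) - c →
      Set.BijOn (fun x => w ^ j * x) (End.maxGenEigenspace ζ₀ c ⊓ dg k : Submodule ℂ H)
        (End.maxGenEigenspace ζ₀ c ⊓ dg (k + j) : Submodule ℂ H)) ∧
    (∀ k : ℕ, (∀ l : ℕ, (k : ℂ) + l ≠ (n : ℂ) - c) → End.maxGenEigenspace ζ₀ c ⊓ dg k = ⊥) := by
  obtain ⟨P, hP1, hP2, hPZ, hPn, -⟩ := exists_proj ζ₀ c
  let L : Submodule ℂ H := End.maxGenEigenspace ζ₀ c
  obtain ⟨hzC, hzR⟩ := h.zt_mem hw hf hd hR
  have hz₀ := mem_CC.1 hζ₀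
  have hz := mem_CC.1 hzC
  have hPC : P ∈ CC dg δ :=
    mem_CC.2 ⟨fun v hv => (hPZ _ (hz₀.1 v hv)).symm, (hPZ _ hz₀.2).symm⟩
  have hPc := mem_CC.1 hPC
  let B : End ℂ H := P * (zt n δ w f - c • (1 : End ℂ H)) * P
  have hBn : IsNilpotent B := by
    refine trc hζ₀ hzC (fun Z hZ => ?_) hPC c hPn
    rw [mul_sub, map_sub, EvMod.zt_trace hw f hZ, hζ₀t Z hZ, sub_self]
  have hBC : B ∈ CC dg δ := by
    have hc : c • (1 : End ℂ H) ∈ CC dg δ := (CC dg δ).smul_mem (one_mem _) c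
    exact MulMemClass.mul_mem (MulMemClass.mul_mem hPC (sub_mem hzC hc)) hPC
  have hBc := mem_CC.1 hBC
  -- stability
  have hLw : ∀ x ∈ L, mw w x ∈ L := fun x hx =>
    End.mapsTo_maxGenEigenspace_of_comm (f := ζ₀) (g := mw w) (hz₀.1 w hw).symm c hx
  have hLδ : ∀ x ∈ L, δ x ∈ L := fun x hx =>
    End.mapsTo_maxGenEigenspace_of_comm (f := ζ₀) (g := δ) hz₀.2.symm c hx
  have hLf : ∀ x ∈ L, (P * f) x ∈ L := fun x _ => hP1 _
  have hLB : ∀ x ∈ L, B x ∈ L := fun x _ => hP1 _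
  let e' : End ℂ L := (mw w).restrict hLw
  let g' : End ℂ L := (P * f).restrict hLf
  let δ' : End ℂ L := δ.restrict hLδ
  let N' : End ℂ L := B.restrict hLB
  have ev : ∀ x : L, ((e' x : L) : H) = w * x := fun _ => rfl
  have gv : ∀ x : L, ((g' x : L) : H) = P (f x) := fun _ => rfl
  have dv : ∀ x : L, ((δ' x : L) : H) = δ x := fun _ => rfl
  have Nv : ∀ x : L, ((N' x : L) : H) = B x := fun _ => rfl
  have hwδ := h.δmw hw
  have r1 : δ' * e' - e' * δ' = e' := by
    ext x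
    change δ (w * (x : H)) - w * δ x = w * x
    have := congrArg (fun Z : End ℂ H => Z (x : H)) hwδ
    have h2 : δ (w * (x : H)) = w * δ x + w * x := this
    rw [h2]; abel
  have r2 : e' * g' - g' * e' = (2 : ℂ) • δ' - ((n : ℂ) - c) • (1 : End ℂ L) + N' := by
    ext x
    change w * P (f x) - P (f (w * (x : H))) = (2 : ℂ) • δ x - ((n : ℂ) - c) • (x : H) + B x
    have e1 : w * P (f x) = P (w * f x) := by
      have := congrArg (fun Z : End ℂ H => Z (f (x : H))) (hPc.1 w hw)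
      exact this
    have e2 : zt n δ w f (x : H) = w * f x - f (w * x) - (2 : ℂ) • δ x + (n : ℂ) • (x : H) := rfl
    have e3 : B x = P (zt n δ w f (x : H)) - c • (x : H) := by
      change P ((zt n δ w f - c • (1 : End ℂ H)) (P x)) = _
      rw [hP2 x x.2]
      change P (zt n δ w f (x : H) - c • (x : H)) = _
      rw [map_sub, map_smul, hP2 x x.2]
    have e4 : P (δ (x : H)) = δ x := hP2 _ (hLδ x x.2)
    rw [e3, e2, map_add, map_sub, map_sub, map_smul, map_smul, e4, hP2 x x.2, e1, sub_smul]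
    abel
  have r3 : N' * e' = e' * N' := by
    ext x
    have := congrArg (fun Z : End ℂ H => Z (x : H)) (hBc.1 w hw)
    exact this.symm
  have r4 : N' * δ' = δ' * N' := by
    ext x
    have := congrArg (fun Z : End ℂ H => Z (x : H)) hBc.2
    exact this.symm
  have hepow : ∀ (j : ℕ) (x : L), (((e' ^ j) x : L) : H) = w ^ j * x := by
    intro j
    induction j with
    | zero => intro x; rw [pow_zero, pow_zero, one_mul]; rfl
    | succ j ih =>
      intro x
      rw [pow_succ, pow_succ]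
      change (((e' ^ j) (e' x) : L) : H) = _
      rw [ih, ev, mul_assoc]
  have hwpow : ∀ j : ℕ, w ^ j ∈ dg j := by
    intro j
    induction j with
    | zero => rw [pow_zero]; exact h.one
    | succ j ih => rw [pow_succ]; exact h.mul _ _ _ ih _ hw
  have r5 : IsNilpotent e' := by
    refine ⟨n + 1, ?_⟩
    ext x
    rw [hepow, h.top (n + 1) (Nat.lt_succ_self n) _ (hwpow _), zero_mul]; rfl
  have r6 : IsNilpotent N' := by
    obtain ⟨K, hK⟩ := hBn
    refine ⟨K, ?_⟩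
    have : ∀ (j : ℕ) (x : L), (((N' ^ j) x : L) : H) = (B ^ j) x := by
      intro j
      induction j with
      | zero => intro x; rw [pow_zero, pow_zero]; rfl
      | succ j ih =>
        intro x
        rw [pow_succ, pow_succ]
        change (((N' ^ j) (N' x) : L) : H) = _
        rw [ih, Nv]; rfl
    ext x
    rw [this, hK]; rfl
  have hδtop : ⨆ μ : ℂ, End.genEigenspace δ μ 1 = ⊤ := by
    rw [eq_top_iff, ← h.internal.submodule_iSup_eq_top]
    refine iSup_le fun k => ?_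
    rw [← h.eigenspace k]
    exact le_iSup (fun μ : ℂ => End.genEigenspace δ μ 1) (k : ℂ)
  have r7 : (⨆ k : ℕ, End.eigenspace δ' (k : ℂ)) = ⊤ := by
    have h3 := Module.End.genEigenspace_restrict_eq_top (f := δ) (k := 1) hLδ hδtop
    rw [← h3]
    apply le_antisymm
    · exact iSup_le fun k => le_iSup (fun μ : ℂ => End.genEigenspace δ' μ 1) (k : ℂ)
    · refine iSup_le fun μ => ?_
      by_cases hμ : ∃ k : ℕ, (k : ℂ) = μ
      · obtain ⟨k, rfl⟩ := hμ
        exact le_iSup (fun k : ℕ => End.eigenspace δ' (k : ℂ)) k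
      · intro x hx
        have hx' : δ (x : H) = μ • (x : H) := by
          have h4 := End.mem_eigenspace_iff.1 (show x ∈ End.eigenspace δ' μ from hx)
          exact congrArg Subtype.val h4
        -- such an eigenvector is zero
        have h5 : (x : H) ∈ End.eigenspace δ μ := End.mem_eigenspace_iff.2 hx'
        have h6 : (x : H) ∈ ⨆ (ν : ℂ) (_ : ν ≠ μ), End.eigenspace δ ν := by
          have h7 : (⊤ : Submodule ℂ H) ≤ ⨆ (ν : ℂ) (_ : ν ≠ μ), End.eigenspace δ ν := by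
            rw [← h.internal.submodule_iSup_eq_top]
            refine iSup_le fun k => ?_
            rw [← h.eigenspace k]
            exact le_iSup₂_of_le (f := fun (ν : ℂ) (_ : ν ≠ μ) => End.eigenspace δ ν) (k : ℂ)
              (fun hk => hμ ⟨k, hk⟩) le_rfl
          exact h7 trivial
        have h8 := Submodule.disjoint_def.1 (End.eigenspaces_iSupIndep δ μ) _ h5 h6
        have h9 : x = 0 := Subtype.ext h8
        rw [h9]; exact zero_mem _
  obtain ⟨b1, b2⟩ := h1 L e' g' δ' N' ((n : ℂ) - c) r1 r2 r3 r4 r5 r6 r7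
  have hmem : ∀ (k : ℕ) (x : L), x ∈ End.eigenspace δ' (k : ℂ) ↔ (x : H) ∈ dg k := by
    intro k x
    rw [End.mem_eigenspace_iff]
    constructor
    · intro hx; exact h.mem_of_eigen (congrArg Subtype.val hx)
    · intro hx; exact Subtype.ext (h.δdg k x hx)
  refine ⟨fun k j hkj => ?_, fun k hk => ?_⟩
  · obtain ⟨c1, c2, c3⟩ := b1 k j hkj
    refine ⟨?_, ?_, ?_⟩
    · rintro x ⟨hxL, hxd⟩
      have := c1 (show (⟨x, hxL⟩ : L) ∈ End.eigenspace δ' (k : ℂ) from (hmem k ⟨x, hxL⟩).2 hxd)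
      refine ⟨?_, ?_⟩
      · have h2 := ((e' ^ j) ⟨x, hxL⟩).2
        rw [hepow] at h2; exact h2
      · have h2 := (hmem (k + j) _).1 this
        rw [hepow] at h2; exact h2
    · rintro x ⟨hxL, hxd⟩ y ⟨hyL, hyd⟩ hxy
      have := c2 (show (⟨x, hxL⟩ : L) ∈ End.eigenspace δ' (k : ℂ) from (hmem k ⟨x, hxL⟩).2 hxd)
        (show (⟨y, hyL⟩ : L) ∈ End.eigenspace δ' (k : ℂ) from (hmem k ⟨y, hyL⟩).2 hyd)
        (Subtype.ext (by
          change (((e' ^ j) ⟨x, hxL⟩ : L) : H) = (((e' ^ j) ⟨y, hyL⟩ : L) : H)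
          rw [hepow, hepow]; exact hxy))
      exact congrArg Subtype.val this
    · rintro z ⟨hzL, hzd⟩
      obtain ⟨x, hx, hxz⟩ := c3 (show (⟨z, hzL⟩ : L) ∈ End.eigenspace δ' ((k + j : ℕ) : ℂ) from
        (hmem (k + j) ⟨z, hzL⟩).2 hzd)
      refine ⟨x, ⟨x.2, (hmem k x).1 hx⟩, ?_⟩
      have h2 := congrArg Subtype.val hxz
      change (((e' ^ j) x : L) : H) = z at h2
      rw [hepow] at h2; exact h2
  · have h2 := b2 k hk
    rw [eq_bot_iff]
    rintro x ⟨hxL, hxd⟩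
    have h3 : (⟨x, hxL⟩ : L) ∈ End.eigenspace δ' (k : ℂ) := (hmem k ⟨x, hxL⟩).2 hxd
    rw [h2, Submodule.mem_bot] at h3
    rw [Submodule.mem_bot]
    exact congrArg Subtype.val h3

end Pool.Agent.K6.H85.EV
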