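import Pool.Agent.K6.H85.EV.Stm

/-!
# Piece DEG (helper84): the part of degree `-1` of an element of a graded Lie algebra
-/

set_option autoImplicit false

namespace Pool.Agent.K6.H85.EV

open H956GW Module Pool.Agent.K6.H85.GW Polynomial

attribute [local instance 100] LieRing.ofAssociativeRing

namespace DEG

variable {V : Type*} [AddCommGroup V] [Module ℂ V]

theorem aeval_eig (T : End ℂ V) (μ : ℂ) (y : V) (h : T y = μ • y) (q : ℂ[X]) :
    (aeval T q) y = q.eval μ • y := by
  induction q using Polynomial.induction_on' with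
  | add p q hp hq => rw [map_add, LinearMap.add_apply, hp, hq, eval_add, add_smul]
  | monomial k a =>
    have h1 : ∀ k : ℕ, (T ^ k) y = μ ^ k • y := by
      intro k
      induction k with
      | zero => simp
      | succ k ih => rw [pow_succ', Module.End.mul_apply, ih, map_smul, h, smul_smul, ← pow_succ]
    rw [aeval_monomial, eval_monomial, Module.End.mul_apply, h1, Module.algebraMap_end_apply,
      smul_smul]

theorem aeval_mem (T : End ℂ V) (S : Submodule ℂ V) (h : ∀ x ∈ S, T x ∈ S) (q : ℂ[X]) (y : V)
    (hy : y ∈ S) : (aeval T q) y ∈ S := by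
  induction q using Polynomial.induction_on' with
  | add p q hp hq =>
    rw [map_add, LinearMap.add_apply]
    exact S.add_mem hp hq
  | monomial k a =>
    have h1 : ∀ k : ℕ, (T ^ k) y ∈ S := by
      intro k
      induction k with
      | zero => simpa using hy
      | succ k ih =>
        rw [pow_succ', Module.End.mul_apply]
        exact h _ ih
    rw [aeval_monomial, Module.End.mul_apply, Module.algebraMap_end_apply]
    exact S.smul_mem _ (h1 k)

end DEG

theorem t_DEG : S_DEG := by
  intro H _ _ _ n dg δ 𝔟 hE R hR f hf hfR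
  let D : End ℂ (End ℂ H) := LinearMap.mulLeft ℂ δ - LinearMap.mulRight ℂ δ
  have hD : ∀ X, D X = δ * X - X * δ := fun X => rfl
  have htop : (⨆ k, dg k) = ⊤ := hE.internal.submodule_iSup_eq_top
  let J : Finset ℤ := Finset.Icc (-((n : ℤ) + 1)) n
  have hJ : (-1 : ℤ) ∈ J := by
    rw [Finset.mem_Icc]
    omega
  let P : ℂ[X] := ∏ j ∈ J, (X - C (j : ℂ))
  let c : ℂ := ∏ j ∈ J.erase (-1), (-1 - (j : ℂ))
  let q : ℂ[X] := C c⁻¹ * ∏ j ∈ J.erase (-1), (X - C (j : ℂ))
  have hc : c ≠ 0 := by
    refine Finset.prod_ne_zero_iff.mpr fun j hj => ?_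
    have h1 : j ≠ -1 := (Finset.mem_erase.mp hj).1
    intro h2
    apply h1
    have h3 : (j : ℂ) = ((-1 : ℤ) : ℂ) := by
      push_cast
      linear_combination -h2
    exact_mod_cast h3
  have hq : q.eval (-1) = 1 := by
    simp only [q, eval_mul, eval_C, eval_prod, eval_sub, eval_X]
    exact inv_mul_cancel₀ hc
  have hqP : (X + 1) * q = C c⁻¹ * P := by
    have h1 : P = (X - C ((-1 : ℤ) : ℂ)) * ∏ j ∈ J.erase (-1), (X - C (j : ℂ)) :=
      (Finset.mul_prod_erase J (fun j : ℤ => (X - C (j : ℂ) : ℂ[X])) hJ).symm
    rw [h1]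
    simp only [q]
    push_cast
    rw [map_neg, map_one]
    ring
  -- all polynomials in `D`
  have hmem : ∀ p : ℂ[X], (aeval D p) f ∈ 𝔟 := by
    intro p
    refine DEG.aeval_mem D 𝔟.toSubmodule ?_ p f hf
    intro X hX
    have h1 : ⁅δ, X⁆ ∈ 𝔟 := 𝔟.lie_mem hE.δ_mem hX
    rw [hD]
    rw [LieRing.of_associative_ring_bracket] at h1
    exact h1
  have hon : ∀ p : ℂ[X], ∀ r ∈ R, ((aeval D p) f) r = p.eval (-1) • f r := by
    intro p
    induction p using Polynomial.induction_on' with
    | add p q hp hq =>
      intro r hr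
      rw [map_add, LinearMap.add_apply, LinearMap.add_apply, hp r hr, hq r hr, eval_add, add_smul]
    | monomial k a =>
      have h1 : ∀ k : ℕ, ∀ r ∈ R, ((D ^ k) f) r = (-1 : ℂ) ^ k • f r := by
        intro k
        induction k with
        | zero => intro r _; simp
        | succ k ih =>
          intro r hr
          rw [pow_succ', Module.End.mul_apply, hD, LinearMap.sub_apply, Module.End.mul_apply,
            Module.End.mul_apply, ih r hr, ih _ (hR r hr), map_smul, ← smul_sub, hfR r hr,
            pow_succ', ← smul_smul, smul_neg]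
          simp
      intro r hr
      rw [aeval_monomial, Module.End.mul_apply, Module.algebraMap_end_apply, LinearMap.smul_apply,
        h1 k r hr, eval_monomial, smul_smul]
  have hcomp : ∀ (k : ℕ) (x : H), x ∈ dg k → ∀ (p : ℂ[X]) (Y : End ℂ H),
      ((aeval D p) Y) x = (aeval (δ - (k : ℂ) • (1 : End ℂ H)) p) (Y x) := by
    intro k x hx p Y
    induction p using Polynomial.induction_on' with
    | add p q hp hq =>
      rw [map_add, map_add, LinearMap.add_apply, LinearMap.add_apply, LinearMap.add_apply, hp, hq]
    | monomial m a =>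
      have h1 : ∀ m : ℕ, ((D ^ m) Y) x = ((δ - (k : ℂ) • (1 : End ℂ H)) ^ m) (Y x) := by
        intro m
        induction m with
        | zero => simp
        | succ m ih =>
          rw [pow_succ', Module.End.mul_apply, hD, LinearMap.sub_apply, Module.End.mul_apply,
            Module.End.mul_apply, hE.δdg k x hx, map_smul, ih, pow_succ', Module.End.mul_apply,
            LinearMap.sub_apply, LinearMap.smul_apply, Module.End.one_apply]
      rw [aeval_monomial, aeval_monomial, Module.End.mul_apply, Module.End.mul_apply,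
        Module.algebraMap_end_apply, Module.algebraMap_end_apply, LinearMap.smul_apply, h1]
  have hP : ∀ k : ℕ, k ≤ n → aeval (δ - (k : ℂ) • (1 : End ℂ H)) P = 0 := by
    intro k hk
    have h1 : (⊤ : Submodule ℂ H) ≤ LinearMap.ker (aeval (δ - (k : ℂ) • (1 : End ℂ H)) P) := by
      rw [← htop]
      refine iSup_le fun l y hy => ?_
      rw [LinearMap.mem_ker]
      rcases Nat.lt_or_ge n l with hl | hl
      · rw [hE.top l hl y hy, map_zero]
      · rw [DEG.aeval_eig _ ((l : ℂ) - (k : ℂ)) y]
        · have h2 : P.eval ((l : ℂ) - (k : ℂ)) = 0 := by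
            simp only [P, eval_prod, eval_sub, eval_X, eval_C]
            refine Finset.prod_eq_zero (i := (l : ℤ) - k) ?_ ?_
            · rw [Finset.mem_Icc]
              omega
            · push_cast
              ring
          rw [h2, zero_smul]
        · rw [LinearMap.sub_apply, LinearMap.smul_apply, Module.End.one_apply, hE.δdg l y hy,
            sub_smul]
    ext y
    exact LinearMap.mem_ker.mp (h1 (Submodule.mem_top : y ∈ ⊤))
  refine ⟨(aeval D q) f, hmem q, ?_, ?_⟩
  · have h1 : (aeval D (C c⁻¹ * P)) f = 0 := by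
      have h2 : (⊤ : Submodule ℂ H) ≤ LinearMap.ker ((aeval D (C c⁻¹ * P)) f) := by
        rw [← htop]
        refine iSup_le fun k x hx => ?_
        rw [LinearMap.mem_ker]
        rcases Nat.lt_or_ge n k with hk | hk
        · rw [hE.top k hk x hx, map_zero]
        · rw [hcomp k x hx, map_mul, hP k hk, mul_zero, LinearMap.zero_apply]
      ext y
      exact LinearMap.mem_ker.mp (h2 (Submodule.mem_top : y ∈ ⊤))
    rw [← hqP, map_mul, Module.End.mul_apply, map_add, aeval_X, map_one, LinearMap.add_apply,
      Module.End.one_apply, hD] at h1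
    exact eq_neg_of_add_eq_zero_left h1
  · intro r hr
    rw [hon q r hr, hq, one_smul]

end Pool.Agent.K6.H85.EV
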