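import Mathlib

/-!
# Hard Lefschetz about the centre `m / 2` (piece LEF)
-/

set_option autoImplicit false

namespace Pool.Agent.K6.H85.EV

open Module

universe u

section LEF

variable {W : Type u} [AddCommGroup W] [Module ℂ W]

theorem LEF_pow_h {e h : End ℂ W} (hh : ∀ y, h (e y) = e (h y) + (2 : ℂ) • e y) (i : ℕ) :
    ∀ y, h ((e ^ i) y) = (e ^ i) (h y) + (2 * i : ℂ) • (e ^ i) y := by
  induction i with
  | zero => intro y; simp
  | succ i ih =>
    intro y
    rw [pow_succ, Module.End.mul_apply, Module.End.mul_apply, ih, hh, map_add, map_smul]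
    push_cast
    module

theorem LEF_pow_g {e g h : End ℂ W} (hh : ∀ y, h (e y) = e (h y) + (2 : ℂ) • e y)
    (hg : ∀ y, e (g y) = g (e y) + h y) (i : ℕ) :
    ∀ y, (e ^ (i + 1)) (g y) = g ((e ^ (i + 1)) y) +
      ((i : ℂ) + 1) • ((e ^ i) (h y) + (i : ℂ) • (e ^ i) y) := by
  induction i with
  | zero => intro y; simp [hg]
  | succ i ih =>
    intro y
    have e1 : ∀ z, (e ^ (i + 1 + 1)) z = (e ^ (i + 1)) (e z) := by
      intro z; rw [pow_succ, Module.End.mul_apply]
    have e2 : ∀ z, (e ^ (i + 1)) z = (e ^ i) (e z) := by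
      intro z; rw [pow_succ, Module.End.mul_apply]
    rw [e1, hg, map_add, ih, hh, map_add, map_smul, ← e2, ← e2, ← e1]
    push_cast
    module

/-- the step (K) -/
theorem LEF_K {e g δ N : End ℂ W} {m : ℂ} (h1 : ∀ y, δ (e y) = e (δ y) + e y)
    (h2 : ∀ y, e (g y) = g (e y) + ((2 : ℂ) • δ y - m • y + N y)) (hN : N * e = e * N)
    (hNn : IsNilpotent N) {a : ℂ} {x y : W} (i : ℕ) (hδ : δ x = a • x) (hx : e x = 0)
    (hxy : x = (e ^ i) y) (hi : 2 * a - m ≠ i) : ∃ z, x = (e ^ (i + 1)) z := by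
  set h : End ℂ W := (2 : ℂ) • δ - m • (1 : End ℂ W) + N with hh0
  have hhy : ∀ y, h y = (2 : ℂ) • δ y - m • y + N y := by intro y; simp [hh0]
  have hNe : ∀ y, N (e y) = e (N y) := by
    intro y; rw [← Module.End.mul_apply, hN, Module.End.mul_apply]
  have hh : ∀ y, h (e y) = e (h y) + (2 : ℂ) • e y := by
    intro y
    rw [hhy, hhy, h1, hNe]
    simp only [map_add, map_sub, map_smul]
    module
  have hg : ∀ y, e (g y) = g (e y) + h y := by intro y; rw [h2, hhy]
  have k1 := LEF_pow_g hh hg i y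
  have k2 := LEF_pow_h hh i y
  have k3 : (e ^ (i + 1)) y = 0 := by
    rw [pow_succ', Module.End.mul_apply, ← hxy, hx]
  have hc : (2 * a - m - i) ≠ 0 := sub_ne_zero.2 hi
  have k4 : ((2 * a - m - i) • (1 : End ℂ W) + N) x = (e ^ (i + 1)) (((i : ℂ) + 1)⁻¹ • g y) := by
    have k5 : (e ^ i) (h y) = h x - (2 * i : ℂ) • x := by rw [hxy, k2]; module
    have hi1 : ((i : ℂ) + 1) ≠ 0 := Nat.cast_add_one_ne_zero i
    rw [map_smul, k1, k3, map_zero, zero_add, smul_smul, inv_mul_cancel₀ hi1, one_smul, k5, ← hxy,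
      hhy, hδ]
    simp only [LinearMap.add_apply, LinearMap.smul_apply, Module.End.one_apply]
    module
  have hu : IsUnit ((2 * a - m - i) • (1 : End ℂ W) + N) := by
    have hu1 : IsUnit ((2 * a - m - i) • (1 : End ℂ W)) := by
      have : (2 * a - m - i) • (1 : End ℂ W) = algebraMap ℂ (End ℂ W) (2 * a - m - i) := by
        rw [Algebra.algebraMap_eq_smul_one]
      rw [this]
      exact (isUnit_iff_ne_zero.2 hc).map _
    exact hNn.isUnit_add_left_of_commute hu1 (by
      refine Commute.smul_right (Commute.one_right _) _)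
  obtain ⟨v, hv⟩ := hu
  have hcomm : Commute (↑v : End ℂ W) (e ^ (i + 1)) := by
    rw [hv]
    refine Commute.add_left (Commute.smul_left (Commute.one_left _) _) ?_
    exact Commute.pow_right hN _
  have hcomm' : Commute (↑v⁻¹ : End ℂ W) (e ^ (i + 1)) := hcomm.units_inv_left
  refine ⟨(↑v⁻¹ : End ℂ W) (((i : ℂ) + 1)⁻¹ • g y), ?_⟩
  rw [← Module.End.mul_apply, ← hcomm'.eq, Module.End.mul_apply, ← k4, ← hv,
    ← Module.End.mul_apply, Units.inv_mul, Module.End.one_apply]

theorem LEF_K' {e g δ N : End ℂ W} {m : ℂ} (h1 : ∀ y, δ (e y) = e (δ y) + e y)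
    (h2 : ∀ y, e (g y) = g (e y) + ((2 : ℂ) • δ y - m • y + N y)) (hN : N * e = e * N)
    (hNn : IsNilpotent N) (hen : IsNilpotent e) {a : ℂ} {x y : W} (i : ℕ) (hδ : δ x = a • x)
    (hx : e x = 0) (hxy : x = (e ^ i) y) (hi : ∀ i' : ℕ, i ≤ i' → 2 * a - m ≠ i') : x = 0 := by
  have key : ∀ j : ℕ, ∃ z, x = (e ^ (i + j)) z := by
    intro j
    induction j with
    | zero => exact ⟨y, hxy⟩
    | succ j ih =>
      obtain ⟨z, hz⟩ := ih
      exact LEF_K h1 h2 hN hNn (i + j) hδ hx hz (hi _ (Nat.le_add_right _ _))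
  obtain ⟨r, hr⟩ := hen
  obtain ⟨z, hz⟩ := key r
  rw [hz, pow_add, hr, mul_zero, LinearMap.zero_apply]

theorem LEF_δpow {e δ : End ℂ W} (h1 : ∀ y, δ (e y) = e (δ y) + e y) (i : ℕ) {a : ℂ} :
    ∀ {y : W}, δ y = a • y → δ ((e ^ i) y) = (a + i) • (e ^ i) y := by
  induction i with
  | zero => intro y hy; simpa using hy
  | succ i ih =>
    intro y hy
    rw [pow_succ', Module.End.mul_apply, h1, ih hy, map_smul]
    push_cast
    module

/-- injectivity -/
theorem LEF_inj {e g δ N : End ℂ W} {m : ℂ} (h1 : ∀ y, δ (e y) = e (δ y) + e y)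
    (h2 : ∀ y, e (g y) = g (e y) + ((2 : ℂ) • δ y - m • y + N y)) (hN : N * e = e * N)
    (hNn : IsNilpotent N) (hen : IsNilpotent e) {b : ℂ} {j : ℕ} (hb : 2 * b + j = m) {y : W}
    (hy : δ y = b • y) : ∀ i : ℕ, i ≤ j → (e ^ i) y = 0 → y = 0 := by
  intro i
  induction i with
  | zero => intro _ h; simpa using h
  | succ i ih =>
    intro hij h
    refine ih (by omega) ?_
    refine LEF_K' h1 h2 hN hNn hen (y := y) i (LEF_δpow h1 i hy) ?_ rfl ?_
    · rw [← Module.End.mul_apply, ← pow_succ', h]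
    · intro i' hi' hc
      have : (2 * (i : ℂ) - j) = i' := by rw [← hc, ← hb]; ring
      have h3 : (2 * (i : ℤ) - j) = i' := by exact_mod_cast this
      omega

/-- surjectivity -/
theorem LEF_surj {e g δ N : End ℂ W} {m : ℂ} (h1' : ∀ y, δ (e y) = e (δ y) + e y)
    (h2 : ∀ y, e (g y) = g (e y) + ((2 : ℂ) • δ y - m • y + N y)) (hN : N * e = e * N)
    (hNn : IsNilpotent N) (hen : IsNilpotent e) (htop : (⨆ k : ℂ, End.eigenspace δ k) = ⊤)
    {b : ℂ} {j : ℕ} (hb : 2 * b - j = m) {z : W} (hz : δ z = b • z) :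
    ∃ y, δ y = (b - j) • y ∧ (e ^ j) y = z := by
  set U : Submodule ℂ W := ((End.eigenspace δ (b - j)).map (e ^ j)) ⊔
    ⨆ (k : ℂ) (_ : k ≠ b), End.eigenspace δ k with hU
  have hzU : z ∈ U := by
    by_contra hcon
    obtain ⟨φ, hφz, hφU⟩ := Submodule.exists_le_ker_of_notMem hcon
    apply hφz
    have hpow : ∀ (A : End ℂ W) (i : ℕ) (ψ : Dual ℂ W) (w : W),
        ((Dual.transpose (R := ℂ) A : End ℂ (Dual ℂ W)) ^ i) ψ w = ψ ((A ^ i) w) := by
      intro A i
      induction i with
      | zero => intro ψ w; simp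
      | succ i ih =>
        intro ψ w
        rw [pow_succ, Module.End.mul_apply, ih, pow_succ', Module.End.mul_apply]
        rfl
    have hnil : ∀ A : End ℂ W, IsNilpotent A →
        IsNilpotent (Dual.transpose (R := ℂ) A : End ℂ (Dual ℂ W)) := by
      rintro A ⟨r, hr⟩
      refine ⟨r, ?_⟩
      ext ψ w
      rw [hpow, hr]
      simp
    have hmain := LEF_inj (W := Dual ℂ W) (e := Dual.transpose (R := ℂ) e)
      (g := Dual.transpose (R := ℂ) g) (δ := -(Dual.transpose (R := ℂ) δ))
      (N := -(Dual.transpose (R := ℂ) N)) (m := -m) ?_ ?_ ?_ ?_ (hnil e hen) (b := -b) (j := j)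
      ?_ (y := φ) ?_ j le_rfl ?_
    · rw [hmain]; rfl
    · intro ψ
      ext w
      simp only [LinearMap.neg_apply, Dual.transpose_apply, LinearMap.comp_apply,
        LinearMap.add_apply, map_neg, h1', map_add]
      ring
    · intro ψ
      ext w
      simp only [LinearMap.neg_apply, Dual.transpose_apply, LinearMap.comp_apply,
        LinearMap.add_apply, LinearMap.sub_apply, LinearMap.smul_apply, h2, map_add, map_sub,
        map_smul, smul_eq_mul]
      ring
    · ext ψ w
      have := LinearMap.congr_fun hN w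
      simp only [Module.End.mul_apply] at this
      simp only [Module.End.mul_apply, LinearMap.neg_apply, Dual.transpose_apply,
        LinearMap.comp_apply, map_neg, this]
    · exact (hnil N hNn).neg
    · rw [← hb]; ring
    · -- φ ∘ δ = b φ
      have key : (Dual.transpose (R := ℂ) δ) φ - b • φ = 0 := by
        have : (⊤ : Submodule ℂ W) ≤ LinearMap.ker ((Dual.transpose (R := ℂ) δ) φ - b • φ) := by
          rw [← htop]
          refine iSup_le fun k w hw => ?_
          rw [End.mem_eigenspace_iff] at hw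
          rw [LinearMap.mem_ker, LinearMap.sub_apply, LinearMap.smul_apply,
            Dual.transpose_apply, LinearMap.comp_apply, hw, map_smul]
          by_cases hk : k = b
          · rw [hk, sub_self]
          · have : φ w = 0 := by
              have : w ∈ U := Submodule.mem_sup_right
                (Submodule.mem_iSup_of_mem k (Submodule.mem_iSup_of_mem hk
                  (End.mem_eigenspace_iff.2 hw)))
              exact LinearMap.mem_ker.1 (hφU this)
            rw [this, smul_zero, smul_zero, sub_self]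
        ext w
        exact LinearMap.mem_ker.1 (this (Submodule.mem_top : w ∈ ⊤))
      rw [LinearMap.neg_apply, sub_eq_zero.1 key, neg_smul]
    · have : (⊤ : Submodule ℂ W) ≤
          LinearMap.ker (((Dual.transpose (R := ℂ) e : End ℂ (Dual ℂ W)) ^ j) φ) := by
        rw [← htop]
        refine iSup_le fun k w hw => ?_
        rw [LinearMap.mem_ker, hpow]
        rw [End.mem_eigenspace_iff] at hw
        by_cases hk : k = b - j
        · rw [hk] at hw
          have : (e ^ j) w ∈ U := Submodule.mem_sup_left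
            (Submodule.mem_map_of_mem (End.mem_eigenspace_iff.2 hw))
          exact LinearMap.mem_ker.1 (hφU this)
        · have : (e ^ j) w ∈ U := Submodule.mem_sup_right
            (Submodule.mem_iSup_of_mem (k + j) (Submodule.mem_iSup_of_mem
              (fun h => hk (by rw [← h]; ring))
                (End.mem_eigenspace_iff.2 (LEF_δpow h1' j hw))))
          exact LinearMap.mem_ker.1 (hφU this)
      ext w
      exact LinearMap.mem_ker.1 (this (Submodule.mem_top : w ∈ ⊤))
  obtain ⟨u, hu, v, hv, huv⟩ := Submodule.mem_sup.1 hzU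
  obtain ⟨y, hy, rfl⟩ := hu
  have hy' : δ y = (b - j) • y := End.mem_eigenspace_iff.1 hy
  refine ⟨y, hy', ?_⟩
  have hvb : v ∈ End.eigenspace δ b := by
    rw [End.mem_eigenspace_iff]
    have : v = z - (e ^ j) y := by rw [← huv]; abel
    rw [this, map_sub, hz, LEF_δpow h1' j hy', sub_add_cancel, smul_sub]
  have hv0 : v = 0 := by
    have := (End.eigenspaces_iSupIndep δ) b
    exact Submodule.disjoint_def.1 this v hvb hv
  rw [← huv, hv0, add_zero]

theorem LEF_top {δ : End ℂ W} (htop : (⨆ k : ℕ, End.eigenspace δ (k : ℂ)) = ⊤) :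
    (⨆ k : ℂ, End.eigenspace δ k) = ⊤ := by
  rw [eq_top_iff, ← htop]
  exact iSup_le fun k => le_iSup (fun c : ℂ => End.eigenspace δ c) (k : ℂ)

theorem LEF_nat {δ : End ℂ W} (htop : (⨆ k : ℕ, End.eigenspace δ (k : ℂ)) = ⊤) {c : ℂ}
    {x : W} (hx : δ x = c • x) (h0 : x ≠ 0) : ∃ l : ℕ, (l : ℂ) = c := by
  by_contra hcon
  push Not at hcon
  apply h0
  have h1 := (End.eigenspaces_iSupIndep δ) c
  refine Submodule.disjoint_def.1 h1 x (End.mem_eigenspace_iff.2 hx) ?_
  have : (⊤ : Submodule ℂ W) ≤ ⨆ (k : ℂ) (_ : k ≠ c), End.eigenspace δ k := by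
    rw [← htop]
    exact iSup_le fun k => le_iSup₂_of_le (k : ℂ) (hcon k) le_rfl
  exact this Submodule.mem_top

theorem LEF_main (e g δ N : End ℂ W) (m : ℂ) (h1 : δ * e - e * δ = e)
    (h2 : e * g - g * e = (2 : ℂ) • δ - m • (1 : End ℂ W) + N) (hN : N * e = e * N)
    (hen : IsNilpotent e) (hNn : IsNilpotent N)
    (htop : (⨆ k : ℕ, End.eigenspace δ (k : ℂ)) = ⊤) :
    (∀ k j : ℕ, 2 * (k : ℂ) + j = m →
      Set.BijOn (fun x => (e ^ j) x) (End.eigenspace δ (k : ℂ))
        (End.eigenspace δ ((k + j : ℕ) : ℂ))) ∧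
    (∀ k : ℕ, (∀ l : ℕ, (k : ℂ) + l ≠ m) → End.eigenspace δ (k : ℂ) = ⊥) := by
  have h1' : ∀ y, δ (e y) = e (δ y) + e y := by
    intro y
    have := LinearMap.congr_fun h1 y
    simp only [LinearMap.sub_apply, Module.End.mul_apply] at this
    rw [sub_eq_iff_eq_add] at this
    rw [this, add_comm]
  have h2' : ∀ y, e (g y) = g (e y) + ((2 : ℂ) • δ y - m • y + N y) := by
    intro y
    have := LinearMap.congr_fun h2 y
    simp only [LinearMap.sub_apply, Module.End.mul_apply, LinearMap.add_apply,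
      LinearMap.smul_apply, Module.End.one_apply] at this
    rw [sub_eq_iff_eq_add] at this
    rw [this, add_comm]
  have htop' := LEF_top htop
  refine ⟨?_, ?_⟩
  · intro k j hkj
    refine ⟨?_, ?_, ?_⟩
    · intro x hx
      have hx' : δ x = (k : ℂ) • x := End.mem_eigenspace_iff.1 hx
      have := LEF_δpow h1' j hx'
      refine End.mem_eigenspace_iff.2 ?_
      push_cast
      exact this
    · intro x hx y hy hxy
      have hx' : δ x = (k : ℂ) • x := End.mem_eigenspace_iff.1 hx
      have hy' : δ y = (k : ℂ) • y := End.mem_eigenspace_iff.1 hy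
      have hxy' : (e ^ j) x = (e ^ j) y := hxy
      have := LEF_inj h1' h2' hN hNn hen hkj (y := x - y)
        (by rw [map_sub, hx', hy', smul_sub]) j le_rfl (by rw [map_sub, hxy', sub_self])
      exact sub_eq_zero.1 this
    · intro z hz
      have hz' : δ z = ((k + j : ℕ) : ℂ) • z := End.mem_eigenspace_iff.1 hz
      obtain ⟨y, hy, hyz⟩ := LEF_surj h1' h2' hN hNn hen htop' (b := ((k + j : ℕ) : ℂ)) (j := j)
        (by rw [← hkj]; push_cast; ring) hz'
      refine ⟨y, End.mem_eigenspace_iff.2 ?_, hyz⟩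
      rw [hy]; congr 1; push_cast; ring
  · intro k hk
    rw [Submodule.eq_bot_iff]
    intro x hx
    have hx' : δ x = (k : ℂ) • x := End.mem_eigenspace_iff.1 hx
    by_contra hx0
    -- last nonzero power
    obtain ⟨r, hr⟩ := hen
    have hex : ∃ i, (e ^ i) x = 0 := ⟨r, by rw [hr]; rfl⟩
    classical
    have hspec := Nat.find_spec hex
    set i0 := Nat.find hex with hi0
    have hi0pos : i0 ≠ 0 := by
      intro h
      rw [h] at hspec
      exact hx0 (by simpa using hspec)
    obtain ⟨i, hi⟩ := Nat.exists_eq_succ_of_ne_zero hi0pos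
    have hne : (e ^ i) x ≠ 0 := Nat.find_min hex (by omega)
    have hex2 : ∃ i' : ℕ, i ≤ i' ∧ 2 * ((k : ℂ) + i) - m = i' := by
      by_contra hcon
      push Not at hcon
      refine hne (LEF_K' h1' h2' hN hNn ⟨r, hr⟩ i (LEF_δpow h1' i hx') ?_ rfl hcon)
      rw [← Module.End.mul_apply, ← pow_succ', ← Nat.succ_eq_add_one, ← hi, hspec]
    obtain ⟨i', -, hi'⟩ := hex2
    have hm : m = 2 * (k : ℂ) + 2 * i - i' := by rw [← hi']; ring
    rcases le_or_gt i' (2 * i) with hle | hlt
    · apply hk (k + (2 * i - i'))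
      rw [hm]; push_cast [Nat.cast_sub hle]; ring
    · obtain ⟨y, hy, hyx⟩ := LEF_surj h1' h2' hN hNn ⟨r, hr⟩ htop' (b := (k : ℂ))
        (j := i' - 2 * i) (by rw [hm]; push_cast [Nat.cast_sub hlt.le]; ring) hx'
      have hy0 : y ≠ 0 := by
        rintro rfl
        exact hx0 (by rw [← hyx, map_zero])
      obtain ⟨l, hl⟩ := LEF_nat htop hy hy0
      apply hk l
      rw [hl, hm]; push_cast [Nat.cast_sub hlt.le]; ring

end LEF

end Pool.Agent.K6.H85.EV
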