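import Pool.Agent.K6.H85.EV.Stm
import Pool.Agent.K6.H85.EV.LEFcore

/-!
# Piece LEF: hard Lefschetz about the centre `m / 2`
-/

set_option autoImplicit false

namespace Pool.Agent.K6.H85.EV

open Module

universe u

theorem t_LEF : S_LEF.{u} := by
  intro W _ _ _ e g δ N m h1 h2 hN _ hen hNn htop
  exact LEF_main e g δ N m h1 h2 hN hen hNn htop

end Pool.Agent.K6.H85.EV
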