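import Mathlib

/-!
# Statement: the ranks of the Lefschetz operators
-/

set_option autoImplicit false

namespace Pool.Agent.K6.H85.EV

open Module

/-- `w` satisfies hard Lefschetz on each `L m` about the centre `m / 2`. -/
def LefOn {H : Type} [CommRing H] [Algebra ℂ H] (dg L : ℕ → Submodule ℂ H) (w : H) : Prop :=
  ∀ m k : ℕ, (2 * k ≤ m → Set.BijOn (fun x => w ^ (m - 2 * k) * x) (L m ⊓ dg k : Submodule ℂ H)
      (L m ⊓ dg (m - k) : Submodule ℂ H)) ∧ (m < k → L m ⊓ dg k = ⊥)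

/-- RNK: all classes which satisfy hard Lefschetz on the same decomposition have the same ranks. -/
def S_RNK : Prop := ∀ (H : Type) [CommRing H] [Algebra ℂ H] [FiniteDimensional ℂ H]
  (dg L : ℕ → Submodule ℂ H), DirectSum.IsInternal L → (∀ k, dg k = ⨆ m, L m ⊓ dg k) →
  (∀ i j, ∀ x ∈ dg i, ∀ y ∈ dg j, x * y ∈ dg (i + j)) →
  ∀ w ∈ dg 1, ∀ w' ∈ dg 1, (∀ m, ∀ x ∈ L m, w * x ∈ L m) → (∀ m, ∀ x ∈ L m, w' * x ∈ L m) →
  LefOn dg L w → LefOn dg L w' → ∀ k j : ℕ,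
    finrank ℂ ((dg k).map (LinearMap.mulLeft ℂ (w ^ j))) =
      finrank ℂ ((dg k).map (LinearMap.mulLeft ℂ (w' ^ j)))

end Pool.Agent.K6.H85.EV
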