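import Pool.Agent.K6.H85.EV.Alg2
import Pool.Agent.K6.H85.EV.StmR
import Pool.Agent.K6.H85.EV.LEF
import Pool.Agent.K6.H85.EV.DEG

/-!
# The decomposition of the even cohomology
-/

set_option autoImplicit false
set_option linter.unusedSectionVars false

namespace Pool.Agent.K6.H85.EV

open Module Pool.Agent.K6.H85.GW

attribute [local instance 100] LieRing.ofAssociativeRing

variable {H : Type} [CommRing H] [Algebra ℂ H] [FiniteDimensional ℂ H] {n : ℕ}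
  {dg : ℕ → Submodule ℂ H} {δ : End ℂ H} {𝔟 : LieSubalgebra ℂ (End ℂ H)}

/-- `w` has a dual operator on the subring generated by `H²`, induced by an element of `𝔟` -/
def Good (n : ℕ) (dg : ℕ → Submodule ℂ H) (δ : End ℂ H) (𝔟 : LieSubalgebra ℂ (End ℂ H))
    (w : H) : Prop :=
  w ∈ dg 1 ∧ ∃ f ∈ 𝔟, (∀ r ∈ Rg dg, δ (f r) - f (δ r) = -f r) ∧
    ∀ r ∈ Rg dg, w * f r - f (w * r) = (2 : ℂ) • δ r - (n : ℂ) • r

theorem EvMod.good' (h : EvMod n dg δ 𝔟) {w : H} (hw : Good n dg δ 𝔟 w) :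
    w ∈ dg 1 ∧ ∃ f ∈ 𝔟, δ * f - f * δ = -f ∧
      ∀ r ∈ Rg dg, w * f r - f (w * r) = (2 : ℂ) • δ r - (n : ℂ) • r := by
  obtain ⟨hw1, f, hf, hfd, hfR⟩ := hw
  obtain ⟨f', hf', hd', hR'⟩ := t_DEG H n dg δ 𝔟 h (Rg dg) h.δR f hf hfd
  refine ⟨hw1, f', hf', hd', fun r hr => ?_⟩
  have hwr : w * r ∈ Rg dg := by
    change w * r ∈ Algebra.adjoin ℂ (dg 1 : Set H)
    have hr' : r ∈ Algebra.adjoin ℂ (dg 1 : Set H) := hr
    exact MulMemClass.mul_mem (Algebra.subset_adjoin hw1) hr'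
  rw [hR' r hr, hR' _ hwr, hfR r hr]

/-- the pieces -/
noncomputable def LL (ζ : End ℂ H) (n m : ℕ) : Submodule ℂ H :=
  End.maxGenEigenspace ζ ((n : ℂ) - m)

/-- **The decomposition.** -/
theorem EvMod.mainL (h : EvMod n dg δ 𝔟) {w₀ : H} (hw₀1 : w₀ ∈ dg 1) {f₀ : End ℂ H}
    (hf₀ : f₀ ∈ 𝔟) (hd₀ : δ * f₀ - f₀ * δ = -f₀)
    (hR₀ : ∀ r ∈ Rg dg, w₀ * f₀ r - f₀ (w₀ * r) = (2 : ℂ) • δ r - (n : ℂ) • r)
    (hw₀ : Good n dg δ 𝔟 w₀) :
    DirectSum.IsInternal (LL (zt n δ w₀ f₀) n) ∧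
      (∀ k, dg k = ⨆ m, LL (zt n δ w₀ f₀) n m ⊓ dg k) ∧
      (∀ m, ∀ v ∈ dg 1, ∀ x ∈ LL (zt n δ w₀ f₀) n m, v * x ∈ LL (zt n δ w₀ f₀) n m) ∧
      Rg dg ≤ LL (zt n δ w₀ f₀) n n ∧
      ∀ w, Good n dg δ 𝔟 w → LefOn dg (LL (zt n δ w₀ f₀) n) w := by
  obtain ⟨hζC, hζR⟩ := h.zt_mem hw₀1 hf₀ hd₀ hR₀
  have hζc := mem_CC.1 hζC
  let ζ : End ℂ H := zt n δ w₀ f₀
  let L : ℕ → Submodule ℂ H := LL ζ n
  have hblock : ∀ w, Good n dg δ 𝔟 w → ∀ c : ℂ,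
      (∀ k j : ℕ, 2 * (k : ℂ) + j = (n : ℂ) - c →
        Set.BijOn (fun x => w ^ j * x) (End.maxGenEigenspace ζ c ⊓ dg k : Submodule ℂ H)
          (End.maxGenEigenspace ζ c ⊓ dg (k + j) : Submodule ℂ H)) ∧
      (∀ k : ℕ, (∀ l : ℕ, (k : ℂ) + l ≠ (n : ℂ) - c) →
        End.maxGenEigenspace ζ c ⊓ dg k = ⊥) := by
    intro w hw c
    obtain ⟨hw1, f, hf, hd, hR⟩ := h.good' hw
    exact h.block t_LEF hζC (fun Z hZ => EvMod.zt_trace hw₀1 f₀ hZ) hw1 hf hd hR c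
  -- the decomposition of `dg k` into all generalised eigenspaces
  have hdk : ∀ k, dg k = ⨆ c : ℂ, dg k ⊓ End.maxGenEigenspace ζ c := by
    intro k
    refine Submodule.eq_iSup_inf_genEigenspace (f := ζ) ⊤ (fun x hx => ?_)
      (End.iSup_maxGenEigenspace_eq_top ζ)
    apply h.mem_of_eigen
    have h1 := congrArg (fun Z : End ℂ H => Z x) hζc.2
    have h2 : δ (ζ x) = ζ (δ x) := h1
    rw [h2, h.δdg k x hx, map_smul]
  have hzero : ∀ c : ℂ, (∀ m : ℕ, c ≠ (n : ℂ) - m) → ∀ k,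
      dg k ⊓ End.maxGenEigenspace ζ c = ⊥ := by
    intro c hc k
    rw [inf_comm]
    refine (hblock w₀ hw₀ c).2 k fun l hl => hc (k + l) ?_
    push_cast
    rw [hl]; ring
  have hdk' : ∀ k, dg k = ⨆ m, L m ⊓ dg k := by
    intro k
    apply le_antisymm
    · conv_lhs => rw [hdk k]
      refine iSup_le fun c => ?_
      by_cases hc : ∃ m : ℕ, c = (n : ℂ) - m
      · obtain ⟨m, rfl⟩ := hc
        rw [inf_comm]
        exact le_iSup (fun m => L m ⊓ dg k) m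
      · rw [hzero c (fun m hm => hc ⟨m, hm⟩) k]; exact bot_le
    · exact iSup_le fun m => inf_le_right
  have htop : ⨆ m, L m = ⊤ := by
    rw [eq_top_iff, ← h.internal.submodule_iSup_eq_top]
    refine iSup_le fun k => ?_
    rw [hdk' k]
    exact iSup_mono fun m => inf_le_left
  have hind : iSupIndep L := by
    refine (End.independent_maxGenEigenspace ζ).comp (f := fun m : ℕ => (n : ℂ) - m) ?_
    intro a b hab
    have h1 : (n : ℂ) - a = (n : ℂ) - b := hab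
    have h2 : (a : ℂ) = b := by linear_combination -h1
    exact_mod_cast h2
  refine ⟨DirectSum.isInternal_submodule_of_iSupIndep_of_iSup_eq_top hind htop, hdk', ?_, ?_, ?_⟩
  · intro m v hv x hx
    exact End.mapsTo_maxGenEigenspace_of_comm (f := ζ) (g := mw v) (hζc.1 v hv).symm _ hx
  · intro r hr
    change r ∈ End.maxGenEigenspace ζ ((n : ℂ) - n)
    rw [sub_self, End.mem_maxGenEigenspace]
    refine ⟨1, ?_⟩
    rw [pow_one, zero_smul, sub_zero]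
    exact hζR r hr
  · intro w hw m k
    have hb := hblock w hw ((n : ℂ) - m)
    refine ⟨fun hkm => ?_, fun hmk => ?_⟩
    · have h1 := hb.1 k (m - 2 * k) (by
        rw [Nat.cast_sub hkm]; push_cast; ring)
      rw [show k + (m - 2 * k) = m - k by omega] at h1
      exact h1
    · refine hb.2 k fun l hl => ?_
      have h1 : (k : ℂ) + l = m := by rw [hl]; ring
      have h2 : k + l = m := by exact_mod_cast h1
      omega

theorem EvMod.main (h : EvMod n dg δ 𝔟) {w₀ : H} (hw₀ : Good n dg δ 𝔟 w₀) :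
    ∃ L : ℕ → Submodule ℂ H, DirectSum.IsInternal L ∧ (∀ k, dg k = ⨆ m, L m ⊓ dg k) ∧
      (∀ m, ∀ v ∈ dg 1, ∀ x ∈ L m, v * x ∈ L m) ∧ Rg dg ≤ L n ∧
      ∀ w, Good n dg δ 𝔟 w → LefOn dg L w := by
  obtain ⟨hw₀1, f₀, hf₀, hd₀, hR₀⟩ := h.good' hw₀
  exact ⟨_, h.mainL hw₀1 hf₀ hd₀ hR₀ hw₀⟩

end Pool.Agent.K6.H85.EV
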