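import Pool.Agent.K6.H85.EV.StmN

/-!
# Piece BLK (helper84): the block diagonal part of an element of a Lie algebra
-/

set_option autoImplicit false

namespace Pool.Agent.K6.H85.EV

open Module Polynomial

namespace BLK

variable {V : Type*} [AddCommGroup V] [Module ℂ V]

theorem aeval_eig (T : End ℂ V) (μ : ℂ) (y : V) (h : T y = μ • y) (q : ℂ[X]) :
    (aeval T q) y = q.eval μ • y := by
  induction q using Polynomial.induction_on' with
  | add p q hp hq => rw [map_add, LinearMap.add_apply, hp, hq, eval_add, add_smul]
  | monomial k a =>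
    have h1 : ∀ k : ℕ, (T ^ k) y = μ ^ k • y := by
      intro k
      induction k with
      | zero => simp
      | succ k ih => rw [pow_succ', Module.End.mul_apply, ih, map_smul, h, smul_smul, ← pow_succ]
    rw [aeval_monomial, eval_monomial, Module.End.mul_apply, h1, Module.algebraMap_end_apply,
      smul_smul]

theorem aeval_mem (T : End ℂ V) (S : Submodule ℂ V) (h : ∀ x ∈ S, T x ∈ S) (q : ℂ[X]) (y : V)
    (hy : y ∈ S) : (aeval T q) y ∈ S := by
  induction q using Polynomial.induction_on' with
  | add p q hp hq =>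
    rw [map_add, LinearMap.add_apply]
    exact S.add_mem hp hq
  | monomial k a =>
    have h1 : ∀ k : ℕ, (T ^ k) y ∈ S := by
      intro k
      induction k with
      | zero => simpa using hy
      | succ k ih =>
        rw [pow_succ', Module.End.mul_apply]
        exact h _ ih
    rw [aeval_monomial, Module.End.mul_apply, Module.algebraMap_end_apply]
    exact S.smul_mem _ (h1 k)

end BLK

theorem t_BLK : S_BLK := by
  classical
  intro H _ _ _ 𝔟 D hD L hL ev hev hDL f hf
  let A : End ℂ (End ℂ H) := LinearMap.mulLeft ℂ D - LinearMap.mulRight ℂ D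
  have hA : ∀ X, A X = D * X - X * D := fun X => rfl
  have htop : (⨆ k, L k) = ⊤ := hL.submodule_iSup_eq_top
  have hfin : {k | L k ≠ ⊥}.Finite :=
    WellFoundedGT.finite_ne_bot_of_iSupIndep hL.submodule_iSupIndep
  let S : Finset ℕ := hfin.toFinset
  have hS : ∀ k, k ∉ S → L k = ⊥ := by
    intro k hk
    by_contra h
    exact hk (hfin.mem_toFinset.mpr h)
  let J : Finset ℂ := ((S ×ˢ S).image fun p => ev p.1 - ev p.2).erase 0
  let c : ℂ := ∏ j ∈ J, (0 - j)
  let q : ℂ[X] := C c⁻¹ * ∏ j ∈ J, (X - C j)
  have hc : c ≠ 0 := by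
    refine Finset.prod_ne_zero_iff.mpr fun j hj => ?_
    have h1 : j ≠ 0 := (Finset.mem_erase.mp hj).1
    rw [zero_sub]
    exact neg_ne_zero.mpr h1
  have hq0 : q.eval 0 = 1 := by
    simp only [q, eval_mul, eval_C, eval_prod, eval_sub, eval_X]
    exact inv_mul_cancel₀ hc
  have hqJ : ∀ μ ∈ J, q.eval μ = 0 := by
    intro μ hμ
    simp only [q, eval_mul, eval_C, eval_prod, eval_sub, eval_X]
    rw [Finset.prod_eq_zero hμ (sub_self μ), mul_zero]
  have hmem : (aeval A q) f ∈ 𝔟 := BLK.aeval_mem A 𝔟 (fun X hX => by
    rw [hA]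
    exact hD X hX) q f hf
  have hcomp : ∀ (k : ℕ) (x : H), x ∈ L k → ∀ (p : ℂ[X]) (Y : End ℂ H),
      ((aeval A p) Y) x = (aeval (D - ev k • (1 : End ℂ H)) p) (Y x) := by
    intro k x hx p Y
    induction p using Polynomial.induction_on' with
    | add p q hp hq =>
      rw [map_add, map_add, LinearMap.add_apply, LinearMap.add_apply, LinearMap.add_apply, hp, hq]
    | monomial m a =>
      have h1 : ∀ m : ℕ, ((A ^ m) Y) x = ((D - ev k • (1 : End ℂ H)) ^ m) (Y x) := by
        intro m
        induction m with
        | zero => simp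
        | succ m ih =>
          rw [pow_succ', Module.End.mul_apply, hA, LinearMap.sub_apply, Module.End.mul_apply,
            Module.End.mul_apply, hDL k x hx, map_smul, ih, pow_succ', Module.End.mul_apply,
            LinearMap.sub_apply, LinearMap.smul_apply, Module.End.one_apply]
      rw [aeval_monomial, aeval_monomial, Module.End.mul_apply, Module.End.mul_apply,
        Module.algebraMap_end_apply, Module.algebraMap_end_apply, LinearMap.smul_apply, h1]
  refine ⟨(aeval A q) f, hmem, fun m x hx => ?_⟩
  by_cases hm : m ∈ S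
  · let T : End ℂ H := aeval (D - ev m • (1 : End ℂ H)) q
    have key : (⊤ : Submodule ℂ H) ≤ (L m).comap T ⊓
        (⨆ (m' : ℕ) (_ : m' ≠ m), L m').comap ((1 : End ℂ H) - T) := by
      rw [← htop]
      refine iSup_le fun l z hz => ?_
      have hTz : T z = q.eval (ev l - ev m) • z := by
        refine BLK.aeval_eig _ _ _ ?_ q
        rw [LinearMap.sub_apply, LinearMap.smul_apply, Module.End.one_apply, hDL l z hz, sub_smul]
      rw [Submodule.mem_inf, Submodule.mem_comap, Submodule.mem_comap, LinearMap.sub_apply,
        Module.End.one_apply, hTz]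
      by_cases hl : l ∈ S
      · by_cases hlm : l = m
        · subst hlm
          rw [sub_self, hq0, one_smul, sub_self]
          exact ⟨hz, Submodule.zero_mem _⟩
        · have h1 : ev l - ev m ∈ J := by
            refine Finset.mem_erase.mpr ⟨?_, Finset.mem_image.mpr ⟨(l, m), ?_, rfl⟩⟩
            · intro h
              exact hlm (hev (sub_eq_zero.mp h))
            · exact Finset.mem_product.mpr ⟨hl, hm⟩
          rw [hqJ _ h1, zero_smul, sub_zero]
          refine ⟨Submodule.zero_mem _, ?_⟩
          exact Submodule.mem_iSup_of_mem l (Submodule.mem_iSup_of_mem hlm hz)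
      · have h1 : z = 0 := by
          rw [hS l hl] at hz
          exact (Submodule.mem_bot ℂ).mp hz
        rw [h1, smul_zero, sub_zero]
        exact ⟨Submodule.zero_mem _, Submodule.zero_mem _⟩
    have h2 := key (Submodule.mem_top : f x ∈ ⊤)
    rw [Submodule.mem_inf, Submodule.mem_comap, Submodule.mem_comap, LinearMap.sub_apply,
      Module.End.one_apply] at h2
    have h3 : ((aeval A q) f) x = T (f x) := hcomp m x hx q f
    rw [h3]
    exact ⟨h2.1, _, h2.2, by abel⟩
  · have h1 : x = 0 := by
      rw [hS m hm] at hx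
      exact (Submodule.mem_bot ℂ).mp hx
    rw [h1, map_zero, map_zero]
    exact ⟨Submodule.zero_mem _, 0, Submodule.zero_mem _, by simp⟩

end Pool.Agent.K6.H85.EV
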