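import Pool.Agent.K6.H85.EV.StmN
import Pool.Agent.K6.H85.EV.LEFcore

/-!
# Piece NN: the nilpotent operator `N` is zero
-/

set_option autoImplicit false

namespace Pool.Agent.K6.H85.EV

open Module

attribute [local instance 100] LieRing.ofAssociativeRing

universe u

namespace NN

variable {W : Type u} [AddCommGroup W] [Module ℂ W]

/-- step 1 -/
theorem step1 {e g δ N : End ℂ W} {m : ℂ} (h1 : ∀ y, δ (e y) = e (δ y) + e y)
    (h2 : ∀ y, e (g y) = g (e y) + ((2 : ℂ) • δ y - m • y + N y))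
    (h3 : ∀ y, δ (g y) = g (δ y) - g y) (hN : N * e = e * N) (hNδ : ∀ y, N (δ y) = δ (N y))
    (hNn : IsNilpotent N) (hen : IsNilpotent e) {b : ℂ} {j : ℕ} (hb : 2 * b + j = m) {x : W}
    (hx : δ x = b • x) (hex : (e ^ (j + 1)) x = 0) : N x = 0 := by
  set h : End ℂ W := (2 : ℂ) • δ - m • (1 : End ℂ W) + N with hh0
  have hhy : ∀ y, h y = (2 : ℂ) • δ y - m • y + N y := by intro y; simp [hh0]
  have hNe : ∀ y, N (e y) = e (N y) := by
    intro y; rw [← Module.End.mul_apply, hN, Module.End.mul_apply]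
  have hNpow : ∀ (i : ℕ) (y : W), N ((e ^ i) y) = (e ^ i) (N y) := by
    intro i y
    have hc : Commute N (e ^ i) := Commute.pow_right hN i
    rw [← Module.End.mul_apply, hc.eq, Module.End.mul_apply]
  have hh : ∀ y, h (e y) = e (h y) + (2 : ℂ) • e y := by
    intro y
    rw [hhy, hhy, h1, hNe]
    simp only [map_add, map_sub, map_smul]
    module
  have hg : ∀ y, e (g y) = g (e y) + h y := by intro y; rw [h2, hhy]
  have k1 := LEF_pow_g hh hg j x
  rw [hex, map_zero, zero_add] at k1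
  have k2 : (e ^ j) (h x) + (j : ℂ) • (e ^ j) x = (e ^ j) (N x) := by
    rw [hhy, hx, ← hb]
    simp only [map_add, map_sub, map_smul]
    module
  rw [k2] at k1
  have hgx : δ (g x) = (b - 1) • g x := by
    rw [h3, hx, map_smul]; module
  have k3 : (e ^ (j + 2)) (g x) = 0 := by
    have e1 : (e ^ (j + 2)) (g x) = e ((e ^ (j + 1)) (g x)) := by
      rw [show j + 2 = (j + 1) + 1 from rfl, pow_succ', Module.End.mul_apply]
    have e2 : e ((e ^ j) (N x)) = (e ^ (j + 1)) (N x) := by
      rw [pow_succ', Module.End.mul_apply]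
    rw [e1, k1, map_smul, e2, ← hNpow, hex, map_zero, smul_zero]
  have k4 : g x = 0 := LEF_inj h1 h2 hN hNn hen (b := b - 1) (j := j + 2)
    (by rw [← hb]; push_cast; ring) hgx (j + 2) le_rfl k3
  rw [k4, map_zero] at k1
  have hj : ((j : ℂ) + 1) ≠ 0 := Nat.cast_add_one_ne_zero j
  have k5 : (e ^ j) (N x) = 0 := by
    rcases smul_eq_zero.1 k1.symm with h | h
    · exact absurd h hj
    · exact h
  exact LEF_inj h1 h2 hN hNn hen hb (by rw [← hNδ, hx, map_smul]) j le_rfl k5

/-- step 2 -/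
theorem step2 {e g δ N : End ℂ W} {m : ℂ} (h1 : ∀ y, δ (e y) = e (δ y) + e y)
    (h2 : ∀ y, e (g y) = g (e y) + ((2 : ℂ) • δ y - m • y + N y))
    (h3 : ∀ y, δ (g y) = g (δ y) - g y) (hN : N * e = e * N) (hNδ : ∀ y, N (δ y) = δ (N y))
    (hNn : IsNilpotent N) (hen : IsNilpotent e)
    (htop : (⨆ k : ℕ, End.eigenspace δ (k : ℂ)) = ⊤) (k : ℕ) :
    ∀ (j : ℕ), 2 * (k : ℂ) + j = m → ∀ x : W, δ x = (k : ℂ) • x → N x = 0 := by
  have hNe : ∀ y, N (e y) = e (N y) := by
    intro y; rw [← Module.End.mul_apply, hN, Module.End.mul_apply]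
  induction k with
  | zero =>
    intro j hj x hx
    refine step1 h1 h2 h3 hN hNδ hNn hen hj hx ?_
    have hz : δ ((e ^ (j + 1)) x) = (((0 : ℕ) : ℂ) + ((j + 1 : ℕ) : ℂ)) • (e ^ (j + 1)) x :=
      LEF_δpow h1 (j + 1) hx
    obtain ⟨y, hy, hyz⟩ := LEF_surj h1 h2 hN hNn hen (LEF_top htop)
      (b := ((0 : ℕ) : ℂ) + ((j + 1 : ℕ) : ℂ)) (j := j + 2) (by rw [← hj]; push_cast; ring) hz
    by_cases hy0 : y = 0
    · rw [← hyz, hy0, map_zero]
    · exfalso
      obtain ⟨l, hl⟩ := LEF_nat htop hy hy0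
      have : ((l : ℂ)) + 1 = 0 := by rw [hl]; push_cast; ring
      exact Nat.cast_add_one_ne_zero l this
  | succ k ih =>
    intro j hj x hx
    have hz : δ ((e ^ (j + 1)) x) = (((k + 1 : ℕ) : ℂ) + ((j + 1 : ℕ) : ℂ)) • (e ^ (j + 1)) x :=
      LEF_δpow h1 (j + 1) hx
    obtain ⟨y, hy, hyz⟩ := LEF_surj h1 h2 hN hNn hen (LEF_top htop)
      (b := ((k + 1 : ℕ) : ℂ) + ((j + 1 : ℕ) : ℂ)) (j := j + 2)
      (by rw [← hj]; push_cast; ring) hz
    have hy' : δ y = (k : ℂ) • y := by rw [hy]; congr 1; push_cast; ring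
    have hNy : N y = 0 := ih (j + 2) (by rw [← hj]; push_cast; ring) y hy'
    have hx' : δ (x - e y) = ((k + 1 : ℕ) : ℂ) • (x - e y) := by
      rw [map_sub, h1, hx, hy', map_smul]; push_cast; module
    have hex' : (e ^ (j + 1)) (x - e y) = 0 := by
      have : (e ^ (j + 1)) (e y) = (e ^ (j + 2)) y := by
        rw [show j + 2 = (j + 1) + 1 from rfl, pow_succ e (j + 1), Module.End.mul_apply]
      rw [map_sub, this, hyz, sub_self]
    have := step1 h1 h2 h3 hN hNδ hNn hen hj hx' hex'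
    rw [map_sub, hNe, hNy, map_zero, sub_zero] at this
    exact this

end NN

theorem t_NN : S_NN.{u} := by
  intro W _ _ _ e g δ N m h1 h2 h3 hN hNδ hen hNn htop
  have h1' : ∀ y, δ (e y) = e (δ y) + e y := by
    intro y
    have := LinearMap.congr_fun h1 y
    simp only [LinearMap.sub_apply, Module.End.mul_apply] at this
    rw [sub_eq_iff_eq_add] at this
    rw [this, add_comm]
  have h2' : ∀ y, e (g y) = g (e y) + ((2 : ℂ) • δ y - m • y + N y) := by
    intro y
    have := LinearMap.congr_fun h2 y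
    simp only [LinearMap.sub_apply, Module.End.mul_apply, LinearMap.add_apply,
      LinearMap.smul_apply, Module.End.one_apply] at this
    rw [sub_eq_iff_eq_add] at this
    rw [this, add_comm]
  have h3' : ∀ y, δ (g y) = g (δ y) - g y := by
    intro y
    have := LinearMap.congr_fun h3 y
    simp only [LinearMap.sub_apply, Module.End.mul_apply, LinearMap.neg_apply] at this
    rw [sub_eq_iff_eq_add] at this
    rw [this]; abel
  have hNδ' : ∀ y, N (δ y) = δ (N y) := by
    intro y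
    have := LinearMap.congr_fun hNδ y
    simpa only [Module.End.mul_apply] using this
  have hNpow : ∀ (i : ℕ) (y : W), N ((e ^ i) y) = (e ^ i) (N y) := by
    intro i y
    have hc : Commute N (e ^ i) := Commute.pow_right hN i
    rw [← Module.End.mul_apply, hc.eq, Module.End.mul_apply]
  have hker : (⊤ : Submodule ℂ W) ≤ LinearMap.ker N := by
    rw [← htop]
    refine iSup_le fun k x hx => ?_
    rw [LinearMap.mem_ker]
    have hx' : δ x = (k : ℂ) • x := End.mem_eigenspace_iff.1 hx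
    by_cases hl : ∃ l : ℕ, (k : ℂ) + l = m
    · obtain ⟨l, hl⟩ := hl
      rcases le_or_gt k l with hkl | hkl
      · refine NN.step2 h1' h2' h3' hN hNδ' hNn hen htop k (l - k) ?_ x hx'
        rw [← hl, Nat.cast_sub hkl]; ring
      · obtain ⟨y, hy, hyx⟩ := LEF_surj h1' h2' hN hNn hen (LEF_top htop) (b := (k : ℂ))
          (j := k - l) (by rw [← hl, Nat.cast_sub hkl.le]; ring) hx'
        have hy' : δ y = (l : ℂ) • y := by
          rw [hy, Nat.cast_sub hkl.le]; congr 1; ring
        have hNy := NN.step2 h1' h2' h3' hN hNδ' hNn hen htop l (k - l)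
          (by rw [← hl, Nat.cast_sub hkl.le]; ring) y hy'
        rw [← hyx, hNpow, hNy, map_zero]
    · push Not at hl
      have := (LEF_main e g δ N m h1 h2 hN hen hNn htop).2 k hl
      rw [this, Submodule.mem_bot] at hx
      rw [hx, map_zero]
  ext x
  exact LinearMap.mem_ker.1 (hker Submodule.mem_top)

end Pool.Agent.K6.H85.EV
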