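import Pool.Agent.K6.H85.EV.Alg3
import Pool.Agent.K6.H85.EV.NN
import Pool.Agent.K6.H85.EV.BLK

/-!
# The dual operators on the whole even cohomology
-/

set_option autoImplicit false
set_option linter.unusedSectionVars false

namespace Pool.Agent.K6.H85.EV

open Module Pool.Agent.K6.H85.GW

attribute [local instance 100] LieRing.ofAssociativeRing

variable {H : Type} [CommRing H] [Algebra ℂ H] [FiniteDimensional ℂ H] {n : ℕ}
  {dg : ℕ → Submodule ℂ H} {δ : End ℂ H} {𝔟 : LieSubalgebra ℂ (End ℂ H)}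

/-- the compression of `f` to a generalised eigenspace of `ζ₀` is a dual operator -/
theorem EvMod.block2 (h : EvMod n dg δ 𝔟) {ζ₀ : End ℂ H} (hζ₀ : ζ₀ ∈ CC dg δ)
    (hζ₀t : ∀ Z ∈ CC dg δ, LinearMap.trace ℂ H (Z * ζ₀) =
      LinearMap.trace ℂ H (Z * ((n : ℂ) • (1 : End ℂ H) - (2 : ℂ) • δ)))
    {w : H} (hw : w ∈ dg 1) {f : End ℂ H} (hf : f ∈ 𝔟) (hd : δ * f - f * δ = -f)
    (hR : ∀ r ∈ Rg dg, w * f r - f (w * r) = (2 : ℂ) • δ r - (n : ℂ) • r) (c : ℂ)
    (P : End ℂ H) (hP1 : ∀ x, P x ∈ End.maxGenEigenspace ζ₀ c)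
    (hP2 : ∀ x ∈ End.maxGenEigenspace ζ₀ c, P x = x)
    (hPZ : ∀ Z : End ℂ H, Z * ζ₀ = ζ₀ * Z → P * Z = Z * P)
    (hPn : IsNilpotent (P * (ζ₀ - c • (1 : End ℂ H)) * P)) :
    (∀ x ∈ End.maxGenEigenspace ζ₀ c, P (zt n δ w f x) = c • x) ∧
    ∀ x ∈ End.maxGenEigenspace ζ₀ c,
      w * P (f x) - P (f (w * x)) = (2 : ℂ) • δ x - ((n : ℂ) - c) • x := by
  let L : Submodule ℂ H := End.maxGenEigenspace ζ₀ c
  obtain ⟨hzC, hzR⟩ := h.zt_mem hw hf hd hR
  have hz₀ := mem_CC.1 hζ₀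
  have hz := mem_CC.1 hzC
  have hPC : P ∈ CC dg δ :=
    mem_CC.2 ⟨fun v hv => (hPZ _ (hz₀.1 v hv)).symm, (hPZ _ hz₀.2).symm⟩
  have hPc := mem_CC.1 hPC
  let B : End ℂ H := P * (zt n δ w f - c • (1 : End ℂ H)) * P
  have hBn : IsNilpotent B := by
    refine trc hζ₀ hzC (fun Z hZ => ?_) hPC c hPn
    rw [mul_sub, map_sub, EvMod.zt_trace hw f hZ, hζ₀t Z hZ, sub_self]
  have hBC : B ∈ CC dg δ := by
    have hc : c • (1 : End ℂ H) ∈ CC dg δ := (CC dg δ).smul_mem (one_mem _) c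
    exact MulMemClass.mul_mem (MulMemClass.mul_mem hPC (sub_mem hzC hc)) hPC
  have hBc := mem_CC.1 hBC
  -- stability
  have hLw : ∀ x ∈ L, mw w x ∈ L := fun x hx =>
    End.mapsTo_maxGenEigenspace_of_comm (f := ζ₀) (g := mw w) (hz₀.1 w hw).symm c hx
  have hLδ : ∀ x ∈ L, δ x ∈ L := fun x hx =>
    End.mapsTo_maxGenEigenspace_of_comm (f := ζ₀) (g := δ) hz₀.2.symm c hx
  have hLf : ∀ x ∈ L, (P * f) x ∈ L := fun x _ => hP1 _
  have hLB : ∀ x ∈ L, B x ∈ L := fun x _ => hP1 _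
  let e' : End ℂ L := (mw w).restrict hLw
  let g' : End ℂ L := (P * f).restrict hLf
  let δ' : End ℂ L := δ.restrict hLδ
  let N' : End ℂ L := B.restrict hLB
  have ev : ∀ x : L, ((e' x : L) : H) = w * x := fun _ => rfl
  have gv : ∀ x : L, ((g' x : L) : H) = P (f x) := fun _ => rfl
  have dv : ∀ x : L, ((δ' x : L) : H) = δ x := fun _ => rfl
  have Nv : ∀ x : L, ((N' x : L) : H) = B x := fun _ => rfl
  have hwδ := h.δmw hw
  have e3 : ∀ x ∈ L, B x = P (zt n δ w f x) - c • x := by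
    intro x hx
    change P ((zt n δ w f - c • (1 : End ℂ H)) (P x)) = _
    rw [hP2 x hx]
    change P (zt n δ w f x - c • x) = _
    rw [map_sub, map_smul, hP2 x hx]
  have rel : ∀ x ∈ L, w * P (f x) - P (f (w * x)) =
      (2 : ℂ) • δ x - ((n : ℂ) - c) • x + B x := by
    intro x hx
    have e1 : w * P (f x) = P (w * f x) := by
      have := congrArg (fun Z : End ℂ H => Z (f x)) (hPc.1 w hw)
      exact this
    have e2 : zt n δ w f x = w * f x - f (w * x) - (2 : ℂ) • δ x + (n : ℂ) • x := rfl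
    have e4 : P (δ x) = δ x := hP2 _ (hLδ x hx)
    rw [e3 x hx, e2, map_add, map_sub, map_sub, map_smul, map_smul, e4, hP2 x hx, e1, sub_smul]
    abel
  have r1 : δ' * e' - e' * δ' = e' := by
    ext x
    change δ (w * (x : H)) - w * δ x = w * x
    have := congrArg (fun Z : End ℂ H => Z (x : H)) hwδ
    have h2 : δ (w * (x : H)) = w * δ x + w * x := this
    rw [h2]; abel
  have r2 : e' * g' - g' * e' = (2 : ℂ) • δ' - ((n : ℂ) - c) • (1 : End ℂ L) + N' := by
    ext x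
    exact rel x x.2
  have r2' : δ' * g' - g' * δ' = -g' := by
    ext x
    change δ (P (f x)) - P (f (δ x)) = -P (f x)
    have e5 : δ (P (f (x : H))) = P (δ (f x)) := by
      have := congrArg (fun Z : End ℂ H => Z (f (x : H))) hPc.2
      exact this
    have e6 : δ (f (x : H)) - f (δ x) = -f x := by
      have := congrArg (fun Z : End ℂ H => Z (x : H)) hd
      exact this
    rw [e5, ← map_sub, e6, map_neg]
  have r3 : N' * e' = e' * N' := by
    ext x
    have := congrArg (fun Z : End ℂ H => Z (x : H)) (hBc.1 w hw)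
    exact this.symm
  have r4 : N' * δ' = δ' * N' := by
    ext x
    have := congrArg (fun Z : End ℂ H => Z (x : H)) hBc.2
    exact this.symm
  have hepow : ∀ (j : ℕ) (x : L), (((e' ^ j) x : L) : H) = w ^ j * x := by
    intro j
    induction j with
    | zero => intro x; rw [pow_zero, pow_zero, one_mul]; rfl
    | succ j ih =>
      intro x
      rw [pow_succ, pow_succ]
      change (((e' ^ j) (e' x) : L) : H) = _
      rw [ih, ev, mul_assoc]
  have hwpow : ∀ j : ℕ, w ^ j ∈ dg j := by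
    intro j
    induction j with
    | zero => rw [pow_zero]; exact h.one
    | succ j ih => rw [pow_succ]; exact h.mul _ _ _ ih _ hw
  have r5 : IsNilpotent e' := by
    refine ⟨n + 1, ?_⟩
    ext x
    rw [hepow, h.top (n + 1) (Nat.lt_succ_self n) _ (hwpow _), zero_mul]; rfl
  have r6 : IsNilpotent N' := by
    obtain ⟨K, hK⟩ := hBn
    refine ⟨K, ?_⟩
    have : ∀ (j : ℕ) (x : L), (((N' ^ j) x : L) : H) = (B ^ j) x := by
      intro j
      induction j with
      | zero => intro x; rw [pow_zero, pow_zero]; rfl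
      | succ j ih =>
        intro x
        rw [pow_succ, pow_succ]
        change (((N' ^ j) (N' x) : L) : H) = _
        rw [ih, Nv]; rfl
    ext x
    rw [this, hK]; rfl
  have hδtop : ⨆ μ : ℂ, End.genEigenspace δ μ 1 = ⊤ := by
    rw [eq_top_iff, ← h.internal.submodule_iSup_eq_top]
    refine iSup_le fun k => ?_
    rw [← h.eigenspace k]
    exact le_iSup (fun μ : ℂ => End.genEigenspace δ μ 1) (k : ℂ)
  have r7 : (⨆ k : ℕ, End.eigenspace δ' (k : ℂ)) = ⊤ := by
    have h3 := Module.End.genEigenspace_restrict_eq_top (f := δ) (k := 1) hLδ hδtop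
    rw [← h3]
    apply le_antisymm
    · exact iSup_le fun k => le_iSup (fun μ : ℂ => End.genEigenspace δ' μ 1) (k : ℂ)
    · refine iSup_le fun μ => ?_
      by_cases hμ : ∃ k : ℕ, (k : ℂ) = μ
      · obtain ⟨k, rfl⟩ := hμ
        exact le_iSup (fun k : ℕ => End.eigenspace δ' (k : ℂ)) k
      · intro x hx
        have hx' : δ (x : H) = μ • (x : H) := by
          have h4 := End.mem_eigenspace_iff.1 (show x ∈ End.eigenspace δ' μ from hx)
          exact congrArg Subtype.val h4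
        have h5 : (x : H) ∈ End.eigenspace δ μ := End.mem_eigenspace_iff.2 hx'
        have h6 : (x : H) ∈ ⨆ (ν : ℂ) (_ : ν ≠ μ), End.eigenspace δ ν := by
          have h7 : (⊤ : Submodule ℂ H) ≤ ⨆ (ν : ℂ) (_ : ν ≠ μ), End.eigenspace δ ν := by
            rw [← h.internal.submodule_iSup_eq_top]
            refine iSup_le fun k => ?_
            rw [← h.eigenspace k]
            exact le_iSup₂_of_le (f := fun (ν : ℂ) (_ : ν ≠ μ) => End.eigenspace δ ν) (k : ℂ)
              (fun hk => hμ ⟨k, hk⟩) le_rfl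
          exact h7 trivial
        have h8 := Submodule.disjoint_def.1 (End.eigenspaces_iSupIndep δ μ) _ h5 h6
        have h9 : x = 0 := Subtype.ext h8
        rw [h9]; exact zero_mem _
  have hN0 : N' = 0 := t_NN L e' g' δ' N' ((n : ℂ) - c) r1 r2 r2' r3 r4 r5 r6 r7
  have hB0 : ∀ x ∈ L, B x = 0 := by
    intro x hx
    have h1 := congrArg (fun Z : End ℂ L => ((Z ⟨x, hx⟩ : L) : H)) hN0
    exact h1
  refine ⟨fun x hx => ?_, fun x hx => ?_⟩
  · have h1 := e3 x hx
    rw [hB0 x hx] at h1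
    exact (sub_eq_zero.1 h1.symm)
  · rw [rel x hx, hB0 x hx, add_zero]

theorem EvMod.two_part (h : EvMod n dg δ 𝔟) {X : End ℂ H} (hX : X ∈ 𝔟)
    (hd : δ * X - X * δ = (2 : ℂ) • X) : X = 0 := by
  obtain ⟨x, hx, hxX⟩ := h.tangent X hX
  have hd' : ∀ z, δ (X z) = X (δ z) + (2 : ℂ) • X z := by
    intro z
    have h1 := congrArg (fun Z : End ℂ H => Z z) hd
    have h2 : δ (X z) - X (δ z) = (2 : ℂ) • X z := h1
    rw [← sub_eq_iff_eq_add', h2]
  refine h.ext fun k z hz => ?_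
  have h1 : X z ∈ dg (k + 2) := by
    apply h.mem_of_eigen
    rw [hd', h.δdg k z hz, map_smul]
    push_cast
    rw [add_smul]
  have h2 : x * z ∈ dg (k + 1) := by
    rw [add_comm]; exact h.mul 1 k x hx z hz
  have h4 : X z ∈ ⨆ (l) (_ : l ≠ k + 2), dg l := by
    have h6 : (⨆ (l : ℕ) (_ : l ≤ k), dg l) ≤ ⨆ (l) (_ : l ≠ k + 2), dg l :=
      iSup₂_le fun l hl => le_iSup₂_of_le l (by omega) le_rfl
    have h7 : x * z ∈ ⨆ (l) (_ : l ≠ k + 2), dg l :=
      (le_iSup₂_of_le (f := fun l (_ : l ≠ k + 2) => dg l) (k + 1) (by omega) le_rfl) h2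
    have h8 : X z = (X z - x * z) + x * z := by abel
    rw [h8]
    exact Submodule.add_mem _ (h6 (hxX k z hz)) h7
  exact Submodule.disjoint_def.1 (h.internal.submodule_iSupIndep (k + 2)) _ h1 h4

end Pool.Agent.K6.H85.EV
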