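import Pool.Agent.K6.H85.EV.Alg4

/-!
# The commuting dual operators
-/

set_option autoImplicit false
set_option linter.unusedSectionVars false

namespace Pool.Agent.K6.H85.EV

open Module Pool.Agent.K6.H85.GW

attribute [local instance 100] LieRing.ofAssociativeRing

variable {H : Type} [CommRing H] [Algebra ℂ H] [FiniteDimensional ℂ H] {n : ℕ}
  {dg : ℕ → Submodule ℂ H} {δ : End ℂ H} {𝔟 : LieSubalgebra ℂ (End ℂ H)}

theorem ad_aux {A : Type} [Ring A] {D w Y : A} (h : D * w - w * D = w) :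
    D * (w * Y - Y * w) - (w * Y - Y * w) * D =
      w * (D * Y - Y * D) - (D * Y - Y * D) * w + (w * Y - Y * w) := by
  have h1 : D * (w * Y - Y * w) - (w * Y - Y * w) * D -
      (w * (D * Y - Y * D) - (D * Y - Y * D) * w + (w * Y - Y * w)) =
      (D * w - w * D - w) * Y - Y * (D * w - w * D - w) := by noncomm_ring
  rw [h, sub_self, zero_mul, mul_zero, sub_self] at h1
  exact sub_eq_zero.1 h1

/-- two maps that agree on the pieces of an internal direct sum -/
theorem ext_of_internal {L : ℕ → Submodule ℂ H} (hL : DirectSum.IsInternal L) {X Y : End ℂ H}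
    (h : ∀ m, ∀ x ∈ L m, X x = Y x) : X = Y := by
  ext x
  have hx : x ∈ ⨆ k, L k := by rw [hL.submodule_iSup_eq_top]; trivial
  induction hx using Submodule.iSup_induction' with
  | mem k x hx => exact h k x hx
  | zero => rw [map_zero, map_zero]
  | add x y _ _ hx hy => rw [map_add, map_add, hx, hy]

/-- `Λ` is the dual operator of `w` with respect to the decomposition `L` -/
def IsDual (dg L : ℕ → Submodule ℂ H) (w : H) (Λ : End ℂ H) : Prop :=
  (∀ m, ∀ x ∈ L m, Λ x ∈ L m) ∧ (∀ x ∈ dg 0, Λ x = 0) ∧ (∀ k, ∀ x ∈ dg (k + 1), Λ x ∈ dg k) ∧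
    ∀ m k, ∀ x ∈ L m ⊓ dg k, w * Λ x - Λ (w * x) = (2 * (k : ℂ) - m) • x

theorem EvMod.main2 (h : EvMod n dg δ 𝔟) {w₀ : H} (hw₀ : Good n dg δ 𝔟 w₀) :
    ∃ (L : ℕ → Submodule ℂ H) (Λ : H → End ℂ H), DirectSum.IsInternal L ∧
      (∀ k, dg k = ⨆ m, L m ⊓ dg k) ∧
      (∀ m, ∀ v ∈ dg 1, ∀ x ∈ L m, v * x ∈ L m) ∧ Rg dg ≤ L n ∧
      (∀ w, Good n dg δ 𝔟 w → LefOn dg L w) ∧ (∀ w, Good n dg δ 𝔟 w → IsDual dg L w (Λ w)) ∧
      ∀ w w', Good n dg δ 𝔟 w → Good n dg δ 𝔟 w' → ∀ x, Λ w (Λ w' x) = Λ w' (Λ w x) := by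
  obtain ⟨hw₀1, f₀, hf₀, hd₀, hR₀⟩ := h.good' hw₀
  obtain ⟨hL1, hL2, hL3, hL4, hL5⟩ := h.mainL hw₀1 hf₀ hd₀ hR₀ hw₀
  obtain ⟨hζC, hζR⟩ := h.zt_mem hw₀1 hf₀ hd₀ hR₀
  have hζc := mem_CC.1 hζC
  let ζ : End ℂ H := zt n δ w₀ f₀
  let L : ℕ → Submodule ℂ H := LL ζ n
  -- `ζ` is scalar on `L m`
  have hζt : ∀ Z ∈ CC dg δ, LinearMap.trace ℂ H (Z * ζ) =
      LinearMap.trace ℂ H (Z * ((n : ℂ) • (1 : End ℂ H) - (2 : ℂ) • δ)) :=
    fun Z hZ => EvMod.zt_trace hw₀1 f₀ hZ
  have hζL : ∀ m, ∀ x ∈ L m, ζ x = ((n : ℂ) - m) • x := by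
    intro m x hx
    obtain ⟨P, hP1, hP2, hPZ, hPn, -⟩ := exists_proj ζ ((n : ℂ) - m)
    have h1 := (h.block2 hζC hζt hw₀1 hf₀ hd₀ hR₀ ((n : ℂ) - m) P hP1 hP2 hPZ hPn).1 x hx
    have h2 : ζ x ∈ End.maxGenEigenspace ζ ((n : ℂ) - m) :=
      End.mapsTo_maxGenEigenspace_of_comm (f := ζ) (g := ζ) (Commute.refl ζ) _ hx
    have h3 : P (ζ x) = ζ x := hP2 _ h2
    rw [← h3]; exact h1
  have hinj : Function.Injective (fun m : ℕ => (n : ℂ) - m) := by
    intro a b hab
    have h1 : (n : ℂ) - a = (n : ℂ) - b := hab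
    have h2 : (a : ℂ) = b := by linear_combination -h1
    exact_mod_cast h2
  -- `𝔟` is normalised by `ζ`
  have hζ𝔟 : ∀ X ∈ 𝔟, ζ * X - X * ζ ∈ 𝔟 := by
    intro X hX
    have e0 : ζ * X - X * ζ = ⁅⁅mw w₀, f₀⁆, X⁆ - (2 : ℂ) • ⁅δ, X⁆ := by
      rw [LieRing.of_associative_ring_bracket, LieRing.of_associative_ring_bracket,
        LieRing.of_associative_ring_bracket]
      change zt n δ w₀ f₀ * X - X * zt n δ w₀ f₀ = _
      rw [zt, mul_add, mul_sub, add_mul, sub_mul, mul_smul_comm, smul_mul_assoc, mul_smul_comm,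
        smul_mul_assoc, mul_one, one_mul, smul_sub]
      abel
    rw [e0]
    exact sub_mem (𝔟.lie_mem (𝔟.lie_mem (h.mul_mem w₀ hw₀1) hf₀) hX)
      (𝔟.toSubmodule.smul_mem _ (𝔟.lie_mem h.δ_mem hX))
  -- the dual operators
  have hex : ∀ w, ∃ Λ : End ℂ H, Good n dg δ 𝔟 w → Λ ∈ 𝔟 ∧ δ * Λ - Λ * δ = -Λ ∧
      (∀ m, ∀ x ∈ L m, Λ x ∈ L m) ∧
      ∀ m, ∀ x ∈ L m, w * Λ x - Λ (w * x) = (2 : ℂ) • δ x - (m : ℂ) • x := by
    intro w
    by_cases hw : Good n dg δ 𝔟 w
    · obtain ⟨hw1, f, hf, hd, hR⟩ := h.good' hw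
      obtain ⟨Λ, hΛ, hΛf⟩ := t_BLK H 𝔟.toSubmodule ζ hζ𝔟 L hL1 _ hinj hζL f hf
      have hm : ∀ m, ∀ x ∈ L m, (∀ y ∈ L m, δ y ∈ L m) ∧ (w * Λ x - Λ (w * x) =
          (2 : ℂ) • δ x - (m : ℂ) • x) ∧ δ (Λ x) - Λ (δ x) = -Λ x := by
        intro m x hx
        obtain ⟨P, hP1, hP2, hPZ, hPn, hP0⟩ := exists_proj ζ ((n : ℂ) - m)
        have h1 := (h.block2 hζC hζt hw1 hf hd hR ((n : ℂ) - m) P hP1 hP2 hPZ hPn).2 x hx
        have hPf : ∀ y ∈ L m, P (f y) = Λ y := by
          intro y hy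
          obtain ⟨hy1, z, hz, hfz⟩ := hΛf m y hy
          have hPz : P z = 0 := by
            have hle : (⨆ (m' : ℕ) (_ : m' ≠ m), L m') ≤ LinearMap.ker P := by
              refine iSup₂_le fun m' hm' => ?_
              intro u hu
              exact hP0 _ (fun he => hm' (hinj he)) u hu
            exact hle hz
          rw [hfz, map_add, hPz, add_zero]
          exact hP2 _ hy1
        have hwx : w * x ∈ L m := hL3 m w hw1 x hx
        have hLδ : ∀ y ∈ L m, δ y ∈ L m := fun y hy =>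
          End.mapsTo_maxGenEigenspace_of_comm (f := ζ) (g := δ) hζc.2.symm _ hy
        refine ⟨hLδ, ?_, ?_⟩
        · rw [hPf x hx, hPf _ hwx] at h1
          rw [h1]; congr 2; ring
        · have h2 : P * δ = δ * P := hPZ δ hζc.2
          have h3 : δ (P (f x)) = P (δ (f x)) := by
            have := congrArg (fun Z : End ℂ H => Z (f x)) h2
            exact this.symm
          have h4 : δ (f x) - f (δ x) = -f x := by
            have := congrArg (fun Z : End ℂ H => Z x) hd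
            exact this
          rw [← hPf x hx, ← hPf _ (hLδ x hx), h3, ← map_sub, h4, map_neg]
      refine ⟨Λ, fun _ => ⟨hΛ, ?_, fun m x hx => (hΛf m x hx).1, fun m x hx => (hm m x hx).2.1⟩⟩
      exact ext_of_internal hL1 fun m x hx => (hm m x hx).2.2
    · exact ⟨0, fun hw' => absurd hw' hw⟩
  choose Λ hΛ using hex
  refine ⟨L, Λ, hL1, hL2, hL3, hL4, hL5, ?_, ?_⟩
  · intro w hw
    obtain ⟨h1, h2, h3, h4⟩ := hΛ w hw
    have hδΛ : ∀ x, δ (Λ w x) = Λ w (δ x) - Λ w x := by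
      intro x
      have h5 := congrArg (fun Z : End ℂ H => Z x) h2
      have h6 : δ (Λ w x) - Λ w (δ x) = -Λ w x := h5
      rw [sub_eq_iff_eq_add'] at h6
      rw [h6]; abel
    refine ⟨h3, ?_, ?_, ?_⟩
    · intro x hx
      have h5 : δ (Λ w x) = (-1 : ℂ) • Λ w x := by
        rw [hδΛ, h.δdg 0 x hx, map_smul, Nat.cast_zero, zero_smul, zero_sub, neg_one_smul]
      have h6 : Λ w x ∈ End.eigenspace δ (-1 : ℂ) := End.mem_eigenspace_iff.2 h5
      have h7 : (⊤ : Submodule ℂ H) ≤ ⨆ (ν : ℂ) (_ : ν ≠ -1), End.eigenspace δ ν := by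
        rw [← h.internal.submodule_iSup_eq_top]
        refine iSup_le fun k => ?_
        rw [← h.eigenspace k]
        refine le_iSup₂_of_le (f := fun (ν : ℂ) (_ : ν ≠ -1) => End.eigenspace δ ν) (k : ℂ) ?_ le_rfl
        intro hk
        have h8 : ((k : ℤ) : ℂ) = ((-1 : ℤ) : ℂ) := by push_cast; exact hk
        have h9 : (k : ℤ) = -1 := by exact_mod_cast h8
        omega
      exact Submodule.disjoint_def.1 (End.eigenspaces_iSupIndep δ (-1)) _ h6 (h7 trivial)
    · intro k x hx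
      apply h.mem_of_eigen
      rw [hδΛ, h.δdg (k + 1) x hx, map_smul]
      push_cast
      rw [add_smul, one_smul, add_sub_cancel_right]
    · rintro m k x ⟨hxL, hxd⟩
      rw [h4 m x hxL, h.δdg k x hxd, smul_smul, ← sub_smul]
  · -- commutation
    intro w w' hw hw'
    obtain ⟨a1, a2, a3, a4⟩ := hΛ w hw
    obtain ⟨b1, b2, b3, b4⟩ := hΛ w' hw'
    have hw1 := hw.1
    let X : End ℂ H := Λ w * Λ w' - Λ w' * Λ w
    have hX𝔟 : X ∈ 𝔟 := by
      have := 𝔟.lie_mem a1 b1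
      rwa [LieRing.of_associative_ring_bracket] at this
    have hζa : ζ * Λ w = Λ w * ζ := by
      refine ext_of_internal hL1 fun m x hx => ?_
      change ζ (Λ w x) = Λ w (ζ x)
      rw [hζL m x hx, hζL m _ (a3 m x hx), map_smul]
    have hζb : ζ * Λ w' = Λ w' * ζ := by
      refine ext_of_internal hL1 fun m x hx => ?_
      change ζ (Λ w' x) = Λ w' (ζ x)
      rw [hζL m x hx, hζL m _ (b3 m x hx), map_smul]
    -- `D = δ - (n - ζ) / 2`
    let D : End ℂ H := δ - (1 / 2 : ℂ) • ((n : ℂ) • (1 : End ℂ H) - ζ)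
    have hDw : D * mw w - mw w * D = mw w := by
      have h1 := h.δmw hw1
      have h2 := hζc.1 w hw1
      change (δ - (1 / 2 : ℂ) • ((n : ℂ) • (1 : End ℂ H) - ζ)) * mw w -
        mw w * (δ - (1 / 2 : ℂ) • ((n : ℂ) • (1 : End ℂ H) - ζ)) = mw w
      rw [sub_mul, mul_sub, smul_mul_assoc, mul_smul_comm, sub_mul, mul_sub, smul_mul_assoc,
        mul_smul_comm, one_mul, mul_one, h1]
      change _ - (1 / 2 : ℂ) • ((n : ℂ) • mw w - ζ * mw w) -
        (_ - (1 / 2 : ℂ) • ((n : ℂ) • mw w - mw w * zt n δ w₀ f₀)) = _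
      rw [h2]
      abel
    have hwΛ : mw w * Λ w - Λ w * mw w = (2 : ℂ) • D := by
      refine ext_of_internal hL1 fun m x hx => ?_
      change w * Λ w x - Λ w (w * x) = (2 : ℂ) • (δ x - (1 / 2 : ℂ) • ((n : ℂ) • x - ζ x))
      rw [a4 m x hx, hζL m x hx, smul_sub, smul_smul, ← sub_smul]
      congr 1
      rw [← one_smul ℂ (((n : ℂ) - (n - m)) • x), smul_smul, smul_smul]
      norm_num
    have hDX : D * X - X * D = (-2 : ℂ) • X := by
      have h2 : ζ * X = X * ζ := by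
        change ζ * (Λ w * Λ w' - Λ w' * Λ w) = (Λ w * Λ w' - Λ w' * Λ w) * ζ
        rw [mul_sub, sub_mul, ← mul_assoc, ← mul_assoc, hζa, hζb, mul_assoc, mul_assoc, hζb, hζa,
          mul_assoc, mul_assoc]
      have h3 : δ * X - X * δ = (-2 : ℂ) • X := by
        have c1 : δ * Λ w = Λ w * δ - Λ w := by rw [sub_eq_iff_eq_add] at a2; rw [a2]; abel
        have c2 : δ * Λ w' = Λ w' * δ - Λ w' := by rw [sub_eq_iff_eq_add] at b2; rw [b2]; abel
        change δ * (Λ w * Λ w' - Λ w' * Λ w) - (Λ w * Λ w' - Λ w' * Λ w) * δ =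
          (-2 : ℂ) • (Λ w * Λ w' - Λ w' * Λ w)
        rw [mul_sub, ← mul_assoc, ← mul_assoc, c1, c2, sub_mul, sub_mul, mul_assoc, mul_assoc, c1,
          c2, mul_sub, mul_sub, sub_mul, mul_assoc, mul_assoc]
        module
      have h4 : ∀ Y : End ℂ H,
          D * Y - Y * D = (δ * Y - Y * δ) + (1 / 2 : ℂ) • (ζ * Y - Y * ζ) := by
        intro Y
        change (δ - (1 / 2 : ℂ) • ((n : ℂ) • (1 : End ℂ H) - ζ)) * Y -
          Y * (δ - (1 / 2 : ℂ) • ((n : ℂ) • (1 : End ℂ H) - ζ)) = _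
        rw [sub_mul, mul_sub, smul_mul_assoc, mul_smul_comm, sub_mul, mul_sub, smul_mul_assoc,
          mul_smul_comm, one_mul, mul_one]
        module
      rw [h4 X, h3, h2, sub_self, smul_zero, add_zero]
    -- the adjoint representation
    let e : End ℂ (End ℂ H) := LieAlgebra.ad ℂ (End ℂ H) (mw w)
    let g : End ℂ (End ℂ H) := LieAlgebra.ad ℂ (End ℂ H) (Λ w)
    let d : End ℂ (End ℂ H) := LieAlgebra.ad ℂ (End ℂ H) D
    have ev : ∀ Y, e Y = mw w * Y - Y * mw w := fun Y => by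
      change ⁅mw w, Y⁆ = _; rw [LieRing.of_associative_ring_bracket]
    have gv : ∀ Y, g Y = Λ w * Y - Y * Λ w := fun Y => by
      change ⁅Λ w, Y⁆ = _; rw [LieRing.of_associative_ring_bracket]
    have dv : ∀ Y, d Y = D * Y - Y * D := fun Y => by
      change ⁅D, Y⁆ = _; rw [LieRing.of_associative_ring_bracket]
    have k1 : ∀ Y, d (e Y) = e (d Y) + e Y := by
      intro Y
      rw [ev, ev, dv, dv]
      exact ad_aux hDw
    have k2 : ∀ Y, e (g Y) = g (e Y) + ((2 : ℂ) • d Y - (0 : ℂ) • Y + (0 : End ℂ (End ℂ H)) Y) := by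
      intro Y
      rw [LinearMap.zero_apply, zero_smul, sub_zero, add_zero, ev, gv, gv, ev, dv, smul_sub,
        ← smul_mul_assoc, ← mul_smul_comm, ← hwΛ]
      noncomm_ring
    have k3 : IsNilpotent e := by
      apply LieAlgebra.ad_nilpotent_of_nilpotent
      refine ⟨n + 1, ?_⟩
      ext x
      have hp : ∀ (j : ℕ) (x : H), ((mw w) ^ j) x = w ^ j * x := by
        intro j
        induction j with
        | zero => intro x; rw [pow_zero, pow_zero, one_mul]; rfl
        | succ j ih =>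
          intro x
          rw [pow_succ, pow_succ]
          change ((mw w) ^ j) (w * x) = _
          rw [ih, mul_assoc]
      have hwpow : ∀ j : ℕ, w ^ j ∈ dg j := by
        intro j
        induction j with
        | zero => rw [pow_zero]; exact h.one
        | succ j ih => rw [pow_succ]; exact h.mul _ _ _ ih _ hw1
      rw [hp, h.top (n + 1) (Nat.lt_succ_self n) _ (hwpow _), zero_mul]; rfl
    have hX0 : X = 0 := by
      refine LEF_inj (e := e) (g := g) (δ := d) (N := 0) (m := 0) (b := -2) (j := 4) k1 k2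
        (by rw [zero_mul, mul_zero]) IsNilpotent.zero k3 (by norm_num) (y := X) ?_ 4 le_rfl ?_
      · rw [dv]; exact hDX
      · -- `(ad w)^4 X` has degree `2` and lies in `𝔟`
        have hstep : ∀ i : ℕ, (e ^ i) X ∈ 𝔟 ∧
            δ * (e ^ i) X - (e ^ i) X * δ = ((i : ℂ) - 2) • (e ^ i) X := by
          intro i
          induction i with
          | zero =>
            refine ⟨hX𝔟, ?_⟩
            have c1 : δ * Λ w = Λ w * δ - Λ w := by rw [sub_eq_iff_eq_add] at a2; rw [a2]; abel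
            have c2 : δ * Λ w' = Λ w' * δ - Λ w' := by rw [sub_eq_iff_eq_add] at b2; rw [b2]; abel
            change δ * (Λ w * Λ w' - Λ w' * Λ w) - (Λ w * Λ w' - Λ w' * Λ w) * δ =
              (((0 : ℕ) : ℂ) - 2) • (Λ w * Λ w' - Λ w' * Λ w)
            rw [mul_sub, ← mul_assoc, ← mul_assoc, c1, c2, sub_mul, sub_mul, mul_assoc, mul_assoc,
              c1, c2, mul_sub, mul_sub, sub_mul, mul_assoc, mul_assoc, Nat.cast_zero]
            module
          | succ i ih =>
            obtain ⟨i1, i2⟩ := ih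
            have e1 : (e ^ (i + 1)) X = mw w * (e ^ i) X - (e ^ i) X * mw w := by
              rw [pow_succ']
              exact ev _
            generalize (e ^ i) X = Z at i1 i2 e1
            rw [e1]
            refine ⟨?_, ?_⟩
            · have := 𝔟.lie_mem (h.mul_mem w hw1) i1
              rwa [LieRing.of_associative_ring_bracket] at this
            · have h1 := h.δmw hw1
              have h2 : δ * Z = Z * δ + ((i : ℂ) - 2) • Z := by
                rw [sub_eq_iff_eq_add] at i2; rw [i2]; abel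
              have h3 : mw w * δ = δ * mw w - mw w := by rw [h1]; abel
              rw [mul_sub, ← mul_assoc, ← mul_assoc, h1, h2, add_mul, add_mul, mul_assoc (mw w) δ Z,
                h2, mul_add, sub_mul, mul_assoc Z δ, h1, mul_add, mul_assoc Z (mw w) δ,
                mul_smul_comm, smul_mul_assoc]
              push_cast
              simp only [mul_assoc]
              module
        obtain ⟨s1, s2⟩ := hstep 4
        refine h.two_part s1 ?_
        rw [s2]; norm_num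
    intro x
    have h5 := congrArg (fun Z : End ℂ H => Z x) hX0
    have h6 : Λ w (Λ w' x) - Λ w' (Λ w x) = 0 := h5
    exact sub_eq_zero.1 h6

end Pool.Agent.K6.H85.EV
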