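import Mathlib
import Pool.Agent.K6.H85.EV.StmR

/-!
# RNK: the ranks of the Lefschetz operators
-/

set_option autoImplicit false

namespace Pool.Agent.K6.H85.EV

open Module

private theorem rnk_sup {H : Type} [AddCommGroup H] [Module ℂ H] [FiniteDimensional ℂ H]
    (A B : ℕ → Submodule ℂ H) (hA : iSupIndep A) (hB : iSupIndep B)
    (h : ∀ m, finrank ℂ (A m) = finrank ℂ (B m)) :
    finrank ℂ (⨆ m, A m : Submodule ℂ H) = finrank ℂ (⨆ m, B m : Submodule ℂ H) := by
  classical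
  have key : ∀ C : ℕ → Submodule ℂ H, iSupIndep C →
      finrank ℂ (⨆ m, C m : Submodule ℂ H) = finrank ℂ (Π₀ m, C m) := by
    intro C hC
    have hinj := hC.dfinsupp_lsum_injective
    rw [Submodule.iSup_eq_range_dfinsupp_lsum]
    exact (LinearEquiv.ofInjective _ hinj).finrank_eq.symm
  rw [key A hA, key B hB]
  exact (DFinsupp.mapRange.linearEquiv fun m => LinearEquiv.ofFinrankEq _ _ (h m)).finrank_eq

private theorem rnk_pow {H : Type} [CommRing H] [Algebra ℂ H] (dg L : ℕ → Submodule ℂ H)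
    (hmul : ∀ i j, ∀ x ∈ dg i, ∀ y ∈ dg j, x * y ∈ dg (i + j)) (w : H) (hw1 : w ∈ dg 1)
    (hw : ∀ m, ∀ x ∈ L m, w * x ∈ L m) (m : ℕ) : ∀ j k : ℕ, ∀ x ∈ L m ⊓ dg k,
    w ^ j * x ∈ L m ⊓ dg (k + j) := by
  intro j
  induction j with
  | zero =>
    intro k x hx
    simpa using hx
  | succ j ih =>
    intro k x hx
    have h := ih k x hx
    rw [pow_succ', mul_assoc]
    refine ⟨hw m _ h.1, ?_⟩
    have h2 := hmul 1 (k + j) w hw1 _ h.2
    rwa [show 1 + (k + j) = k + (j + 1) by omega] at h2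

private theorem rnk_one {H : Type} [CommRing H] [Algebra ℂ H] [FiniteDimensional ℂ H]
    (dg L : ℕ → Submodule ℂ H)
    (hmul : ∀ i j, ∀ x ∈ dg i, ∀ y ∈ dg j, x * y ∈ dg (i + j)) (w : H) (hw1 : w ∈ dg 1)
    (hw : ∀ m, ∀ x ∈ L m, w * x ∈ L m) (hL : LefOn dg L w) (m k j : ℕ) :
    finrank ℂ ((L m ⊓ dg k).map (LinearMap.mulLeft ℂ (w ^ j))) =
      if 2 * k + j ≤ m then finrank ℂ (L m ⊓ dg k : Submodule ℂ H)
      else finrank ℂ (L m ⊓ dg (k + j) : Submodule ℂ H) := by
  split_ifs with h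
  · obtain ⟨-, hinj, -⟩ := (hL m k).1 (by omega)
    have hin : ∀ x ∈ (L m ⊓ dg k : Submodule ℂ H), ∀ y ∈ (L m ⊓ dg k : Submodule ℂ H),
        w ^ j * x = w ^ j * y → x = y := by
      intro x hx y hy hxy
      apply hinj hx hy
      have e : m - 2 * k = (m - 2 * k - j) + j := by omega
      change w ^ (m - 2 * k) * x = w ^ (m - 2 * k) * y
      rw [e, pow_add, mul_assoc, mul_assoc, hxy]
    have hinj2 : Function.Injective
        ((LinearMap.mulLeft ℂ (w ^ j)).domRestrict (L m ⊓ dg k : Submodule ℂ H)) := by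
      rintro ⟨x, hx⟩ ⟨y, hy⟩ hxy
      exact Subtype.ext (hin x hx y hy hxy)
    have h1 := LinearMap.finrank_range_of_inj hinj2
    rw [LinearMap.range_domRestrict] at h1
    exact h1
  · have hA : (L m ⊓ dg k).map (LinearMap.mulLeft ℂ (w ^ j)) = L m ⊓ dg (k + j) := by
      apply le_antisymm
      · rintro _ ⟨x, hx, rfl⟩
        exact rnk_pow dg L hmul w hw1 hw m j k x hx
      · by_cases hkm : m < k + j
        · rw [(hL m (k + j)).2 hkm]
          exact bot_le
        · intro y hy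
          obtain ⟨-, -, hs⟩ := (hL m (m - (k + j))).1 (by omega)
          have hy' : y ∈ (L m ⊓ dg (m - (m - (k + j))) : Submodule ℂ H) := by
            rwa [show m - (m - (k + j)) = k + j by omega]
          obtain ⟨x, hx, hxy⟩ := hs hy'
          refine ⟨w ^ (2 * k + j - m) * x, ?_, ?_⟩
          · have h3 := rnk_pow dg L hmul w hw1 hw m (2 * k + j - m) (m - (k + j)) x hx
            rwa [show m - (k + j) + (2 * k + j - m) = k by omega] at h3
          · change w ^ j * (w ^ (2 * k + j - m) * x) = y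
            rw [← hxy, ← mul_assoc, ← pow_add]
            congr 2
            omega
    rw [hA]

theorem t_RNK : S_RNK := by
  intro H _ _ _ dg L hint hdg hmul w hw1 w' hw1' hw hw' hLw hLw' k j
  have key : ∀ v : H, (dg k).map (LinearMap.mulLeft ℂ (v ^ j)) =
      ⨆ m, (L m ⊓ dg k).map (LinearMap.mulLeft ℂ (v ^ j)) := by
    intro v
    conv_lhs => rw [hdg k]
    rw [Submodule.map_iSup]
  have hind : ∀ v ∈ dg 1, (∀ m, ∀ x ∈ L m, v * x ∈ L m) →
      iSupIndep fun m => (L m ⊓ dg k).map (LinearMap.mulLeft ℂ (v ^ j)) := by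
    intro v hv1 hv
    refine hint.submodule_iSupIndep.mono fun m => ?_
    rintro _ ⟨x, hx, rfl⟩
    exact (rnk_pow dg L hmul v hv1 hv m j k x hx).1
  rw [key w, key w']
  refine rnk_sup _ _ (hind w hw1 hw) (hind w' hw1' hw') fun m => ?_
  rw [rnk_one dg L hmul w hw1 hw hLw, rnk_one dg L hmul w' hw1' hw' hLw']

end Pool.Agent.K6.H85.EV
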