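import Pool.Agent.K6.H85.EV.Geo
import Pool.Agent.K6.H85.EV.Rnk
import Pool.Agent.K6.H85.EV.Alg5

/-!
# The Lefschetz decomposition of the even cohomology
-/

set_option autoImplicit false
set_option linter.unusedSectionVars false

open scoped Manifold Topology

namespace Pool.Agent.K6.H85.EV

open H956GW Module Pool.Agent.Y348.GW Pool.Agent.K6.H85.GW

attribute [local instance 100] LieRing.ofAssociativeRing

variable {H : Type} [CommRing H] [Algebra ℂ H] {n : ℕ} {dg : ℕ → Submodule ℂ H}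

/-- the grading operator of `H` -/
theorem exists_δ (hint : DirectSum.IsInternal dg) :
    ∃ δ : End ℂ H, ∀ k : ℕ, ∀ x ∈ dg k, δ x = (k : ℂ) • x := by
  classical
  let e := LinearEquiv.ofBijective (DirectSum.coeLinearMap dg) hint
  let D : DirectSum ℕ (fun k => ↥(dg k)) →ₗ[ℂ] H :=
    DirectSum.toModule ℂ ℕ H (fun k => (k : ℂ) • (dg k).subtype)
  refine ⟨D ∘ₗ e.symm.toLinearMap, fun k x hx => ?_⟩
  have h1 : e (DirectSum.lof ℂ ℕ (fun k => ↥(dg k)) k ⟨x, hx⟩) = x := by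
    change DirectSum.coeLinearMap dg _ = x
    rw [DirectSum.coeLinearMap_lof]
  have h2 : e.symm x = DirectSum.lof ℂ ℕ (fun k => ↥(dg k)) k ⟨x, hx⟩ := by
    rw [LinearEquiv.symm_apply_eq]; exact h1.symm
  change D (e.symm x) = _
  rw [h2]
  simp only [D, DirectSum.toModule_lof]
  rfl

/-- **The Lefschetz decomposition.** -/
theorem main.{u₁, u₂, u₃, u₄} [Module.Finite ℂ H] (hn : 1 ≤ n)
    (hint : DirectSum.IsInternal dg) (hd0 : dg 0 = Submodule.span ℂ {1})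
    (hmul : ∀ i j, ∀ x ∈ dg i, ∀ y ∈ dg j, x * y ∈ dg (i + j))
    (hbot : ∀ k, n < k → ∀ x ∈ dg k, x = 0) (I : H →ₗ[ℂ] ℂ)
    (hI : ∀ k, k ≠ n → ∀ x ∈ dg k, I x = 0) (hI' : ∀ x ∈ dg n, I x = 0 → x = 0)
    (hPD : ∀ x : H, (∀ y : H, I (x * y) = 0) → x = 0)
    (w₀ : H) (hw₀ : w₀ ∈ dg 1) (hw₀n : I (w₀ ^ n) ≠ 0)
    (B : Type) [AddCommGroup B] (g : GWNumbers B H) (hg : g.IsAspherical I)
    (A : H → H → H → H) (hA : IsGWConnection I (dg 1) g.prepotential A)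
    (S : Type) [NormedAddCommGroup S] [NormedSpace ℂ S] (c : S ≃ₗ[ℂ] dg 1) (t₀ : S)
    (hloc : IsLocallySubquotientOfSemisimple.{u₁, u₂, u₃, u₄}
      (fun t v h => A (c t) (c v) h) (filt dg) t₀) :
    ∃ (L : ℕ → Submodule ℂ H) (Λ : H → End ℂ H), DirectSum.IsInternal L ∧
      (∀ k, dg k = ⨆ m, L m ⊓ dg k) ∧
      (∀ m, ∀ v ∈ dg 1, ∀ x ∈ L m, v * x ∈ L m) ∧
      Subalgebra.toSubmodule (Algebra.adjoin ℂ (dg 1 : Set H)) ≤ L n ∧
      (∀ w ∈ dg 1, I (w ^ n) ≠ 0 → LefOn dg L w) ∧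
      (∀ w ∈ dg 1, I (w ^ n) ≠ 0 → IsDual dg L w (Λ w)) ∧
      (∀ w ∈ dg 1, ∀ w' ∈ dg 1, I (w ^ n) ≠ 0 → I (w' ^ n) ≠ 0 → ∀ x, Λ w (Λ w' x) = Λ w' (Λ w x)) ∧
      ∀ w ∈ dg 1, ∀ w' ∈ dg 1, I (w ^ n) ≠ 0 → I (w' ^ n) ≠ 0 → ∀ k j : ℕ,
        finrank ℂ ((dg k).map (LinearMap.mulLeft ℂ (w ^ j))) =
          finrank ℂ ((dg k).map (LinearMap.mulLeft ℂ (w' ^ j))) := by
  -- Poincaré duality for the subring
  have hpdR : ∀ b ∈ Algebra.adjoin ℂ (dg 1 : Set H),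
      (∀ a ∈ Algebra.adjoin ℂ (dg 1 : Set H), I (a * b) = 0) → b = 0 := by
    intro b hb hab
    by_contra hb0
    exact criterion.{u₁, u₂, u₃, u₄} hd0 hmul hbot I hI hI' hPD w₀ hw₀ hw₀n b hb hb0 hab B g hg A
      hA S c t₀ hloc
  obtain ⟨G, _, _, M, _, _, _, _, Γ, _, _, E, _, _, E', _, _, X, Y, m₀, hX, hY, hloc⟩ := hloc
  have h10 : (1 : H) ∈ dg 0 := by rw [hd0]; exact Submodule.mem_span_singleton_self _
  have : FiniteDimensional ℂ E' := by
    obtain ⟨-, T, -⟩ := hloc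
    exact LinearEquiv.finiteDimensional (T t₀)
  obtain ⟨δ, hδ⟩ := exists_δ hint
  let c' : S →ₗ[ℂ] H := (dg 1).subtype ∘ₗ c.toLinearMap
  have hc' : ∀ v, c' v ∈ dg 1 := fun v => (c v).2
  have hrange : Set.range c' = (dg 1 : Set H) := by
    ext x
    constructor
    · rintro ⟨v, rfl⟩; exact hc' v
    · intro hx
      refine ⟨c.symm ⟨x, hx⟩, ?_⟩
      change ((c (c.symm ⟨x, hx⟩) : dg 1) : H) = x
      rw [c.apply_symm_apply]
  have hrange' : LinearMap.range c' = dg 1 := SetLike.coe_injective hrange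
  have hRs : Rsub c' = Algebra.adjoin ℂ (dg 1 : Set H) := by
    change Algebra.adjoin ℂ (Set.range c') = _
    rw [hrange]
  obtain ⟨𝔟, 𝔞, 𝒢, hEv, hN, hlift𝔞, hmulA, hδA, hone⟩ := exists_stab G M Γ E' hn hint hd0 hmul
    hbot δ hδ c' hrange' (fun t v h => A (c t) (c v) h)
    (fun t v h => connection_eq g hg hPD hA (c t).2 (c v).2 h) t₀ Y
    (hX.subquotient hY) m₀ hloc
  -- the graded ring
  have hfinR : FiniteDimensional ℂ (Rsub c') :=
    inferInstanceAs (FiniteDimensional ℂ (Subalgebra.toSubmodule (Rsub c')))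
  let V' : Submodule ℂ (Rsub c') := LinearMap.range (cRmap c')
  let I' : Rsub c' →ₗ[ℂ] ℂ := I ∘ₗ (Rsub c').val.toLinearMap
  have hgen : ⨆ k : ℕ, V' ^ k = ⊤ := gen_of_adjoin c'
  have hVdg : ∀ k : ℕ, ∀ x ∈ V' ^ k, (x : H) ∈ dg k := by
    intro k
    induction k with
    | zero =>
      intro x hx
      rw [pow_zero] at hx
      obtain ⟨z, rfl⟩ := Submodule.mem_one.1 hx
      change algebraMap ℂ H z ∈ dg 0
      rw [Algebra.algebraMap_eq_smul_one]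
      exact (dg 0).smul_mem _ h10
    | succ k ih =>
      intro x hx
      rw [pow_succ] at hx
      refine Submodule.mul_induction_on hx ?_ ?_
      · rintro a ha _ ⟨v, rfl⟩
        exact hmul _ _ _ (ih a ha) _ (hc' v)
      · intro a b ha hb
        exact (dg (k + 1)).add_mem ha hb
  have hI0 : ∀ k : ℕ, k ≠ n → ∀ x ∈ V' ^ k, I' x = 0 := fun k hk x hx => hI k hk _ (hVdg k x hx)
  have hpd' : ∀ x : Rsub c', (∀ y, I' (x * y) = 0) → x = 0 := by
    intro x hx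
    apply Subtype.ext
    apply hpdR _ (by rw [← hRs]; exact x.2)
    intro a ha
    have h1 := hx ⟨a, by rw [hRs]; exact ha⟩
    rw [mul_comm] at h1
    exact h1
  -- the grading operator of the subring
  have hδR : ∀ r ∈ Subalgebra.toSubmodule (Rsub c'), δ r ∈ Subalgebra.toSubmodule (Rsub c') := by
    rw [hRs]; exact hEv.δR
  let δR : End ℂ (Rsub c') := δ.restrict hδR
  have hδRv : ∀ r : Rsub c', ((δR r : Rsub c') : H) = δ r := fun r => rfl
  have hset : Setup V' n δR I' 𝔞 :=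
    { gen := hgen
      top := fun k hk => by
        rw [eq_bot_iff]
        intro x hx
        rw [Submodule.mem_bot]
        exact Subtype.ext (hbot k hk _ (hVdg k x hx))
      δV := fun k x hx => by
        apply Subtype.ext
        rw [hδRv, hδ k _ (hVdg k x hx)]
        rfl
      I0 := hI0
      pd := hpd'
      mem_mul := by
        rintro _ ⟨v, rfl⟩
        exact hmulA v
      mem_δ := hδA δR hδRv
      one_mem := hone
      nil := fun X hX hXn hXt => hN.eq_zero_of_isNilpotent hX hXt hXn }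
  -- the good classes
  have hgood : ∀ w ∈ dg 1, I (w ^ n) ≠ 0 → Good n dg δ 𝔟 w := by
    intro w hw hwn
    obtain ⟨u, hu, huw⟩ : ∃ u ∈ V', (u : H) = w := by
      obtain ⟨v, hv⟩ : w ∈ Set.range c' := by rw [hrange]; exact hw
      exact ⟨cRmap c' v, ⟨v, rfl⟩, hv⟩
    have hun : I' (u ^ n) ≠ 0 := by
      change I (((u ^ n : Rsub c') : H)) ≠ 0
      rw [Subalgebra.coe_pow, huw]
      exact hwn
    obtain ⟨f, hf, hfd, hfw⟩ := hset.exists_dual hn hu hun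
    obtain ⟨F, hF, hFf⟩ := hlift𝔞 f hf
    refine ⟨hw, F, hF, fun r hr => ?_, fun r hr => ?_⟩
    · have hr' : r ∈ Rsub c' := by rw [hRs]; exact hr
      have h1 := congrArg (fun Z : End ℂ (Rsub c') => ((Z ⟨r, hr'⟩ : Rsub c') : H)) hfd
      have h2 : δ ((f ⟨r, hr'⟩ : Rsub c') : H) - ((f (δR ⟨r, hr'⟩) : Rsub c') : H) =
          (-1 : ℂ) • ((f ⟨r, hr'⟩ : Rsub c') : H) := h1
      rw [← hFf, ← hFf] at h2
      rw [neg_one_smul] at h2
      exact h2
    · have hr' : r ∈ Rsub c' := by rw [hRs]; exact hr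
      have h1 := congrArg (fun Z : End ℂ (Rsub c') => ((Z ⟨r, hr'⟩ : Rsub c') : H)) hfw
      have h2 : (u : H) * ((f ⟨r, hr'⟩ : Rsub c') : H) - ((f (u * ⟨r, hr'⟩) : Rsub c') : H) =
          (2 : ℂ) • δ r - (n : ℂ) • r := h1
      rw [← hFf, ← hFf, Subalgebra.coe_mul, huw] at h2
      exact h2
  obtain ⟨L, Λ, hL1, hL2, hL3, hL4, hL5, hΛ1, hΛ2⟩ := hEv.main2 (hgood w₀ hw₀ hw₀n)
  refine ⟨L, Λ, hL1, hL2, hL3, hL4, fun w hw hwn => hL5 w (hgood w hw hwn),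
    fun w hw hwn => hΛ1 w (hgood w hw hwn),
    fun w hw w' hw' hwn hwn' => hΛ2 w w' (hgood w hw hwn) (hgood w' hw' hwn'), ?_⟩
  intro w hw w' hw' hwn hwn' k j
  exact t_RNK H dg L hL1 hL2 hmul w hw w' hw' (fun m => hL3 m w hw) (fun m => hL3 m w' hw')
    (hL5 w (hgood w hw hwn)) (hL5 w' (hgood w' hw' hwn')) k j

end Pool.Agent.K6.H85.EV
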