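import Pool.Agent.K6.H85.EV.Stm

/-!
# Piece IDT (helper84): identity theorem for functions on pairs of sections
-/

set_option autoImplicit false

open scoped Manifold Topology

namespace Pool.Agent.K6.H85.EV

open H956GW Module Pool.Agent.K6.H85.GW

universe u v w

namespace IDT

theorem frame {G : Type u} [NormedAddCommGroup G] [NormedSpace ℂ G] {M : Type v}
    [TopologicalSpace M] [ChartedSpace G M] [IsManifold 𝓘(ℂ, G) 1 M]
    {E : Type w} [NormedAddCommGroup E] [NormedSpace ℂ E] [CompleteSpace E]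
    (e : OpenPartialHomeomorph M G) (he : MDifferentiableOn 𝓘(ℂ, G) 𝓘(ℂ, G) e.symm e.target)
    {U₁ : Set M} {g₁ : M → E →L[ℂ] E}
    (hg₁ : MDifferentiableOn 𝓘(ℂ, G) 𝓘(ℂ, E →L[ℂ] E) g₁ U₁) (c : E) {z : G}
    (hz : z ∈ e.target) (hn1 : U₁ ∈ 𝓝 (e.symm z)) (hu : IsUnit (g₁ (e.symm z))) :
    DifferentiableAt ℂ (fun z => Ring.inverse (g₁ (e.symm z)) c) z := by
  have hzU : e.symm z ∈ U₁ := mem_of_mem_nhds hn1
  have h1 : MDifferentiableAt 𝓘(ℂ, G) 𝓘(ℂ, G) e.symm z :=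
    (he z hz).mdifferentiableAt (e.open_target.mem_nhds hz)
  have h2 : MDifferentiableAt 𝓘(ℂ, G) 𝓘(ℂ, E →L[ℂ] E) g₁ (e.symm z) :=
    (hg₁ _ hzU).mdifferentiableAt hn1
  have h3 : MDifferentiableAt 𝓘(ℂ, G) 𝓘(ℂ, E →L[ℂ] E) (g₁ ∘ e.symm) z :=
    MDifferentiableAt.comp z h2 h1
  have h4 : DifferentiableAt ℂ (g₁ ∘ e.symm) z := mdifferentiableAt_iff_differentiableAt.1 h3
  obtain ⟨v, hv⟩ := hu
  have h5 : DifferentiableAt ℂ (fun z => Ring.inverse (g₁ (e.symm z))) z := by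
    have h6 : DifferentiableAt ℂ (Ring.inverse : (E →L[ℂ] E) → (E →L[ℂ] E))
        ((g₁ ∘ e.symm) z) := by
      change DifferentiableAt ℂ _ (g₁ (e.symm z))
      rw [← hv]
      exact differentiableAt_inverse (𝕜 := ℂ) v.isUnit
    exact h6.comp z h4
  exact h5.clm_apply (differentiableAt_const _)

end IDT

theorem t_IDT : S_IDT.{u, v, w} := by
  intro G _ _ M _ _ _ _ E _ _ _ F F' hF hF' P hP V hV hne h m
  have : CompleteSpace E := FiniteDimensional.complete ℂ E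
  let Z : Set M := {m | ∀ᶠ m' in 𝓝 m, ∀ x : E × E, x.1 ∈ F m' → x.2 ∈ F' m' → P x = 0}
  have hZo : IsOpen Z := isOpen_setOfPred_eventually_nhds
  have hVZ : V ⊆ Z := fun m hm => Filter.mem_of_superset (hV.mem_nhds hm) h
  have hZc : IsClosed Z := by
    refine isClosed_of_closure_subset ?_
    intro m₀ hm₀
    obtain ⟨U₁, hU₁, g₁, hg₁, hgU₁⟩ := hF m₀
    obtain ⟨U₂, hU₂, g₂, hg₂, hgU₂⟩ := hF' m₀
    let U := U₁ ∩ U₂
    have hU : U ∈ 𝓝 m₀ := Filter.inter_mem hU₁ hU₂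
    let e := chartAt G m₀
    let O : Set G := e.target ∩ e.symm ⁻¹' (interior U)
    have hO : IsOpen O := e.isOpen_inter_preimage_symm isOpen_interior
    have hm₀s : m₀ ∈ e.source := mem_chart_source _ _
    have hm₀O : e m₀ ∈ O := by
      refine ⟨e.map_source hm₀s, ?_⟩
      change e.symm (e m₀) ∈ interior U
      rw [e.left_inv hm₀s]
      exact mem_interior_iff_mem_nhds.2 hU
    obtain ⟨r, hr, hBO⟩ := Metric.isOpen_iff.1 hO (e m₀) hm₀O
    let B := Metric.ball (e m₀) r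
    let W : Set M := e.source ∩ e ⁻¹' B
    have hWo : IsOpen W := e.isOpen_inter_preimage Metric.isOpen_ball
    have hm₀W : m₀ ∈ W := ⟨hm₀s, Metric.mem_ball_self hr⟩
    have hWU : W ⊆ interior U := by
      intro m hm
      have := (hBO hm.2).2
      change e.symm (e m) ∈ interior U at this
      rwa [e.left_inv hm.1] at this
    obtain ⟨m₁, hm₁W, hm₁Z⟩ := mem_closure_iff.1 hm₀ W hWo hm₀W
    have hes : MDifferentiableOn 𝓘(ℂ, G) 𝓘(ℂ, G) e.symm e.target := fun z hz =>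
      (mdifferentiableAt_atlas_symm (chart_mem_atlas _ _) hz).mdifferentiableWithinAt
    have key : ∀ m ∈ W, ∀ x : E × E, x.1 ∈ F m → x.2 ∈ F' m → P x = 0 := by
      intro m hm x hx hx'
      have hmU : m ∈ U := interior_subset (hWU hm)
      have hu₀ : g₁ m x.1 ∈ F m₀ := ((hgU₁ m hmU.1).2 x.1).1 hx
      have hu₀' : g₂ m x.2 ∈ F' m₀ := ((hgU₂ m hmU.2).2 x.2).1 hx'
      -- the holomorphic function
      let k : G → ℂ := fun z => P (Ring.inverse (g₁ (e.symm z)) (g₁ m x.1),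
        Ring.inverse (g₂ (e.symm z)) (g₂ m x.2))
      have hk : DifferentiableOn ℂ k B := by
        intro z hz
        have hzO := hBO hz
        have hzU : e.symm z ∈ U := interior_subset hzO.2
        have hint : interior U ∈ 𝓝 (e.symm z) := isOpen_interior.mem_nhds hzO.2
        have hn1 : U₁ ∈ 𝓝 (e.symm z) :=
          Filter.mem_of_superset hint (interior_subset.trans Set.inter_subset_left)
        have hn2 : U₂ ∈ 𝓝 (e.symm z) :=
          Filter.mem_of_superset hint (interior_subset.trans Set.inter_subset_right)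
        have h7 := IDT.frame e hes hg₁ (g₁ m x.1) hzO.1 hn1 (hgU₁ _ hzU.1).1
        have h8 := IDT.frame e hes hg₂ (g₂ m x.2) hzO.1 hn2 (hgU₂ _ hzU.2).1
        have h9 := h7.prodMk h8
        exact ((hP _).comp z h9).differentiableWithinAt
      have hz₁ : e m₁ ∈ B := hm₁W.2
      have h0 : ∀ᶠ z in 𝓝 (e m₁), k z = 0 := by
        have ht : Filter.Tendsto e.symm (𝓝 (e m₁)) (𝓝 m₁) := e.tendsto_symm hm₁W.1
        have hev : ∀ᶠ m' in 𝓝 m₁, m' ∈ U ∧
            ∀ x : E × E, x.1 ∈ F m' → x.2 ∈ F' m' → P x = 0 := by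
          refine Filter.Eventually.and ?_ hm₁Z
          exact mem_interior_iff_mem_nhds.1 (hWU hm₁W)
        filter_upwards [ht.eventually hev] with z hz
        have g1 : g₁ (e.symm z) (Ring.inverse (g₁ (e.symm z)) (g₁ m x.1)) = g₁ m x.1 := by
          obtain ⟨v, hv⟩ := (hgU₁ _ hz.1.1).1
          rw [← hv, Ring.inverse_unit]
          change ((v : E →L[ℂ] E) * (v⁻¹ : (E →L[ℂ] E)ˣ)) (g₁ m x.1) = g₁ m x.1
          rw [Units.mul_inv]
          rfl
        have g2 : g₂ (e.symm z) (Ring.inverse (g₂ (e.symm z)) (g₂ m x.2)) = g₂ m x.2 := by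
          obtain ⟨v, hv⟩ := (hgU₂ _ hz.1.2).1
          rw [← hv, Ring.inverse_unit]
          change ((v : E →L[ℂ] E) * (v⁻¹ : (E →L[ℂ] E)ˣ)) (g₂ m x.2) = g₂ m x.2
          rw [Units.mul_inv]
          rfl
        have h2 : Ring.inverse (g₁ (e.symm z)) (g₁ m x.1) ∈ F (e.symm z) := by
          rw [(hgU₁ _ hz.1.1).2, g1]
          exact hu₀
        have h2' : Ring.inverse (g₂ (e.symm z)) (g₂ m x.2) ∈ F' (e.symm z) := by
          rw [(hgU₂ _ hz.1.2).2, g2]
          exact hu₀'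
        exact hz.2 _ h2 h2'
      have h1 := eq_zero_of_eventually_zero Metric.isOpen_ball (convex_ball _ _) hk hz₁ h0 hm.2
      have h2 : e.symm (e m) = m := e.left_inv hm.1
      have h3 : Ring.inverse (g₁ m) (g₁ m x.1) = x.1 := by
        obtain ⟨v, hv⟩ := (hgU₁ _ hmU.1).1
        rw [← hv, Ring.inverse_unit]
        change ((v⁻¹ : (E →L[ℂ] E)ˣ) * (v : E →L[ℂ] E)) x.1 = x.1
        rw [Units.inv_mul]
        rfl
      have h3' : Ring.inverse (g₂ m) (g₂ m x.2) = x.2 := by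
        obtain ⟨v, hv⟩ := (hgU₂ _ hmU.2).1
        rw [← hv, Ring.inverse_unit]
        change ((v⁻¹ : (E →L[ℂ] E)ˣ) * (v : E →L[ℂ] E)) x.2 = x.2
        rw [Units.inv_mul]
        rfl
      simpa only [k, h2, h3, h3'] using h1
    exact Filter.mem_of_superset (hWo.mem_nhds hm₀W) key
  have hZ : Z = Set.univ := IsClopen.eq_univ ⟨hZc, hZo⟩ (hne.mono hVZ)
  have : m ∈ Z := by rw [hZ]; trivial
  exact this.self_of_nhds

end Pool.Agent.K6.H85.EV
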