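import Pool.Agent.K6.H85.EV.Stm

/-!
# STB: the tangent endomorphisms form a Lie algebra
-/

set_option autoImplicit false

open scoped Manifold Topology ContDiff

namespace Pool.Agent.K6.H85.EV

open H956GW Module Pool.Agent.K6.H85.GW

universe u v

namespace STB

variable {E : Type u} [NormedAddCommGroup E] [NormedSpace ℂ E] [FiniteDimensional ℂ E]

/-- the endomorphism acting on pairs -/
noncomputable def La (X : End ℂ E) : (E × E) →L[ℂ] (E × E) :=
  (LinearMap.toContinuousLinearMap X).prodMap (LinearMap.toContinuousLinearMap X)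

theorem La_apply (X : End ℂ E) (x : E × E) : La X x = (X x.1, X x.2) := rfl

theorem contDiff_Q (Y : End ℂ E) {P : E × E → ℂ} (hP : ContDiff ℂ ∞ P) :
    ContDiff ℂ ∞ (fun x => fderiv ℂ P x (La Y x)) :=
  (hP.fderiv_right (m := ∞) (by simp)).clm_apply (La Y).contDiff

theorem fderiv_Q (Y : End ℂ E) {P : E × E → ℂ} (hP : ContDiff ℂ ∞ P) (x v : E × E) :
    fderiv ℂ (fun x => fderiv ℂ P x (La Y x)) x v =
      fderiv ℂ P x (La Y v) + fderiv ℂ (fderiv ℂ P) x v (La Y x) := by
  have h1 : DifferentiableAt ℂ (fderiv ℂ P) x :=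
    ((hP.fderiv_right (m := ∞) (by simp)).differentiable (by simp)) x
  rw [fderiv_clm_apply h1 (La Y).differentiableAt]
  simp

end STB

open STB in
theorem t_STB : S_STB.{u, v} := by
  intro E _ _ _ ι 𝒮
  refine ⟨?_, ?_, ?_, ?_⟩
  · intro X Y hX hY i P hP h0 x hx
    have h1 : ((X + Y) x.1, (X + Y) x.2) = (X x.1, X x.2) + (Y x.1, Y x.2) := rfl
    rw [h1, map_add, hX i P hP h0 x hx, hY i P hP h0 x hx, add_zero]
  · intro a X hX i P hP h0 x hx
    have h1 : ((a • X) x.1, (a • X) x.2) = a • (X x.1, X x.2) := rfl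
    rw [h1, map_smul, hX i P hP h0 x hx, smul_zero]
  · intro X Y hX hY i P hP h0 x hx
    have hxy := hX i _ (contDiff_Q Y hP) (fun z hz => hY i P hP h0 z hz) x hx
    have hyx := hY i _ (contDiff_Q X hP) (fun z hz => hX i P hP h0 z hz) x hx
    rw [← La_apply, fderiv_Q Y hP] at hxy
    rw [← La_apply, fderiv_Q X hP] at hyx
    have hsym : fderiv ℂ (fderiv ℂ P) x (La X x) (La Y x) =
        fderiv ℂ (fderiv ℂ P) x (La Y x) (La X x) := by
      have := (hP.contDiffAt (x := x)).isSymmSndFDerivAt
        (by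
          rw [minSmoothness_of_isRCLikeNormedField]
          exact WithTop.coe_le_coe.2 (le_top : (2 : ℕ∞) ≤ ⊤))
      exact this _ _
    have h1 : ((X * Y - Y * X) x.1, (X * Y - Y * X) x.2) = La X (La Y x) - La Y (La X x) := rfl
    rw [h1, map_sub]
    linear_combination hyx - hxy + hsym
  · intro g hg X hX i P hP h0 x hx
    set y : E × E := (g.symm x.1, g.symm x.2) with hy
    have hgy : La g.toLinearMap y = x := by
      rw [La_apply, hy]
      simp
    have hyS : y ∈ 𝒮 i := by
      rw [← hg i y]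
      have : (g y.1, g y.2) = La g.toLinearMap y := rfl
      rw [this, hgy]
      exact hx
    have hP' : ContDiff ℂ ∞ (fun z => P (La g.toLinearMap z)) :=
      hP.comp (La g.toLinearMap).contDiff
    have key := hX i _ hP' (fun z hz => h0 _ ((hg i z).2 hz)) y hyS
    have hd : DifferentiableAt ℂ P (La g.toLinearMap y) := hP.differentiable (by simp) _
    have hc : fderiv ℂ (fun z => P (La g.toLinearMap z)) y =
        (fderiv ℂ P (La g.toLinearMap y)).comp (La g.toLinearMap) := by
      have := fderiv_comp (g := P) y hd (La g.toLinearMap).differentiableAt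
      rw [ContinuousLinearMap.fderiv] at this
      exact this
    rw [hc, hgy] at key
    exact key

end Pool.Agent.K6.H85.EV
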