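import Pool.Agent.K6.H85.EV.Stm

/-!
# TAN: polynomials detecting the endomorphisms which are not tangent
-/

set_option autoImplicit false

open scoped Manifold Topology ContDiff

namespace Pool.Agent.K6.H85.EV

open H956GW Module Pool.Agent.K6.H85.GW

universe u

namespace TAN

variable {H : Type} [CommRing H] [Algebra ℂ H]

theorem exists_proj {dg : ℕ → Submodule ℂ H} (hint : DirectSum.IsInternal dg) (i : ℕ) :
    ∃ π : End ℂ H, (∀ x, π x ∈ dg i) ∧ (∀ x ∈ dg i, π x = x) ∧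
      ∀ j, j ≠ i → ∀ x ∈ dg j, π x = 0 := by
  let e : (DirectSum ℕ fun i => dg i) ≃ₗ[ℂ] H :=
    LinearEquiv.ofBijective (DirectSum.coeLinearMap dg) hint
  have he : ∀ j (x : dg j), e.symm (x : H) = DirectSum.lof ℂ ℕ (fun i => dg i) j x := by
    intro j x
    rw [LinearEquiv.symm_apply_eq]
    exact (DirectSum.coeLinearMap_lof dg j x).symm
  refine ⟨(dg i).subtype ∘ₗ DirectSum.component ℂ ℕ (fun i => dg i) i ∘ₗ e.symm.toLinearMap,
    fun x => Submodule.coe_mem _, fun x hx => ?_, fun j hj x hx => ?_⟩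
  · have := he i ⟨x, hx⟩
    simp only [LinearMap.comp_apply, LinearEquiv.coe_coe]
    rw [show e.symm x = _ from this, DirectSum.component.lof_self]
    rfl
  · have := he j ⟨x, hx⟩
    simp only [LinearMap.comp_apply, LinearEquiv.coe_coe]
    rw [show e.symm x = _ from this, DirectSum.component.of]
    simp [hj]

theorem ex_neg_mul_ex (n : ℕ) (u : H) (hu : u ^ (n + 1) = 0) : ex n (-u) * ex n u = 1 := by
  let _ : Algebra ℚ H := Algebra.compHom H (algebraMap ℚ ℂ)
  have key : ∀ v : H, v ^ (n + 1) = 0 → ex n v = IsNilpotent.exp v := by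
    intro v hv
    rw [IsNilpotent.exp_eq_sum hv, ex]
    refine Finset.sum_congr rfl fun k _ => ?_
    have : ((k.factorial : ℚ)⁻¹ : ℚ) • v ^ k = (algebraMap ℚ ℂ ((k.factorial : ℚ)⁻¹)) • v ^ k := rfl
    rw [this]
    simp
  rw [key u hu, key (-u) (by rw [neg_pow, hu, mul_zero])]
  exact IsNilpotent.exp_neg_mul_exp_self ⟨n + 1, hu⟩

/-- the polynomial on `H` -/
noncomputable def PH (n : ℕ) (c0 l : H →ₗ[ℂ] ℂ) (c1 : End ℂ H) (a y : H) : ℂ :=
  ∑ k ∈ Finset.range (n + 1),
    ((-1) ^ k * (k.factorial : ℂ)⁻¹) * (c0 a) ^ (n - k) * l (c1 a ^ k * y)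

theorem contDiff_PH {E : Type u} [NormedAddCommGroup E] [NormedSpace ℂ E] [FiniteDimensional ℂ E]
    (T : H ≃ₗ[ℂ] E) (n : ℕ) (c0 l : H →ₗ[ℂ] ℂ) (c1 : End ℂ H) :
    ContDiff ℂ ∞ (fun z : E × E => PH n c0 l c1 (T.symm z.1) (T.symm z.2)) := by
  let Alin : E →ₗ[ℂ] (E →L[ℂ] E) :=
    { toFun := fun s => LinearMap.toContinuousLinearMap
        (T.toLinearMap ∘ₗ LinearMap.mulLeft ℂ (c1 (T.symm s)) ∘ₗ T.symm.toLinearMap)
      map_add' := fun s s' => by
        ext t
        simp [add_mul]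
      map_smul' := fun a s => by
        ext t
        simp }
  let A : E →L[ℂ] (E →L[ℂ] E) := LinearMap.toContinuousLinearMap Alin
  have hA : ∀ s t, A s t = T (c1 (T.symm s) * T.symm t) := fun s t => rfl
  have hAk : ∀ (k : ℕ) s t, ((A s) ^ k) t = T (c1 (T.symm s) ^ k * T.symm t) := by
    intro k s
    induction k with
    | zero => intro t; simp
    | succ k ih =>
      intro t
      rw [pow_succ, mul_apply_eq_comp, ih, hA, LinearEquiv.symm_apply_apply,
        ← mul_assoc, pow_succ]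
  let c0' : E →L[ℂ] ℂ := LinearMap.toContinuousLinearMap (c0 ∘ₗ T.symm.toLinearMap)
  let l' : E →L[ℂ] ℂ := LinearMap.toContinuousLinearMap (l ∘ₗ T.symm.toLinearMap)
  have hP : (fun z : E × E => PH n c0 l c1 (T.symm z.1) (T.symm z.2)) = fun z : E × E =>
      ∑ k ∈ Finset.range (n + 1), ((-1) ^ k * (k.factorial : ℂ)⁻¹) * (c0' z.1) ^ (n - k) *
        l' (((A z.1) ^ k) z.2) := by
    funext z
    refine Finset.sum_congr rfl fun k _ => ?_
    rw [hAk]
    simp [c0', l']
  rw [hP]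
  refine ContDiff.sum fun k _ => ?_
  exact (contDiff_const.mul ((c0'.contDiff.comp contDiff_fst).pow (n - k))).mul
    (l'.contDiff.comp (((A.contDiff.comp contDiff_fst).pow k).clm_apply contDiff_snd))

theorem hasDeriv_term (c α β γ : ℂ) (j k : ℕ) :
    HasDerivAt (fun τ : ℂ => c * (1 + τ * α) ^ j * (τ ^ k * (β + τ * γ)))
      (c * (j * α) * (0 ^ k * β) + c * (k * 0 ^ (k - 1) * β + 0 ^ k * γ)) 0 := by
  have hA : HasDerivAt (fun τ : ℂ => (1 + τ * α) ^ j) (j * α) 0 := by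
    have := (((hasDerivAt_id' (0 : ℂ)).mul_const α).const_add 1).fun_pow j
    refine this.congr_deriv ?_
    simp
  have hB : HasDerivAt (fun τ : ℂ => τ ^ k) (k * 0 ^ (k - 1)) 0 := by
    simpa using hasDerivAt_pow k (0 : ℂ)
  have hC : HasDerivAt (fun τ : ℂ => β + τ * γ) γ 0 := by
    have := ((hasDerivAt_id' (0 : ℂ)).mul_const γ).const_add β
    simpa using this
  have := (hA.const_mul c).fun_mul (hB.fun_mul hC)
  refine this.congr_deriv ?_
  simp

theorem deriv_PH (m : ℕ) (c0 l : H →ₗ[ℂ] ℂ) (c1 : End ℂ H) (a b h y : H) (x : H)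
    (ha : c0 a = 1) (ha1 : c1 a = 0) (hb : c1 b = x) (hl : l h = 0) :
    HasDerivAt (fun τ : ℂ => PH (m + 1) c0 l c1 (a + τ • b) (h + τ • y)) (l (y - x * h)) 0 := by
  have h1 : (fun τ : ℂ => PH (m + 1) c0 l c1 (a + τ • b) (h + τ • y)) = fun τ : ℂ =>
      ∑ k ∈ Finset.range (m + 1 + 1), ((-1) ^ k * (k.factorial : ℂ)⁻¹) *
        (1 + τ * c0 b) ^ (m + 1 - k) * (τ ^ k * (l (x ^ k * h) + τ * l (x ^ k * y))) := by
    funext τ
    refine Finset.sum_congr rfl fun k _ => ?_
    rw [map_add, map_smul, ha, map_add, map_smul, ha1, hb, zero_add, smul_eq_mul, smul_pow,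
      smul_mul_assoc, map_smul, smul_eq_mul, mul_add, map_add, mul_smul_comm, map_smul,
      smul_eq_mul]
  rw [h1]
  have h2 := HasDerivAt.fun_sum (u := Finset.range (m + 1 + 1)) (fun k _ => hasDeriv_term
    ((-1) ^ k * (k.factorial : ℂ)⁻¹) (c0 b) (l (x ^ k * h)) (l (x ^ k * y)) (m + 1 - k) k)
  refine h2.congr_deriv ?_
  rw [Finset.sum_range_succ', Finset.sum_range_succ', Finset.sum_eq_zero]
  · simp [hl, map_sub]
    ring
  · intro k _
    simp

end TAN

open TAN in
theorem t_TAN : S_TAN.{u} := by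
  intro H _ _ _ E _ _ T n dg hn hint h0 hmul htop X
  have : FiniteDimensional ℂ E := T.finiteDimensional
  obtain ⟨π1, p1, p2, p3⟩ := exists_proj hint 1
  obtain ⟨π0, q1, q2, q3⟩ := exists_proj hint 0
  refine ⟨π1 (X 1), p1 _, fun F h hh hX => ?_⟩
  have hne : (1 : H) ≠ 0 := by
    intro h1
    apply hX
    have : ∀ z : H, z = 0 := fun z => by rw [← mul_one z, h1, mul_zero]
    rw [this (X h - π1 (X 1) * h)]
    exact F.zero_mem
  have hone : (1 : H) ∈ dg 0 := by rw [h0]; exact Submodule.mem_span_singleton_self 1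
  obtain ⟨ψ, hψ, -⟩ := Submodule.exists_dual_map_eq_bot_of_notMem (p := (⊥ : Submodule ℂ H))
    (x := (1 : H)) (by simpa using hne) inferInstance
  obtain ⟨l, hl, hlF⟩ := Submodule.exists_dual_map_eq_bot_of_notMem hX inferInstance
  have hlF' : ∀ z ∈ F, l z = 0 := fun z hz => by
    have : l z ∈ F.map l := Submodule.mem_map_of_mem hz
    rw [hlF] at this
    simpa using this
  set c0 : H →ₗ[ℂ] ℂ := (ψ 1)⁻¹ • (ψ ∘ₗ π0) with hc0
  have hc01 : c0 1 = 1 := by
    rw [hc0, LinearMap.smul_apply, LinearMap.comp_apply, q2 1 hone, smul_eq_mul,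
      inv_mul_cancel₀ hψ]
  have hupow : ∀ u ∈ dg 1, ∀ k, u ^ k ∈ dg k := by
    intro u hu k
    induction k with
    | zero => simpa using hone
    | succ k ih => rw [pow_succ]; exact hmul k 1 _ ih _ hu
  have hu0 : ∀ u ∈ dg 1, c0 (ex n u) = 1 := by
    intro u hu
    have : π0 (ex n u) = 1 := by
      rw [ex, map_sum, Finset.sum_range_succ', Finset.sum_eq_zero]
      · simp [q2 1 hone]
      · intro k _
        rw [map_smul, q3 (k + 1) (Nat.succ_ne_zero k) _ (hupow u hu _), smul_zero]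
    rw [hc0, LinearMap.smul_apply, LinearMap.comp_apply, this, smul_eq_mul, inv_mul_cancel₀ hψ]
  have hu1 : ∀ u ∈ dg 1, π1 (ex n u) = u := by
    intro u hu
    obtain ⟨m, rfl⟩ : ∃ m, n = m + 1 := ⟨n - 1, by omega⟩
    rw [ex, map_sum, Finset.sum_range_succ', Finset.sum_range_succ', Finset.sum_eq_zero]
    · rw [zero_add, map_smul, map_smul, pow_zero, p3 0 (by norm_num) 1 hone]
      simp [p2 u hu]
    · intro k _
      rw [map_smul, p3 (k + 1 + 1) (by omega) _ (hupow u hu _), smul_zero]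
  refine ⟨fun z => PH n c0 l π1 (T.symm z.1) (T.symm z.2), contDiff_PH T n c0 l π1, ?_, ?_⟩
  · intro a u hu h' hh'
    simp only [map_smul, LinearEquiv.symm_apply_apply]
    have hterm : PH n c0 l π1 (a • ex n u) (ex n u * h') =
        a ^ n * l (ex n (-u) * (ex n u * h')) := by
      have e0 : ex n (-u) = ∑ k ∈ Finset.range (n + 1), ((k.factorial : ℂ)⁻¹) • (-u) ^ k := rfl
      rw [PH, e0, Finset.sum_mul, map_sum, Finset.mul_sum]
      refine Finset.sum_congr rfl fun k hk => ?_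
      have hkn : k ≤ n := Nat.lt_succ_iff.1 (Finset.mem_range.1 hk)
      rw [map_smul, map_smul, hu0 u hu, hu1 u hu, smul_eq_mul, mul_one, smul_pow,
        smul_mul_assoc, map_smul, smul_eq_mul, neg_pow u k, smul_mul_assoc, map_smul, smul_eq_mul,
        mul_assoc ((-1 : H) ^ k)]
      have e1 : (-1 : H) ^ k * (u ^ k * (ex n u * h')) =
          ((-1 : ℂ) ^ k) • (u ^ k * (ex n u * h')) := by
        rw [Algebra.smul_def, map_pow, map_neg, map_one]
      rw [e1, map_smul, smul_eq_mul]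
      have e2 : a ^ n = a ^ (n - k) * a ^ k := by rw [← pow_add, Nat.sub_add_cancel hkn]
      rw [e2]
      ring
    rw [hterm, ← mul_assoc, ex_neg_mul_ex n u (htop (n + 1) (Nat.lt_succ_self n) _ (hupow u hu _)),
      one_mul, hlF' h' hh', mul_zero]
  · obtain ⟨m, rfl⟩ : ∃ m, n = m + 1 := ⟨n - 1, by omega⟩
    have hd := deriv_PH m c0 l π1 1 (X 1) h (X h) (π1 (X 1)) hc01 (p3 0 (by norm_num) 1 hone) rfl
      (hlF' h hh)
    have hdiff : DifferentiableAt ℂ (fun z : E × E => PH (m + 1) c0 l π1 (T.symm z.1) (T.symm z.2))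
        (T 1, T h) := (contDiff_PH T (m + 1) c0 l π1).differentiable (by simp) _
    have hline : HasDerivAt (fun τ : ℂ => ((T 1, T h) : E × E) + τ • (T (X 1), T (X h)))
        (T (X 1), T (X h)) 0 := by
      have := ((hasDerivAt_id' (0 : ℂ)).smul_const ((T (X 1), T (X h)) : E × E)).const_add
        ((T 1, T h) : E × E)
      simpa using this
    have hd2 : HasDerivAt ((fun z : E × E => PH (m + 1) c0 l π1 (T.symm z.1) (T.symm z.2)) ∘
        fun τ : ℂ => ((T 1, T h) : E × E) + τ • (T (X 1), T (X h)))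
        (fderiv ℂ (fun z : E × E => PH (m + 1) c0 l π1 (T.symm z.1) (T.symm z.2)) (T 1, T h)
          (T (X 1), T (X h))) 0 := by
      refine HasFDerivAt.comp_hasDerivAt (0 : ℂ) ?_ hline
      simpa using hdiff.hasFDerivAt
    have heq : ((fun z : E × E => PH (m + 1) c0 l π1 (T.symm z.1) (T.symm z.2)) ∘
        fun τ : ℂ => ((T 1, T h) : E × E) + τ • (T (X 1), T (X h))) =
        fun τ : ℂ => PH (m + 1) c0 l π1 (1 + τ • X 1) (h + τ • X h) := by
      funext τ
      simp
    rw [heq] at hd2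
    rw [hd2.unique hd]
    exact hl

end Pool.Agent.K6.H85.EV
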