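import Pool.Agent.K6.H85.EV.Alg3
import Pool.Agent.K6.H85.EV.IDT
import Pool.Agent.K6.H85.EV.STB
import Pool.Agent.K6.H85.EV.TAN

/-!
# The Lie algebra tangent to the period map
-/

set_option autoImplicit false
set_option linter.unusedSectionVars false

open scoped Manifold Topology ContDiff

namespace Pool.Agent.K6.H85.EV

open H956GW Module Pool.Agent.K6.H85.GW Pool.Agent.Y348.GW

attribute [local instance 100] LieRing.ofAssociativeRing

universe u v

/-- `T X T⁻¹` -/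
noncomputable def tr {H : Type} [AddCommGroup H] [Module ℂ H] {E : Type u} [AddCommGroup E]
    [Module ℂ E] (T : H ≃ₗ[ℂ] E) (X : End ℂ H) : End ℂ E :=
  T.toLinearMap ∘ₗ X ∘ₗ T.symm.toLinearMap

section tr

variable {H : Type} [AddCommGroup H] [Module ℂ H] {E : Type u} [NormedAddCommGroup E]
    [NormedSpace ℂ E] (T : H ≃ₗ[ℂ] E)

theorem tr_apply (X : End ℂ H) (h : H) : tr T X (T h) = T (X h) := by simp [tr]

theorem tr_add (X Y : End ℂ H) : tr T (X + Y) = tr T X + tr T Y := by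
  ext x; simp [tr]

theorem tr_smul (a : ℂ) (X : End ℂ H) : tr T (a • X) = a • tr T X := by
  ext x; simp [tr]

theorem tr_zero : tr T (0 : End ℂ H) = 0 := by ext x; simp [tr]

theorem tr_br (X Y : End ℂ H) : tr T (X * Y - Y * X) = tr T X * tr T Y - tr T Y * tr T X := by
  ext x; simp [tr]

/-- the Lie algebra of the endomorphisms tangent to the sets `𝒮 i` -/
noncomputable def bAlg [FiniteDimensional ℂ E] {ι : Type v} (𝒮 : ι → Set (E × E)) :
    LieSubalgebra ℂ (End ℂ H) where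
  carrier := {X | Stab 𝒮 (tr T X)}
  add_mem' := by
    intro X Y hX hY
    change Stab 𝒮 (tr T (X + Y))
    rw [tr_add]
    exact (t_STB E ι 𝒮).1 _ _ hX hY
  zero_mem' := by
    change Stab 𝒮 (tr T 0)
    rw [tr_zero]
    intro i P _ _ x _
    have : (((0 : End ℂ E) x.1, (0 : End ℂ E) x.2) : E × E) = 0 := rfl
    rw [this, map_zero]
  smul_mem' := by
    intro a X hX
    change Stab 𝒮 (tr T (a • X))
    rw [tr_smul]
    exact (t_STB E ι 𝒮).2.1 a _ hX
  lie_mem' := by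
    intro X Y hX hY
    change Stab 𝒮 (tr T ⁅X, Y⁆)
    rw [LieRing.of_associative_ring_bracket, tr_br]
    exact (t_STB E ι 𝒮).2.2.1 _ _ hX hY

theorem mem_bAlg [FiniteDimensional ℂ E] {ι : Type v} {𝒮 : ι → Set (E × E)} {X : End ℂ H} :
    X ∈ bAlg T 𝒮 ↔ Stab 𝒮 (tr T X) := Iff.rfl

end tr

theorem δ_ex {H : Type} [CommRing H] [Algebra ℂ H] {δ : End ℂ H}
    (hδ : ∀ x y, δ (x * y) = δ x * y + x * δ y) {u : H} (hu : δ u = u) {K : ℕ}
    (hK : u ^ (K + 1) = 0) : δ (ex K u) = u * ex K u := by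
  have h1 : δ 1 = 0 := by
    have := hδ 1 1
    rw [mul_one, mul_one, one_mul] at this
    exact left_eq_add.1 this
  have hpow : ∀ k : ℕ, δ (u ^ k) = (k : ℂ) • u ^ k := by
    intro k
    induction k with
    | zero => rw [pow_zero, h1, Nat.cast_zero, zero_smul]
    | succ k ih =>
      rw [pow_succ, hδ, ih, hu, smul_mul_assoc]
      push_cast
      rw [add_smul, one_smul]
  rw [ex, map_sum, Finset.mul_sum, Finset.sum_range_succ' (fun k => δ _),
    Finset.sum_range_succ (fun k => u * (_ : H))]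
  have h3 : u * ((K.factorial : ℂ)⁻¹ • u ^ K) = 0 := by
    rw [mul_smul_comm, ← pow_succ', hK, smul_zero]
  have h2 : δ (((0 : ℕ).factorial : ℂ)⁻¹ • u ^ 0) = 0 := by
    rw [map_smul, hpow]; simp
  rw [h3, h2, add_zero, add_zero]
  refine Finset.sum_congr rfl fun k _ => ?_
  rw [map_smul, hpow, smul_smul, mul_smul_comm, ← pow_succ']
  congr 1
  rw [Nat.factorial_succ]
  have h4 : ((k : ℂ) + 1) ≠ 0 := by exact_mod_cast Nat.succ_ne_zero k
  have h5 : (k.factorial : ℂ) ≠ 0 := by exact_mod_cast k.factorial_ne_zero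
  push_cast
  field_simp

section geo

variable (G : Type*) [NormedAddCommGroup G] [NormedSpace ℂ G]
  (M : Type*) [TopologicalSpace M] [ChartedSpace G M]
  (Γ : Type*) [Group Γ] [MulAction Γ M]
  (E : Type*) [NormedAddCommGroup E] [NormedSpace ℂ E]
  {S : Type*} [NormedAddCommGroup S] [NormedSpace ℂ S] {H : Type}
  [CommRing H] [Algebra ℂ H]

/-- **The Lie algebra tangent to the period map of a semisimple variation.** -/
theorem exists_stab {n : ℕ} (hn : 1 ≤ n) {dg : ℕ → Submodule ℂ H}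
    (hint : DirectSum.IsInternal dg) (hd0 : dg 0 = Submodule.span ℂ {(1 : H)})
    (hmul : ∀ i j, ∀ x ∈ dg i, ∀ y ∈ dg j, x * y ∈ dg (i + j))
    (htop : ∀ k, n < k → ∀ x ∈ dg k, x = 0) (δ : End ℂ H)
    (hδ : ∀ k, ∀ x ∈ dg k, δ x = (k : ℂ) • x)
    (c : S →ₗ[ℂ] H) (hc : LinearMap.range c = dg 1)
    (A : S → S → H → H) (hA : ∀ t x h, A t x h = c x * h)
    (t₀ : S) [IsManifold 𝓘(ℂ, G) 1 M] [PreconnectedSpace M] [FiniteDimensional ℂ E]
    [FiniteDimensional ℂ H]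
    (Y : Variation G M Γ E) (hY : Y.Semisimple) (m₀ : M)
    (hloc : LocallyEquivalentAt Set.univ A (filt dg) t₀ Y m₀) :
    ∃ (𝔟 : LieSubalgebra ℂ (End ℂ H)) (𝔞 : LieSubalgebra ℂ (End ℂ (Rsub c)))
      (𝒢 : Set (Rsub c ≃ₗ[ℂ] Rsub c)),
      EvMod n dg δ 𝔟 ∧ Normalises 𝒢 𝔞 ∧
      (∀ Y' ∈ 𝔞, ∃ X ∈ 𝔟, ∀ r : Rsub c, X r = ((Y' r : Rsub c) : H)) ∧
      (∀ v, LinearMap.mulLeft ℂ (cRmap c v) ∈ 𝔞) ∧
      (∀ δ' : End ℂ (Rsub c), (∀ r : Rsub c, ((δ' r : Rsub c) : H) = δ r) → δ' ∈ 𝔞) ∧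
      ∀ X ∈ 𝔞, X 1 ∈ Usp (cRmap c) := by
  obtain ⟨φ, T, f, ht₀, hφU, -, -, hTA, hF⟩ := hloc
  -- a ball
  obtain ⟨ε, hε, hball⟩ := Metric.isOpen_iff.1 φ.open_source t₀ ht₀
  let W := Metric.ball t₀ ε
  have hWo : IsOpen W := Metric.isOpen_ball
  have hWc : Convex ℝ W := convex_ball _ _
  have ht₀W : t₀ ∈ W := Metric.mem_ball_self hε
  have hT : ∀ t ∈ W, ∀ h : H, ∃ D : S →L[ℂ] E,
      HasFDerivAt (fun t => T t h) D t ∧ ∀ x, D x = T t (c x * h) := by
    intro t ht h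
    obtain ⟨D, hD, hDx⟩ := hTA t (hball ht) h
    refine ⟨D, hD, fun x => ?_⟩
    rw [hDx, hA]
  have hF' : ∀ p, ∀ t ∈ W, (filt dg p).map (T t).toLinearMap = Y.F (f p) (φ t) := by
    intro p t ht
    ext u
    constructor
    · rintro ⟨h, hh, rfl⟩
      exact (hF p t (hball ht) h).1 hh
    · intro hu
      refine ⟨(T t).symm u, (hF p t (hball ht) _).2 ?_, (T t).apply_symm_apply u⟩
      rwa [(T t).apply_symm_apply]
  -- degrees
  have h10 : (1 : H) ∈ dg 0 := by rw [hd0]; exact Submodule.mem_span_singleton_self _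
  have hcdg : ∀ v, c v ∈ dg 1 := fun v => by rw [← hc]; exact ⟨v, rfl⟩
  have hpow : ∀ u ∈ dg 1, ∀ k : ℕ, u ^ k ∈ dg k := by
    intro u hu k
    induction k with
    | zero => rw [pow_zero]; exact h10
    | succ k ih => rw [pow_succ]; exact hmul _ _ _ ih _ hu
  have hK : ∀ x, c x ^ (n + 1) = 0 := fun x => htop (n + 1) (Nat.lt_succ_self n) _ (hpow _ (hcdg x) _)
  have hδmul : ∀ x y, δ (x * y) = δ x * y + x * δ y := by
    have hind : ∀ {p : H → Prop}, (∀ k : ℕ, ∀ x ∈ dg k, p x) → (∀ x y, p x → p y → p (x + y)) →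
        ∀ x, p x := by
      intro p h0 hadd x
      have hx : x ∈ ⨆ k, dg k := by rw [hint.submodule_iSup_eq_top]; trivial
      induction hx using Submodule.iSup_induction' with
      | mem k x hx => exact h0 k x hx
      | zero => exact h0 0 0 (zero_mem _)
      | add x y _ _ hx hy => exact hadd x y hx hy
    intro x y
    refine hind (p := fun x => δ (x * y) = δ x * y + x * δ y) ?_ ?_ x
    · intro k x hx
      refine hind (p := fun y => δ (x * y) = δ x * y + x * δ y) ?_ ?_ y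
      · intro l y hy
        rw [hδ _ _ (hmul k l x hx y hy), hδ _ _ hx, hδ _ _ hy, smul_mul_assoc,
          mul_smul_comm, ← add_smul]
        push_cast; rfl
      · intro a b ha hb
        rw [mul_add, map_add, ha, hb, map_add, mul_add, mul_add]; abel
    · intro a b ha hb
      rw [add_mul, map_add, ha, hb, map_add, add_mul, add_mul]; abel
  have hδfilt : ∀ p, ∀ h ∈ filt dg p, δ h ∈ filt dg p := by
    intro p
    have h1 : filt dg p ≤ (filt dg p).comap δ := by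
      refine iSup₂_le fun k hk => ?_
      intro x hx
      change δ x ∈ filt dg p
      rw [hδ k x hx]
      exact Submodule.smul_mem _ _ (le_filt hk hx)
    exact h1
  have hG0 : filt dg 0 = Submodule.span ℂ {(1 : H)} := by rw [filt_zero, hd0]
  have hcoc : ∀ t ∈ W, ∀ t' ∈ W, ∀ h, T t' h = T t (ex n (c (t' - t)) * h) :=
    fun t ht t' ht' h => cocycle hT hWo hWc hK ht ht' h
  have hmT : ∀ t ∈ W, ∀ h : H, T t h = T t₀ (ex n (c (t - t₀)) * h) :=
    fun t ht h => hcoc t₀ ht₀W t ht h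
  -- the section `v t = T t 1`
  have hv : ∀ t ∈ W, Y.F (f 0) (φ t) = Submodule.span ℂ {T t 1} := by
    intro t ht
    rw [← hF' 0 t ht, hG0, Submodule.map_span, Set.image_singleton]
    rfl
  have hopen : ∀ O : Set S, IsOpen O → O ⊆ W → IsOpen (φ '' O) := fun O hO hOW =>
    φ.isOpen_image_of_subset_source hO (hOW.trans hball)
  -- the sets
  let 𝒮 : ℤ → Set (E × E) := fun p => {x | ∃ mm, x.1 ∈ Y.F (f 0) mm ∧ x.2 ∈ Y.F (f p) mm}
  have hloc𝒮 : ∀ t ∈ W, ∀ (a : ℂ) (p : ℤ) (h : H), h ∈ filt dg p →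
      ((a • T t 1, T t h) : E × E) ∈ 𝒮 p := by
    intro t ht a p h hh
    refine ⟨φ t, ?_, ?_⟩
    · rw [hv t ht]
      exact Submodule.smul_mem _ _ (Submodule.mem_span_singleton_self _)
    · rw [← hF' p t ht]
      exact ⟨h, hh, rfl⟩
  have hvanish : ∀ (p : ℤ) (P : E × E → ℂ), Differentiable ℂ P →
      (∀ t ∈ W, ∀ (a : ℂ) (h : H), h ∈ filt dg p → P (a • T t 1, T t h) = 0) →
      ∀ x ∈ 𝒮 p, P x = 0 := by
    rintro p P hP h0 x ⟨mm, hx1, hx2⟩
    refine t_IDT G M E (Y.F (f 0)) (Y.F (f p)) (Y.holomorphic _) (Y.holomorphic _) P hP (φ '' W)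
      (hopen W hWo subset_rfl) ⟨φ t₀, t₀, ht₀W, rfl⟩ ?_ mm x hx1 hx2
    rintro _ ⟨t, ht, rfl⟩ x hx1 hx2
    rw [hv t ht] at hx1
    obtain ⟨a, ha⟩ := Submodule.mem_span_singleton.1 hx1
    rw [← hF' p t ht] at hx2
    obtain ⟨h, hh, hhx⟩ := hx2
    have h1 := h0 t ht a h hh
    have h2 : ((a • T t 1, T t h) : E × E) = x := Prod.ext ha hhx
    rwa [h2] at h1
  let T₀ := T t₀
  let 𝔟 : LieSubalgebra ℂ (End ℂ H) := bAlg T₀ 𝒮
  have hmem𝔟 : ∀ X : End ℂ H, X ∈ 𝔟 ↔ Stab 𝒮 (tr T₀ X) := fun X => Iff.rfl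
  -- multiplications
  have hmulT : ∀ (v : S), ∀ t ∈ W, ∀ h : H, tr T₀ (LinearMap.mulLeft ℂ (c v)) (T t h) =
      T t (c v * h) := by
    intro v t ht h
    rw [hmT t ht, hmT t ht, tr_apply]
    congr 1
    change c v * (ex n (c (t - t₀)) * h) = ex n (c (t - t₀)) * (c v * h)
    ring
  have hmul𝔟 : ∀ v : S, LinearMap.mulLeft ℂ (c v) ∈ 𝔟 := by
    intro v p P hP h0 x hx
    refine hvanish p (fun x => fderiv ℂ P x (STB.La (tr T₀ (LinearMap.mulLeft ℂ (c v))) x))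
      ((STB.contDiff_Q _ hP).differentiable (by simp)) ?_ x hx
    intro t ht a h hh
    -- the curve
    let γ : ℂ → E × E := fun s => (a • T (t + s • v) 1, T (t + s • v) h)
    have ht0 : t + (0 : ℂ) • v ∈ W := by rw [zero_smul, add_zero]; exact ht
    have hd1 := (hasDerivAt_line hT (t := t) (x := v) (s := 0) ht0 1).const_smul a
    have hd2 := hasDerivAt_line hT (t := t) (x := v) (s := 0) ht0 h
    have hγ : HasDerivAt γ (a • T (t + (0 : ℂ) • v) (c v * 1), T (t + (0 : ℂ) • v) (c v * h)) 0 :=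
      hd1.prodMk hd2
    have hγ0 : γ 0 = (a • T t 1, T t h) := by
      change ((a • T (t + (0 : ℂ) • v) 1, T (t + (0 : ℂ) • v) h) : E × E) = _
      rw [zero_smul, add_zero]
    have hPγ : HasDerivAt (fun s => P (γ s)) (fderiv ℂ P (γ 0)
        (a • T (t + (0 : ℂ) • v) (c v * 1), T (t + (0 : ℂ) • v) (c v * h))) 0 :=
      (((hP.differentiable (by simp)) (γ 0)).hasFDerivAt).comp_hasDerivAt 0 hγ
    have hev : (fun s => P (γ s)) =ᶠ[𝓝 0] fun _ => (0 : ℂ) := by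
      have hcont : Continuous (fun s : ℂ => t + s • v) := by fun_prop
      have h1 : ∀ᶠ s : ℂ in 𝓝 0, t + s • v ∈ W := by
        refine hcont.continuousAt.eventually ?_
        change ∀ᶠ y in 𝓝 (t + (0 : ℂ) • v), y ∈ W
        rw [zero_smul, add_zero]
        exact hWo.mem_nhds ht
      filter_upwards [h1] with s hs
      exact h0 _ (hloc𝒮 _ hs a p h hh)
    have h2 := hPγ.unique ((hasDerivAt_const (0 : ℂ) (0 : ℂ)).congr_of_eventuallyEq hev)
    rw [hγ0, zero_smul, add_zero] at h2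
    change fderiv ℂ P (a • T t 1, T t h) (tr T₀ (LinearMap.mulLeft ℂ (c v)) (a • T t 1),
      tr T₀ (LinearMap.mulLeft ℂ (c v)) (T t h)) = 0
    rw [map_smul, hmulT v t ht, hmulT v t ht]
    exact h2
  -- the grading operator
  have hδ𝔟 : δ ∈ 𝔟 := by
    intro p P hP h0 x hx
    refine hvanish p (fun x => fderiv ℂ P x (STB.La (tr T₀ δ) x))
      ((STB.contDiff_Q _ hP).differentiable (by simp)) ?_ x hx
    intro t ht a h hh
    have hu : δ (c (t - t₀)) = c (t - t₀) := by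
      rw [hδ 1 _ (hcdg _), Nat.cast_one, one_smul]
    have hδT : ∀ y : H, tr T₀ δ (T t y) = tr T₀ (LinearMap.mulLeft ℂ (c (t - t₀))) (T t y) +
        T t (δ y) := by
      intro y
      rw [hmulT _ t ht, hmT t ht, hmT t ht, hmT t ht, tr_apply, ← map_add]
      congr 1
      rw [hδmul, δ_ex hδmul hu (hK _)]
      ring
    have hδ1 : δ 1 = 0 := by rw [hδ 0 1 h10, Nat.cast_zero, zero_smul]
    have e1 : ((tr T₀ δ (a • T t 1), tr T₀ δ (T t h)) : E × E) =
        (tr T₀ (LinearMap.mulLeft ℂ (c (t - t₀))) (a • T t 1),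
          tr T₀ (LinearMap.mulLeft ℂ (c (t - t₀))) (T t h)) + (0, T t (δ h)) := by
      rw [Prod.mk_add_mk, map_smul, map_smul, hδT, hδT, hδ1, map_zero, add_zero, add_zero]
    change fderiv ℂ P (a • T t 1, T t h) (tr T₀ δ (a • T t 1), tr T₀ δ (T t h)) = 0
    rw [e1, map_add]
    have e2 := hmul𝔟 (t - t₀) p P hP h0 (a • T t 1, T t h) (hloc𝒮 t ht a p h hh)
    change fderiv ℂ P (a • T t 1, T t h) (tr T₀ (LinearMap.mulLeft ℂ (c (t - t₀))) (a • T t 1),
      tr T₀ (LinearMap.mulLeft ℂ (c (t - t₀))) (T t h)) = 0 at e2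
    rw [e2, zero_add]
    -- the line
    let γ : ℂ → E × E := fun s => (a • T t 1, T t h + s • T t (δ h))
    have hγ : HasDerivAt γ (0, T t (δ h)) 0 := by
      refine (hasDerivAt_const (0 : ℂ) (a • T t 1)).prodMk ?_
      simpa using ((hasDerivAt_id (0 : ℂ)).smul_const (T t (δ h))).const_add (T t h)
    have hγ0 : γ 0 = (a • T t 1, T t h) := by
      change ((a • T t 1, T t h + (0 : ℂ) • T t (δ h)) : E × E) = _
      rw [zero_smul, add_zero]
    have hPγ : HasDerivAt (fun s => P (γ s)) (fderiv ℂ P (γ 0) (0, T t (δ h))) 0 :=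
      (((hP.differentiable (by simp)) (γ 0)).hasFDerivAt).comp_hasDerivAt 0 hγ
    have hev : (fun s => P (γ s)) = fun _ => (0 : ℂ) := by
      funext s
      apply h0
      have h1 : γ s = (a • T t 1, T t (h + s • δ h)) := by
        change ((a • T t 1, T t h + s • T t (δ h)) : E × E) = _
        rw [map_add, map_smul]
      rw [h1]
      exact hloc𝒮 t ht a p _ (Submodule.add_mem _ hh (Submodule.smul_mem _ _ (hδfilt p h hh)))
    rw [hev] at hPγ
    have h2 := hPγ.unique (hasDerivAt_const (0 : ℂ) (0 : ℂ))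
    rw [hγ0] at h2
    exact h2
  -- tangency
  have htan : ∀ X ∈ 𝔟, ∃ x ∈ dg 1, ∀ p, ∀ h ∈ filt dg p, X h - x * h ∈ filt dg p := by
    intro X hX
    obtain ⟨x, hx, hxP⟩ := t_TAN H E T₀ n dg hn hint hd0 hmul htop X
    refine ⟨x, hx, fun p h hh => ?_⟩
    by_contra hcon
    obtain ⟨P, hP, hP0, hPd⟩ := hxP (filt dg p) h hh hcon
    apply hPd
    have hv0 := hvanish p P (hP.differentiable (by simp)) (by
      intro t ht a h' hh'
      have h1 := hP0 a (c (t - t₀)) (hcdg _) h' hh'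
      rw [hmT t ht, hmT t ht, mul_one]
      exact h1)
    have h1 := hX p P hP hv0 (T₀ 1, T₀ h) (by
      have h2 := hloc𝒮 t₀ ht₀W 1 p h hh
      rwa [one_smul] at h2)
    change fderiv ℂ P (T₀ 1, T₀ h) (tr T₀ X (T₀ 1), tr T₀ X (T₀ h)) = 0 at h1
    rw [tr_apply, tr_apply] at h1
    exact h1
  have hEv : EvMod n dg δ 𝔟 :=
    { internal := hint
      one := h10
      mul := hmul
      top := htop
      δdg := hδ
      mul_mem := by
        intro v hv
        rw [← hc] at hv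
        obtain ⟨s, rfl⟩ := hv
        exact hmul𝔟 s
      δ_mem := hδ𝔟
      tangent := by
        intro X hX
        obtain ⟨x, hx, hxp⟩ := htan X hX
        refine ⟨x, hx, fun k h hh => ?_⟩
        have h1 := hxp (2 * (k : ℤ)) h (le_filt le_rfl hh)
        have h2 : filt dg (2 * (k : ℤ)) ≤ ⨆ (l : ℕ) (_ : l ≤ k), dg l :=
          iSup₂_le fun l hl => le_iSup₂_of_le l (by omega) le_rfl
        exact h2 h1 }
  -- `𝔟` preserves the subring
  have hG1 : filt dg 2 = Submodule.span ℂ {(1 : H)} ⊔ LinearMap.range c := by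
    rw [filt_two hd0, hc]
  have hUsp : ∀ y : Rsub c, y ∈ Usp (cRmap c) ↔ (y : H) ∈ filt dg 2 := by
    intro y
    rw [hG1]
    constructor
    · intro hy
      obtain ⟨a, ha, b, ⟨v, rfl⟩, rfl⟩ := Submodule.mem_sup.1 hy
      obtain ⟨α, rfl⟩ := Submodule.mem_span_singleton.1 ha
      exact Submodule.mem_sup.2 ⟨α • 1, Submodule.smul_mem _ _ (Submodule.mem_span_singleton_self _),
        c v, ⟨v, rfl⟩, rfl⟩
    · intro hy
      obtain ⟨a, ha, b, ⟨v, rfl⟩, hab⟩ := Submodule.mem_sup.1 hy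
      obtain ⟨α, rfl⟩ := Submodule.mem_span_singleton.1 ha
      exact Submodule.mem_sup.2 ⟨α • 1, Submodule.smul_mem _ _ (Submodule.mem_span_singleton_self _),
        cRmap c v, ⟨v, rfl⟩, Subtype.ext hab⟩
  have hUR : ∀ y ∈ filt dg 2, y ∈ Rsub c := by
    intro y hy
    rw [hG1] at hy
    obtain ⟨a, ha, b, ⟨v, rfl⟩, rfl⟩ := Submodule.mem_sup.1 hy
    obtain ⟨α, rfl⟩ := Submodule.mem_span_singleton.1 ha
    exact add_mem (Subalgebra.smul_mem _ (one_mem _) α) (Algebra.subset_adjoin ⟨v, rfl⟩)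
  have hX1 : ∀ X ∈ 𝔟, X 1 ∈ filt dg 2 := by
    intro X hX
    obtain ⟨x, hx, hxp⟩ := htan X hX
    have h1 := hxp 2 1 (le_filt (by norm_num) h10)
    rw [mul_one] at h1
    have h2 : X 1 = (X 1 - x) + x := by abel
    rw [h2]
    exact Submodule.add_mem _ h1 (le_filt (by norm_num) hx)
  have hR𝔟 : ∀ (r : Rsub c), ∀ X ∈ 𝔟, X (r : H) ∈ Rsub c := by
    intro r
    have hr : r ∈ ⨆ k : ℕ, (LinearMap.range (cRmap c)) ^ k := by rw [gen_of_adjoin]; trivial
    induction hr using Submodule.iSup_induction' with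
    | mem k x hx =>
      induction k generalizing x with
      | zero =>
        intro X hX
        rw [pow_zero] at hx
        obtain ⟨z, rfl⟩ := Submodule.mem_one.1 hx
        have h1 : ((algebraMap ℂ (Rsub c) z : Rsub c) : H) = z • (1 : H) := by
          change algebraMap ℂ H z = _
          rw [Algebra.algebraMap_eq_smul_one]
        rw [h1, map_smul]
        exact Subalgebra.smul_mem _ (hUR _ (hX1 X hX)) _
      | succ k ih =>
        rw [pow_succ'] at hx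
        refine Submodule.mul_induction_on hx ?_ ?_
        · rintro _ ⟨v, rfl⟩ y hy X hX
          have h1 := ih y hy _ (𝔟.lie_mem hX (hmul𝔟 v))
          have h2 : X ((cRmap c v * y : Rsub c) : H) =
              ⁅X, LinearMap.mulLeft ℂ (c v)⁆ (y : H) + c v * X y := by
            rw [LieRing.of_associative_ring_bracket]
            change X (c v * y) = X (c v * y) - c v * X y + c v * X y
            abel
          rw [h2]
          exact add_mem h1 (mul_mem (Algebra.subset_adjoin ⟨v, rfl⟩) (ih y hy X hX))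
        · intro a b ha hb X hX
          have h1 : X ((a + b : Rsub c) : H) = X a + X b := by
            rw [Subalgebra.coe_add, map_add]
          rw [h1]
          exact add_mem (ha X hX) (hb X hX)
    | zero =>
      intro X _
      have h1 : X ((0 : Rsub c) : H) = 0 := by rw [Subalgebra.coe_zero, map_zero]
      rw [h1]; exact zero_mem _
    | add x y _ _ hx hy =>
      intro X hX
      have h1 : X ((x + y : Rsub c) : H) = X x + X y := by
        rw [Subalgebra.coe_add, map_add]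
      rw [h1]
      exact add_mem (hx X hX) (hy X hX)
  let 𝔞 : LieSubalgebra ℂ (End ℂ (Rsub c)) :=
    { carrier := {Y' | ∃ X ∈ 𝔟, ∀ r : Rsub c, X r = ((Y' r : Rsub c) : H)}
      add_mem' := by
        rintro Y₁ Y₂ ⟨X₁, h1, h1'⟩ ⟨X₂, h2, h2'⟩
        refine ⟨X₁ + X₂, add_mem h1 h2, fun r => ?_⟩
        rw [LinearMap.add_apply, LinearMap.add_apply, h1', h2']; rfl
      zero_mem' := ⟨0, zero_mem _, fun r => rfl⟩
      smul_mem' := by
        rintro a Y₁ ⟨X₁, h1, h1'⟩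
        refine ⟨a • X₁, 𝔟.toSubmodule.smul_mem a h1, fun r => ?_⟩
        rw [LinearMap.smul_apply, LinearMap.smul_apply, h1']; rfl
      lie_mem' := by
        rintro Y₁ Y₂ ⟨X₁, h1, h1'⟩ ⟨X₂, h2, h2'⟩
        refine ⟨⁅X₁, X₂⁆, 𝔟.lie_mem h1 h2, fun r => ?_⟩
        rw [LieRing.of_associative_ring_bracket, LieRing.of_associative_ring_bracket]
        change X₁ (X₂ r) - X₂ (X₁ r) = ((Y₁ (Y₂ r) - Y₂ (Y₁ r) : Rsub c) : H)
        rw [h1', h2', h1', h2']; rfl }
  have hmem𝔞 : ∀ Y' : End ℂ (Rsub c), Y' ∈ 𝔞 ↔ ∃ X ∈ 𝔟, ∀ r : Rsub c, X r = ((Y' r : Rsub c) : H) :=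
    fun Y' => Iff.rfl
  -- the subbundle generated by the lines
  let E₁ : Submodule ℂ E := (Subalgebra.toSubmodule (Rsub c)).map T₀.toLinearMap
  have hE₁mem : ∀ r : Rsub c, T₀ r ∈ E₁ := fun r => ⟨r, r.2, rfl⟩
  have hexR : ∀ t : S, ex n (c (t - t₀)) ∈ Rsub c := by
    intro t
    rw [← coe_cRmap, ← coe_ex]
    exact (ex n (cRmap c (t - t₀))).2
  have hE₁le : ∀ mm, Y.F (f 0) mm ≤ E₁ := by
    intro mm u hu
    refine map_le_of_map_le_open (Y.holomorphic (f 0)) (isHolomorphicSubbundle_const E₁)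
      LinearMap.id (hopen W hWo subset_rfl) ⟨φ t₀, t₀, ht₀W, rfl⟩ ?_ mm u hu
    rintro _ ⟨t, ht, rfl⟩ u hu
    rw [hv t ht] at hu
    obtain ⟨α, rfl⟩ := Submodule.mem_span_singleton.1 hu
    refine E₁.smul_mem _ ?_
    rw [hmT t ht, mul_one]
    exact hE₁mem ⟨_, hexR t⟩
  have hE₁sup : ∀ N : Submodule ℂ E, (∀ t ∈ W, T t 1 ∈ N) → E₁ ≤ N := by
    rintro N hN _ ⟨r, hr, rfl⟩
    have := adjoin_mul_mem_of_forall hT hWo N hr hN t₀ ht₀W
    rwa [mul_one] at this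
  have hvE₁ : ∀ t ∈ W, T t 1 ∈ Y.F (f 0) (φ t) := by
    intro t ht
    rw [hv t ht]
    exact Submodule.mem_span_singleton_self _
  have hE₁Γ : ∀ γ, ∀ u ∈ E₁, Y.ρ γ u ∈ E₁ := by
    intro γ
    have h1 : E₁ ≤ E₁.comap (Y.ρ γ).toLinearMap := by
      refine hE₁sup _ fun t ht => ?_
      exact hE₁le (γ • φ t) ((Y.equivariant γ (f 0) (φ t) _).2 (hvE₁ t ht))
    exact h1
  -- the action on `R`
  let eR : Rsub c ≃ₗ[ℂ] E₁ := T₀.submoduleMap (Subalgebra.toSubmodule (Rsub c))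
  have heR : ∀ r : Rsub c, ((eR r : E₁) : E) = T₀ r := fun r => rfl
  have hρρ : ∀ γ (u : E), Y.ρ γ (Y.ρ γ⁻¹ u) = u := by
    intro γ u
    have : (Y.ρ γ * Y.ρ γ⁻¹) u = u := by rw [← map_mul, mul_inv_cancel, map_one]; rfl
    exact this
  have hρρ' : ∀ γ (u : E), Y.ρ γ⁻¹ (Y.ρ γ u) = u := by
    intro γ u
    have := hρρ γ⁻¹ u
    rwa [inv_inv] at this
  have hex : ∀ γ, ∃ g : Rsub c ≃ₗ[ℂ] Rsub c, ∀ r : Rsub c, Y.ρ γ (T₀ r) = T₀ (g r : Rsub c) := by
    intro γ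
    have hmap : E₁.map (Y.ρ γ).toLinearMap = E₁ := by
      apply le_antisymm
      · rintro _ ⟨u, hu, rfl⟩; exact hE₁Γ γ u hu
      · intro u hu
        exact ⟨Y.ρ γ⁻¹ u, hE₁Γ _ u hu, hρρ γ u⟩
    let ργ : E₁ ≃ₗ[ℂ] E₁ := (Y.ρ γ).ofSubmodules E₁ E₁ hmap
    refine ⟨eR.trans (ργ.trans eR.symm), fun r => ?_⟩
    have h1 : ((eR (eR.symm (ργ (eR r))) : E₁) : E) = Y.ρ γ (T₀ r) := by
      rw [eR.apply_symm_apply]; rfl
    rw [← h1, heR]
    rfl
  let 𝒢 : Set (Rsub c ≃ₗ[ℂ] Rsub c) := {g | ∃ γ, ∀ r : Rsub c, Y.ρ γ (T₀ r) = T₀ (g r : Rsub c)}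
  have hsymm : ∀ g ∈ 𝒢, g.symm ∈ 𝒢 := by
    rintro g ⟨γ, hγ⟩
    refine ⟨γ⁻¹, fun r => ?_⟩
    have h1 := hγ (g.symm r)
    rw [g.apply_symm_apply] at h1
    rw [← h1]
    exact hρρ' γ _
  refine ⟨𝔟, 𝔞, 𝒢, hEv, ⟨?_, hsymm, ?_⟩, fun Y' h => h, ?_, ?_, ?_⟩
  · -- `𝔞` is normalised
    rintro g ⟨γ, hγ⟩ Y' ⟨X, hX, hXY⟩
    let X' : End ℂ H := T₀.symm.toLinearMap ∘ₗ (Y.ρ γ).toLinearMap ∘ₗ tr T₀ X ∘ₗ
      (Y.ρ γ).symm.toLinearMap ∘ₗ T₀.toLinearMap
    have hX' : tr T₀ X' = (Y.ρ γ).toLinearMap ∘ₗ tr T₀ X ∘ₗ (Y.ρ γ).symm.toLinearMap := by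
      ext x; simp [X', tr]
    refine ⟨X', ?_, fun r => ?_⟩
    · rw [hmem𝔟, hX']
      refine (t_STB E ℤ 𝒮).2.2.2 (Y.ρ γ) ?_ (tr T₀ X) hX
      intro p x
      constructor
      · rintro ⟨mm, h1, h2⟩
        refine ⟨γ⁻¹ • mm, ?_, ?_⟩
        · rw [← Y.equivariant γ, smul_inv_smul]; exact h1
        · rw [← Y.equivariant γ, smul_inv_smul]; exact h2
      · rintro ⟨mm, h1, h2⟩
        exact ⟨γ • mm, (Y.equivariant γ _ _ _).2 h1, (Y.equivariant γ _ _ _).2 h2⟩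
    · have h3 : (Y.ρ γ).symm (T₀ r) = T₀ (g.symm r : Rsub c) := by
        rw [LinearEquiv.symm_apply_eq, hγ, g.apply_symm_apply]
      change T₀.symm (Y.ρ γ (tr T₀ X ((Y.ρ γ).symm (T₀ r)))) = ((g (Y' (g.symm r)) : Rsub c) : H)
      rw [h3, tr_apply, hXY, hγ, T₀.symm_apply_apply]
  · -- irreducibility
    intro N hN
    let NE : Submodule ℂ E := (N.map (Rsub c).val.toLinearMap).map T₀.toLinearMap
    have hNE : ∀ u : E, u ∈ NE ↔ ∃ r ∈ N, T₀ (r : H) = u := by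
      intro u
      constructor
      · rintro ⟨_, ⟨r, hr, rfl⟩, rfl⟩; exact ⟨r, hr, rfl⟩
      · rintro ⟨r, hr, rfl⟩; exact ⟨_, ⟨r, hr, rfl⟩, rfl⟩
    have hNflat : Y.IsFlat NE := by
      intro γ u hu
      obtain ⟨r, hr, rfl⟩ := (hNE u).1 hu
      obtain ⟨g, hg⟩ := hex γ
      rw [hg, hNE]
      exact ⟨g r, hN g ⟨γ, hg⟩ r hr, rfl⟩
    obtain ⟨N', hN', hcomp, hFN⟩ := hY NE hNflat
    have hdich : ∀ t ∈ W, T t 1 ∈ NE ∨ T t 1 ∈ N' := by
      intro t ht
      have h1 := hFN (f 0) (φ t)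
      have h2 : T t 1 ∈ (Y.F (f 0) (φ t) ⊓ NE) ⊔ (Y.F (f 0) (φ t) ⊓ N') := by
        rw [← h1]; exact hvE₁ t ht
      obtain ⟨x, hx, y, hy, hxy⟩ := Submodule.mem_sup.1 h2
      rw [hv t ht] at hx hy
      obtain ⟨α, hα⟩ := Submodule.mem_span_singleton.1 hx.1
      by_cases hα0 : α = 0
      · right
        rw [← hxy, ← hα, hα0, zero_smul, zero_add]
        exact hy.2
      · left
        have h3 : α⁻¹ • x ∈ NE := NE.smul_mem _ hx.2
        rwa [← hα, smul_smul, inv_mul_cancel₀ hα0, one_smul] at h3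
    by_cases hall : ∀ t ∈ W, T t 1 ∈ NE
    · right
      have h1 := hE₁sup NE hall
      rw [eq_top_iff]
      intro r _
      obtain ⟨r', hr', hr''⟩ := (hNE _).1 (h1 (hE₁mem r))
      have : r' = r := Subtype.ext (T₀.injective hr'')
      rwa [this] at hr'
    · left
      push Not at hall
      obtain ⟨t₁, ht₁, hnt₁⟩ := hall
      let O : Set S := {t | t ∈ W ∧ T t 1 ∉ NE}
      have hO : IsOpen O := by
        rw [isOpen_iff_mem_nhds]
        rintro t ⟨ht, hnt⟩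
        have hcont : ContinuousAt (fun t => T t 1) t := by
          obtain ⟨D, hD, -⟩ := hT t ht 1
          exact hD.continuousAt
        have hNEc : IsClosed (NE : Set E) := NE.closed_of_finiteDimensional
        have h1 : ∀ᶠ t' in 𝓝 t, T t' 1 ∈ (NE : Set E)ᶜ :=
          hcont.eventually (hNEc.isOpen_compl.mem_nhds hnt)
        filter_upwards [h1, hWo.mem_nhds ht] with t' h1 h2
        exact ⟨h2, h1⟩
      have h1 : ∀ mm, Y.F (f 0) mm ≤ N' := by
        intro mm u hu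
        refine map_le_of_map_le_open (Y.holomorphic (f 0)) (isHolomorphicSubbundle_const N')
          LinearMap.id (hopen O hO (fun t ht => ht.1)) ⟨φ t₁, t₁, ⟨ht₁, hnt₁⟩, rfl⟩ ?_ mm u hu
        rintro _ ⟨t, ht, rfl⟩ u hu
        rw [hv t ht.1] at hu
        obtain ⟨α, rfl⟩ := Submodule.mem_span_singleton.1 hu
        exact N'.smul_mem _ ((hdich t ht.1).resolve_left ht.2)
      have h2 : E₁ ≤ N' := hE₁sup N' fun t ht => h1 _ (hvE₁ t ht)
      rw [eq_bot_iff]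
      intro r hr
      have h3 : T₀ (r : H) ∈ NE := (hNE _).2 ⟨r, hr, rfl⟩
      have h4 : T₀ (r : H) ∈ N' := h2 (hE₁mem r)
      have h5 := Submodule.disjoint_def.1 hcomp.disjoint _ h3 h4
      have h6 := T₀.map_eq_zero_iff.1 h5
      rw [Submodule.mem_bot]
      exact Subtype.ext h6
  · -- multiplications
    intro v
    exact ⟨LinearMap.mulLeft ℂ (c v), hmul𝔟 v, fun r => rfl⟩
  · -- the grading operator
    intro δ' hδ'
    exact ⟨δ, hδ𝔟, fun r => (hδ' r).symm⟩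
  · -- the value at `1`
    rintro Y' ⟨X, hX, hXY⟩
    rw [hUsp]
    have h1 := hX1 X hX
    have h2 := hXY 1
    rw [Subalgebra.coe_one] at h2
    rwa [h2] at h1

end geo

end Pool.Agent.K6.H85.EV
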