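import Pool.Agent.K6.H85.GW.Asm

/-!
# Statements for the structure of the even cohomology as a module over the ring generated by `H²`
-/

set_option autoImplicit false

open scoped Manifold Topology ContDiff

namespace Pool.Agent.K6.H85.EV

open H956GW Module Pool.Agent.K6.H85.GW

attribute [local instance 100] LieRing.ofAssociativeRing

universe u v w

/-- LEF: `e` satisfies hard Lefschetz about the centre `m / 2`, if `[e, g] = 2 δ - m + N` with `N`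
nilpotent and commuting with `e` and `δ`. -/
def S_LEF : Prop := ∀ (W : Type u) [AddCommGroup W] [Module ℂ W] [FiniteDimensional ℂ W]
  (e g δ N : End ℂ W) (m : ℂ), δ * e - e * δ = e →
  e * g - g * e = (2 : ℂ) • δ - m • (1 : End ℂ W) + N → N * e = e * N → N * δ = δ * N →
  IsNilpotent e → IsNilpotent N → (⨆ k : ℕ, End.eigenspace δ (k : ℂ)) = ⊤ →
  (∀ k j : ℕ, 2 * (k : ℂ) + j = m →
    Set.BijOn (fun x => (e ^ j) x) (End.eigenspace δ (k : ℂ)) (End.eigenspace δ ((k + j : ℕ) : ℂ))) ∧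
  (∀ k : ℕ, (∀ l : ℕ, (k : ℂ) + l ≠ m) → End.eigenspace δ (k : ℂ) = ⊥)

/-- IDT: identity theorem for functions on pairs of sections. -/
def S_IDT : Prop := ∀ (G : Type u) [NormedAddCommGroup G] [NormedSpace ℂ G] (M : Type v)
  [TopologicalSpace M] [ChartedSpace G M] [IsManifold 𝓘(ℂ, G) 1 M] [PreconnectedSpace M]
  (E : Type w) [NormedAddCommGroup E] [NormedSpace ℂ E] [FiniteDimensional ℂ E]
  (F F' : M → Submodule ℂ E), IsHolomorphicSubbundle G F → IsHolomorphicSubbundle G F' →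
  ∀ P : E × E → ℂ, Differentiable ℂ P → ∀ V : Set M, IsOpen V → V.Nonempty →
  (∀ m ∈ V, ∀ x : E × E, x.1 ∈ F m → x.2 ∈ F' m → P x = 0) →
  ∀ m, ∀ x : E × E, x.1 ∈ F m → x.2 ∈ F' m → P x = 0

/-- The endomorphism `X` of `E` (acting on `E × E`) is tangent to the sets `𝒮 i`: the derivative in
the direction of `X` of each smooth function that vanishes on `𝒮 i` vanishes on `𝒮 i`. -/
def Stab {E : Type u} [NormedAddCommGroup E] [NormedSpace ℂ E] {ι : Type v} (𝒮 : ι → Set (E × E))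
    (X : End ℂ E) : Prop :=
  ∀ i, ∀ P : E × E → ℂ, ContDiff ℂ ∞ P → (∀ x ∈ 𝒮 i, P x = 0) →
    ∀ x ∈ 𝒮 i, fderiv ℂ P x (X x.1, X x.2) = 0

/-- STB: the tangent endomorphisms form a Lie algebra, compatible with the automorphisms of the
sets. -/
def S_STB : Prop := ∀ (E : Type u) [NormedAddCommGroup E] [NormedSpace ℂ E]
  [FiniteDimensional ℂ E] (ι : Type v) (𝒮 : ι → Set (E × E)),
  (∀ X Y : End ℂ E, Stab 𝒮 X → Stab 𝒮 Y → Stab 𝒮 (X + Y)) ∧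
  (∀ (a : ℂ) (X : End ℂ E), Stab 𝒮 X → Stab 𝒮 (a • X)) ∧
  (∀ X Y : End ℂ E, Stab 𝒮 X → Stab 𝒮 Y → Stab 𝒮 (X * Y - Y * X)) ∧
  (∀ g : E ≃ₗ[ℂ] E, (∀ i, ∀ x : E × E, (g x.1, g x.2) ∈ 𝒮 i ↔ x ∈ 𝒮 i) →
    ∀ X : End ℂ E, Stab 𝒮 X → Stab 𝒮 (g.toLinearMap ∘ₗ X ∘ₗ g.symm.toLinearMap))

/-- TAN: polynomials that detect the endomorphisms which are not tangent at `1` to the sets of the
pairs `(a e^u, e^u h)`, `h` in `F`. -/
def S_TAN : Prop := ∀ (H : Type) [CommRing H] [Algebra ℂ H] [FiniteDimensional ℂ H]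
  (E : Type u) [NormedAddCommGroup E] [NormedSpace ℂ E] (T : H ≃ₗ[ℂ] E) (n : ℕ)
  (dg : ℕ → Submodule ℂ H), 1 ≤ n → DirectSum.IsInternal dg → dg 0 = Submodule.span ℂ {(1 : H)} →
  (∀ i j, ∀ x ∈ dg i, ∀ y ∈ dg j, x * y ∈ dg (i + j)) → (∀ k, n < k → ∀ x ∈ dg k, x = 0) →
  ∀ X : End ℂ H, ∃ x ∈ dg 1, ∀ (F : Submodule ℂ H), ∀ h ∈ F, X h - x * h ∉ F →
    ∃ P : E × E → ℂ, ContDiff ℂ ∞ P ∧
      (∀ (a : ℂ), ∀ u ∈ dg 1, ∀ h' ∈ F, P (a • T (ex n u), T (ex n u * h')) = 0) ∧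
      fderiv ℂ P (T 1, T h) (T (X 1), T (X h)) ≠ 0

/-- A Lie algebra of endomorphisms of the graded ring `H`. -/
structure EvMod {H : Type} [CommRing H] [Algebra ℂ H] (n : ℕ) (dg : ℕ → Submodule ℂ H)
    (δ : End ℂ H) (𝔟 : LieSubalgebra ℂ (End ℂ H)) : Prop where
  internal : DirectSum.IsInternal dg
  one : (1 : H) ∈ dg 0
  mul : ∀ i j, ∀ x ∈ dg i, ∀ y ∈ dg j, x * y ∈ dg (i + j)
  top : ∀ k, n < k → ∀ x ∈ dg k, x = 0
  δdg : ∀ k, ∀ x ∈ dg k, δ x = (k : ℂ) • x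
  mul_mem : ∀ v ∈ dg 1, LinearMap.mulLeft ℂ v ∈ 𝔟
  δ_mem : δ ∈ 𝔟
  tangent : ∀ X ∈ 𝔟, ∃ x ∈ dg 1, ∀ k, ∀ h ∈ dg k, X h - x * h ∈ ⨆ (l : ℕ) (_ : l ≤ k), dg l

/-- DEG: the part of degree `-1`. -/
def S_DEG : Prop := ∀ (H : Type) [CommRing H] [Algebra ℂ H] [FiniteDimensional ℂ H] (n : ℕ)
  (dg : ℕ → Submodule ℂ H) (δ : End ℂ H) (𝔟 : LieSubalgebra ℂ (End ℂ H)), EvMod n dg δ 𝔟 →
  ∀ (R : Submodule ℂ H), (∀ r ∈ R, δ r ∈ R) → ∀ f ∈ 𝔟, (∀ r ∈ R, δ (f r) - f (δ r) = -f r) →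
  ∃ f' ∈ 𝔟, δ * f' - f' * δ = -f' ∧ ∀ r ∈ R, f' r = f r

end Pool.Agent.K6.H85.EV
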