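import Mathlib

/-!
# Two more statements
-/

set_option autoImplicit false

namespace Pool.Agent.K6.H85.EV

open Module

attribute [local instance 100] LieRing.ofAssociativeRing

universe u

/-- NN: in the situation of LEF, `N = 0`. -/
def S_NN : Prop := ∀ (W : Type u) [AddCommGroup W] [Module ℂ W] [FiniteDimensional ℂ W]
  (e g δ N : End ℂ W) (m : ℂ), δ * e - e * δ = e →
  e * g - g * e = (2 : ℂ) • δ - m • (1 : End ℂ W) + N → δ * g - g * δ = -g →
  N * e = e * N → N * δ = δ * N →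
  IsNilpotent e → IsNilpotent N → (⨆ k : ℕ, End.eigenspace δ (k : ℂ)) = ⊤ → N = 0

/-- BLK: the block diagonal part of an element of a Lie algebra normalised by the diagonalisable
operator `D`. -/
def S_BLK : Prop := ∀ (H : Type) [AddCommGroup H] [Module ℂ H] [FiniteDimensional ℂ H]
  (𝔟 : Submodule ℂ (End ℂ H)) (D : End ℂ H) (_ : ∀ X ∈ 𝔟, D * X - X * D ∈ 𝔟)
  (L : ℕ → Submodule ℂ H) (_ : DirectSum.IsInternal L) (ev : ℕ → ℂ) (_ : Function.Injective ev)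
  (_ : ∀ m, ∀ x ∈ L m, D x = ev m • x), ∀ f ∈ 𝔟, ∃ f' ∈ 𝔟, ∀ m, ∀ x ∈ L m, f' x ∈ L m ∧
    ∃ y ∈ ⨆ (m' : ℕ) (_ : m' ≠ m), L m', f x = f' x + y

end Pool.Agent.K6.H85.EV
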