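import Pool.Agent.K6.H85.EV.Stm

/-!
# The trace argument
-/

set_option autoImplicit false

namespace Pool.Agent.K6.H85.EV

open Module Pool.Agent.K6.H85.GW Polynomial

variable {W : Type*} [AddCommGroup W] [Module ℂ W] [FiniteDimensional ℂ W]

/-- the elements of the algebra `𝒞` orthogonal to `𝒞` -/
def InJ (𝒞 : Subalgebra ℂ (End ℂ W)) (Z : End ℂ W) : Prop :=
  Z ∈ 𝒞 ∧ ∀ Y ∈ 𝒞, LinearMap.trace ℂ W (Y * Z) = 0

theorem InJ.mul_left {𝒞 : Subalgebra ℂ (End ℂ W)} {Z Y : End ℂ W} (hZ : InJ 𝒞 Z) (hY : Y ∈ 𝒞) :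
    InJ 𝒞 (Y * Z) :=
  ⟨mul_mem hY hZ.1, fun V hV => by rw [← mul_assoc]; exact hZ.2 _ (mul_mem hV hY)⟩

theorem InJ.mul_right {𝒞 : Subalgebra ℂ (End ℂ W)} {Z Y : End ℂ W} (hZ : InJ 𝒞 Z) (hY : Y ∈ 𝒞) :
    InJ 𝒞 (Z * Y) :=
  ⟨mul_mem hZ.1 hY, fun V hV => by
    rw [← mul_assoc, LinearMap.trace_mul_comm, ← mul_assoc]; exact hZ.2 _ (mul_mem hY hV)⟩

theorem InJ.add {𝒞 : Subalgebra ℂ (End ℂ W)} {Z Y : End ℂ W} (hZ : InJ 𝒞 Z) (hY : InJ 𝒞 Y) :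
    InJ 𝒞 (Z + Y) :=
  ⟨add_mem hZ.1 hY.1, fun V hV => by rw [mul_add, map_add, hZ.2 V hV, hY.2 V hV, add_zero]⟩

theorem InJ.zero {𝒞 : Subalgebra ℂ (End ℂ W)} : InJ 𝒞 (0 : End ℂ W) :=
  ⟨zero_mem _, fun V _ => by rw [mul_zero, map_zero]⟩

theorem InJ.smul {𝒞 : Subalgebra ℂ (End ℂ W)} {Z : End ℂ W} (hZ : InJ 𝒞 Z) (c : ℂ) :
    InJ 𝒞 (c • Z) :=
  ⟨𝒞.smul_mem hZ.1 c, fun V hV => by rw [mul_smul_comm, map_smul, hZ.2 V hV, smul_zero]⟩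

/-- two elements congruent modulo `J`: if one is nilpotent, so is the other -/
theorem nilp_of_congr {𝒞 : Subalgebra ℂ (End ℂ W)} {A B : End ℂ W} (hA : A ∈ 𝒞) (hB : B ∈ 𝒞)
    (hAB : InJ 𝒞 (B - A)) (hN : IsNilpotent A) : IsNilpotent B := by
  have hpow : ∀ m : ℕ, InJ 𝒞 (B ^ m - A ^ m) := by
    intro m
    induction m with
    | zero => simpa using InJ.zero
    | succ m ih =>
      have h1 : B ^ (m + 1) - A ^ (m + 1) = B ^ m * (B - A) + (B ^ m - A ^ m) * A := by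
        rw [pow_succ, pow_succ]; noncomm_ring
      rw [h1]
      exact (hAB.mul_left (pow_mem hB m)).add (ih.mul_right hA)
  have htr : ∀ m : ℕ, 1 ≤ m → LinearMap.trace ℂ W (B ^ m) = 0 := by
    intro m hm
    have h1 := (hpow m).2 1 (one_mem _)
    rw [one_mul, map_sub] at h1
    have h2 : LinearMap.trace ℂ W (A ^ m) = 0 :=
      (LinearMap.isNilpotent_trace_of_isNilpotent (hN.pow_of_pos (by omega))).eq_zero
    rw [h2, sub_zero] at h1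
    exact h1
  apply isNilpotent_of_trace
  intro q
  induction q using Polynomial.induction_on' with
  | add p q hp hq => rw [map_add, add_mul, map_add, hp, hq, add_zero]
  | monomial m a =>
    rw [aeval_monomial, mul_assoc, ← pow_succ, ← Algebra.smul_def, map_smul, htr _ (by omega),
      smul_zero]

/-- **TRC** -/
theorem trc {𝒞 : Subalgebra ℂ (End ℂ W)} {ζ₀ ζ₁ P : End ℂ W} (h0 : ζ₀ ∈ 𝒞) (h1 : ζ₁ ∈ 𝒞)
    (hξ : ∀ Z ∈ 𝒞, LinearMap.trace ℂ W (Z * (ζ₁ - ζ₀)) = 0) (hP : P ∈ 𝒞) (c : ℂ)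
    (hN : IsNilpotent (P * (ζ₀ - c • (1 : End ℂ W)) * P)) :
    IsNilpotent (P * (ζ₁ - c • (1 : End ℂ W)) * P) := by
  have hc : c • (1 : End ℂ W) ∈ 𝒞 := 𝒞.smul_mem (one_mem _) c
  refine nilp_of_congr (mul_mem (mul_mem hP (sub_mem h0 hc)) hP)
    (mul_mem (mul_mem hP (sub_mem h1 hc)) hP) ?_ hN
  have h2 : P * (ζ₁ - c • (1 : End ℂ W)) * P - P * (ζ₀ - c • (1 : End ℂ W)) * P =
      P * (ζ₁ - ζ₀) * P := by noncomm_ring
  rw [h2]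
  have h3 : InJ 𝒞 (ζ₁ - ζ₀) := ⟨sub_mem h1 h0, hξ⟩
  exact (h3.mul_left hP).mul_right hP

end Pool.Agent.K6.H85.EV
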